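import Mathlib

set_option autoImplicit false

/-!
Sparse sets of integer vectors.
-/

namespace Pool.Agent.TH910.Voj

open MvPolynomial

/-- the integer vectors of length `n` with entries at most `B` in absolute value -/
noncomputable def box (n B : ℕ) : Finset (Fin n → ℤ) := Fintype.piFinset fun _ => Finset.Icc (-(B : ℤ)) B

lemma mem_box {n B : ℕ} {x : Fin n → ℤ} : x ∈ box n B ↔ ∀ i, |x i| ≤ B := by
  unfold box
  rw [Fintype.mem_piFinset]
  exact forall_congr' fun i => by rw [Finset.mem_Icc, abs_le]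

lemma card_Icc_int (B : ℕ) : (Finset.Icc (-(B : ℤ)) B).card = 2 * B + 1 := by
  rw [Int.card_Icc]; omega

lemma card_box (n B : ℕ) : (box n B).card = (2 * B + 1) ^ n := by
  unfold box
  rw [Fintype.card_piFinset_const, card_Icc_int]

/-- A property (depending on `B`) of the vectors in the box of size `B` is sparse if it holds for
at most `C B ^ (n - c)` of them, with `c > 0`. -/
def Sparse (n : ℕ) (bad : ℕ → (Fin n → ℤ) → Prop) : Prop :=
  ∃ c : ℝ, 0 < c ∧ ∃ C : ℝ, 0 < C ∧ ∀ B : ℕ, 1 ≤ B →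
    (Set.ncard {x | x ∈ box n B ∧ bad B x} : ℝ) ≤ C * (B : ℝ) ^ ((n : ℝ) - c)

lemma finite_sub (n B : ℕ) (P : (Fin n → ℤ) → Prop) : {x | x ∈ box n B ∧ P x}.Finite :=
  (box n B).finite_toSet.subset fun _ hx => hx.1

lemma card_box_le (n B : ℕ) (hB : 1 ≤ B) : ((box n B).card : ℝ) ≤ 3 ^ n * (B : ℝ) ^ (n : ℝ) := by
  rw [card_box, Real.rpow_natCast, ← mul_pow]
  push_cast
  have : (1 : ℝ) ≤ B := by exact_mod_cast hB
  gcongr
  linarith

lemma Sparse.mono {n : ℕ} {P Q : ℕ → (Fin n → ℤ) → Prop} (h : Sparse n Q)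
    (hPQ : ∀ B x, 1 ≤ B → x ∈ box n B → P B x → Q B x) : Sparse n P := by
  obtain ⟨c, hc, C, hC, h⟩ := h
  refine ⟨c, hc, C, hC, fun B hB => le_trans ?_ (h B hB)⟩
  exact_mod_cast Set.ncard_le_ncard (s := {x | x ∈ box n B ∧ P B x})
    (t := {x | x ∈ box n B ∧ Q B x}) (fun x hx => ⟨hx.1, hPQ B x hB hx.1 hx.2⟩)
    (finite_sub n B _)

lemma Sparse.or {n : ℕ} {P Q : ℕ → (Fin n → ℤ) → Prop} (hP : Sparse n P) (hQ : Sparse n Q) :
    Sparse n (fun B x => P B x ∨ Q B x) := by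
  obtain ⟨c, hc, C, hC, h⟩ := hP
  obtain ⟨c', hc', C', hC', h'⟩ := hQ
  refine ⟨min c c', lt_min hc hc', C + C', by positivity, fun B hB => ?_⟩
  have hB1 : (1 : ℝ) ≤ B := by exact_mod_cast hB
  have h1 : (Set.ncard {x | x ∈ box n B ∧ (P B x ∨ Q B x)} : ℝ) ≤
      Set.ncard {x | x ∈ box n B ∧ P B x} + Set.ncard {x | x ∈ box n B ∧ Q B x} := by
    have h2 : {x | x ∈ box n B ∧ (P B x ∨ Q B x)} =
        {x | x ∈ box n B ∧ P B x} ∪ {x | x ∈ box n B ∧ Q B x} := by
      ext x; simp only [Set.mem_ofPred_eq, Set.mem_union]; tauto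
    rw [h2]
    exact_mod_cast Set.ncard_union_le _ _
  refine h1.trans ?_
  rw [add_mul]
  refine add_le_add ((h B hB).trans ?_) ((h' B hB).trans ?_)
  · refine mul_le_mul_of_nonneg_left (Real.rpow_le_rpow_of_exponent_le hB1 ?_) hC.le
    linarith [min_le_left c c']
  · refine mul_le_mul_of_nonneg_left (Real.rpow_le_rpow_of_exponent_le hB1 ?_) hC'.le
    linarith [min_le_right c c']

lemma Sparse.false (n : ℕ) : Sparse n (fun _ _ => False) := by
  refine ⟨1, one_pos, 1, one_pos, fun B hB => ?_⟩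
  simp only [and_false, Set.ofPred_false, Set.ncard_empty, Nat.cast_zero]
  positivity

lemma Sparse.exists_fin {n q : ℕ} {P : Fin q → ℕ → (Fin n → ℤ) → Prop}
    (h : ∀ j, Sparse n (P j)) : Sparse n (fun B x => ∃ j, P j B x) := by
  classical
  have key : ∀ s : Finset (Fin q), Sparse n (fun B x => ∃ j ∈ s, P j B x) := by
    intro s
    induction s using Finset.induction_on with
    | empty => exact (Sparse.false n).mono (by simp)
    | insert a s _ ih =>
      refine ((h a).or ih).mono ?_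
      rintro B x - - ⟨j, hj, hjx⟩
      rcases Finset.mem_insert.mp hj with rfl | hj
      · exact Or.inl hjx
      · exact Or.inr ⟨j, hj, hjx⟩
  refine (key Finset.univ).mono ?_
  rintro B x - - ⟨j, hj⟩
  exact ⟨j, Finset.mem_univ j, hj⟩

/-- It suffices to bound the number of bad vectors in large boxes. -/
lemma Sparse.of_eventually {n : ℕ} {P Q : ℕ → (Fin n → ℤ) → Prop} (h : Sparse n Q) (B₀ : ℕ)
    (hPQ : ∀ B x, B₀ ≤ B → 1 ≤ B → x ∈ box n B → P B x → Q B x) : Sparse n P := by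
  obtain ⟨c, hc, C, hC, h⟩ := h
  refine ⟨c, hc, C + 3 ^ n * (B₀ + 1 : ℝ) ^ c, by positivity, fun B hB => ?_⟩
  have hB1 : (1 : ℝ) ≤ B := by exact_mod_cast hB
  have hB0 : (0 : ℝ) < B := by linarith
  have hpos : 0 ≤ (B : ℝ) ^ ((n : ℝ) - c) := by positivity
  by_cases hBB : B₀ ≤ B
  · have h1 : (Set.ncard {x | x ∈ box n B ∧ P B x} : ℝ) ≤
        Set.ncard {x | x ∈ box n B ∧ Q B x} := by
      exact_mod_cast Set.ncard_le_ncard (s := {x | x ∈ box n B ∧ P B x})
        (t := {x | x ∈ box n B ∧ Q B x}) (fun x hx => ⟨hx.1, hPQ B x hBB hB hx.1 hx.2⟩)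
        (finite_sub n B _)
    refine h1.trans ((h B hB).trans ?_)
    refine mul_le_mul_of_nonneg_right ?_ hpos
    have : 0 ≤ 3 ^ n * (B₀ + 1 : ℝ) ^ c := by positivity
    linarith
  · have h1 : (Set.ncard {x | x ∈ box n B ∧ P B x} : ℝ) ≤ (box n B).card := by
      have h2 := Set.ncard_le_ncard (s := {x | x ∈ box n B ∧ P B x}) (t := (box n B : Set _))
        (fun x hx => hx.1) (box n B).finite_toSet
      rw [Set.ncard_coe_finset] at h2
      exact_mod_cast h2
    refine h1.trans ((card_box_le n B hB).trans ?_)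
    have h3 : (B : ℝ) ^ (n : ℝ) = (B : ℝ) ^ c * (B : ℝ) ^ ((n : ℝ) - c) := by
      rw [← Real.rpow_add hB0]; congr 1; ring
    have h4 : (B : ℝ) ^ c ≤ (B₀ + 1 : ℝ) ^ c := by
      refine Real.rpow_le_rpow hB0.le ?_ hc.le
      have : (B : ℝ) ≤ B₀ := by exact_mod_cast (not_le.mp hBB).le
      linarith
    rw [h3, ← mul_assoc]
    refine mul_le_mul_of_nonneg_right ?_ hpos
    have h5 : (3 : ℝ) ^ n * (B : ℝ) ^ c ≤ 3 ^ n * (B₀ + 1 : ℝ) ^ c :=
      mul_le_mul_of_nonneg_left h4 (by positivity)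
    linarith

/-- the number of zeros of a non-zero polynomial in a box -/
lemma zeros_card_le {n : ℕ} (F : MvPolynomial (Fin (n + 1)) ℤ) (hF : F ≠ 0) (B : ℕ) :
    ((box (n + 1) B).filter fun x => eval x F = 0).card ≤ F.totalDegree * (2 * B + 1) ^ n := by
  have h := schwartz_zippel_totalDegree hF (Finset.Icc (-(B : ℤ)) B)
  rw [card_Icc_int] at h
  have hpos : (0 : ℚ≥0) < (2 * B + 1 : ℕ) := by positivity
  rw [div_le_div_iff₀ (by positivity) hpos] at h
  have h2 : ((box (n + 1) B).filter fun x => eval x F = 0).card * (2 * B + 1) ≤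
      F.totalDegree * (2 * B + 1) ^ (n + 1) := by
    unfold box
    exact_mod_cast h
  rw [pow_succ, ← mul_assoc] at h2
  exact Nat.le_of_mul_le_mul_right h2 (by omega)

lemma zeros_card_le_real {n : ℕ} (F : MvPolynomial (Fin (n + 1)) ℤ) (hF : F ≠ 0) (B : ℕ)
    (hB : 1 ≤ B) : (((box (n + 1) B).filter fun x => eval x F = 0).card : ℝ) ≤
      F.totalDegree * 3 ^ n * (B : ℝ) ^ n := by
  have h := zeros_card_le F hF B
  have h1 : (((box (n + 1) B).filter fun x => eval x F = 0).card : ℝ) ≤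
      F.totalDegree * (2 * B + 1 : ℝ) ^ n := by exact_mod_cast h
  refine h1.trans ?_
  rw [mul_assoc, ← mul_pow]
  have : (1 : ℝ) ≤ B := by exact_mod_cast hB
  gcongr
  linarith

lemma sparse_zeros {n : ℕ} (F : MvPolynomial (Fin (n + 1)) ℤ) (hF : F ≠ 0) :
    Sparse (n + 1) (fun _ x => eval x F = 0) := by
  refine ⟨1, one_pos, F.totalDegree * 3 ^ n + 1, by positivity, fun B hB => ?_⟩
  have h := zeros_card_le_real F hF B hB
  have h1 : Set.ncard {x | x ∈ box (n + 1) B ∧ eval x F = 0} =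
      ((box (n + 1) B).filter fun x => eval x F = 0).card := by
    rw [← Set.ncard_coe_finset]
    congr 1
    ext x; simp
  rw [h1]
  refine h.trans ?_
  have h2 : (((n + 1 : ℕ) : ℝ) - 1) = (n : ℕ) := by push_cast; ring
  rw [h2, Real.rpow_natCast]
  refine mul_le_mul_of_nonneg_right (by linarith) (by positivity)

/-- the values of a polynomial on a box -/
lemma exists_eval_bound {n : ℕ} (F : MvPolynomial (Fin n) ℤ) {k : ℕ} (hk : F.totalDegree ≤ k) :
    ∃ c : ℕ, 1 ≤ c ∧ ∀ B : ℕ, 1 ≤ B → ∀ x ∈ box n B, (eval x F).natAbs ≤ c * B ^ k := by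
  refine ⟨∑ d ∈ F.support, (F.coeff d).natAbs + 1, by omega, fun B hB x hx => ?_⟩
  rw [mem_box] at hx
  rw [eval_eq]
  refine (Int.natAbs_sum_le _ _).trans ?_
  rw [add_mul, Finset.sum_mul]
  refine (Finset.sum_le_sum fun d hd => ?_).trans (Nat.le_add_right _ _)
  rw [Int.natAbs_mul]
  refine Nat.mul_le_mul_left _ ?_
  have h0 : (∏ i ∈ d.support, x i ^ d i).natAbs = ∏ i ∈ d.support, (x i ^ d i).natAbs :=
    map_prod Int.natAbsHom _ _
  rw [h0]
  have h1 : ∀ i ∈ d.support, (x i ^ d i).natAbs ≤ B ^ d i := by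
    intro i _
    rw [Int.natAbs_pow]
    refine Nat.pow_le_pow_left ?_ _
    have h2 := hx i
    rw [Int.abs_eq_natAbs] at h2
    exact_mod_cast h2
  refine (Finset.prod_le_prod' h1).trans ?_
  rw [Finset.prod_pow_eq_pow_sum]
  refine Nat.pow_le_pow_right hB ?_
  have := le_totalDegree hd
  exact this.trans hk

end Pool.Agent.TH910.Voj
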