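import Mathlib

set_option autoImplicit false

/-!
If every prime ideal over `p` divides `p` at least `ν` times, the discriminant of `K` is divisible
by a power of `p` which is at least `p ^ ([K : ℚ] (1 - 1 / ν))`.
-/

namespace Pool.Agent.TH910.Voj

open NumberField UniqueFactorizationMonoid

theorem disc_part {K : Type*} [Field K] [NumberField K] {p ν : ℕ} (hp : p.Prime) (hν : 1 ≤ ν)
    (h : ∀ 𝔮 : Ideal (𝓞 K), 𝔮.IsPrime → (p : 𝓞 K) ∈ 𝔮 → (p : 𝓞 K) ∈ 𝔮 ^ ν) :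
    ∃ D : ℕ, D ∣ p ^ Module.finrank ℚ K ∧ D ∣ (NumberField.discr K).natAbs ∧
      p ^ (Module.finrank ℚ K * (ν - 1)) ≤ D ^ ν := by
  classical
  have hpZ : _root_.Prime (p : ℤ) := Nat.prime_iff_prime_int.mp hp
  have hmax : (Ideal.span {(p : ℤ)}).IsMaximal :=
    PrincipalIdealRing.isMaximal_of_irreducible hpZ.irreducible
  have hp0 : (p : 𝓞 K) ≠ 0 := by exact_mod_cast hp.ne_zero
  set P : Ideal (𝓞 K) := Ideal.span {(p : 𝓞 K)} with hP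
  have hPne : P ≠ ⊥ := by rw [hP, Ne, Ideal.span_singleton_eq_bot]; exact hp0
  have hPmap : Ideal.map (algebraMap ℤ (𝓞 K)) (Ideal.span {(p : ℤ)}) = P := by
    rw [Ideal.map_span, Set.image_singleton]; simp [hP]
  set s := (normalizedFactors P).toFinset with hs
  set e : Ideal (𝓞 K) → ℕ := fun 𝔮 => (normalizedFactors P).count 𝔮 with he
  have hprod : ∏ 𝔮 ∈ s, 𝔮 ^ e 𝔮 = P := by
    rw [hs, he, ← Finset.prod_multiset_count]
    exact Ideal.prod_normalizedFactors_eq_self hPne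
  have hprime : ∀ 𝔮 ∈ s, _root_.Prime 𝔮 := fun 𝔮 h𝔮 =>
    prime_of_normalized_factor 𝔮 (Multiset.mem_toFinset.mp h𝔮)
  have hne : ∀ 𝔮 ∈ s, 𝔮 ≠ ⊥ := fun 𝔮 h𝔮 => (hprime 𝔮 h𝔮).ne_zero
  have hpr : ∀ 𝔮 ∈ s, 𝔮.IsPrime := fun 𝔮 h𝔮 => Ideal.isPrime_of_prime (hprime 𝔮 h𝔮)
  have hmx : ∀ 𝔮 ∈ s, 𝔮.IsMaximal := fun 𝔮 h𝔮 => (hpr 𝔮 h𝔮).isMaximal (hne 𝔮 h𝔮)
  have hdvd : ∀ 𝔮 ∈ s, 𝔮 ^ e 𝔮 ∣ P := fun 𝔮 h𝔮 => by
    rw [← hprod]; exact Finset.dvd_prod_of_mem (fun 𝔮 => 𝔮 ^ e 𝔮) h𝔮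
  have hmem : ∀ 𝔮 ∈ s, (p : 𝓞 K) ∈ 𝔮 := fun 𝔮 h𝔮 => by
    have h1 : 𝔮 ∣ P := dvd_of_mem_normalizedFactors (Multiset.mem_toFinset.mp h𝔮)
    exact Ideal.dvd_iff_le.mp h1 (Ideal.mem_span_singleton_self _)
  have hνe : ∀ 𝔮 ∈ s, ν ≤ e 𝔮 := fun 𝔮 h𝔮 => by
    have h1 : 𝔮 ^ ν ∣ P := by
      rw [Ideal.dvd_iff_le, hP, Ideal.span_singleton_le_iff_mem]
      exact h 𝔮 (hpr 𝔮 h𝔮) (hmem 𝔮 h𝔮)
    have h2 := (dvd_iff_normalizedFactors_le_normalizedFactors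
      (pow_ne_zero ν (hprime 𝔮 h𝔮).ne_zero) hPne).mp h1
    rw [normalizedFactors_pow, normalizedFactors_irreducible (hprime 𝔮 h𝔮).irreducible,
      normalize_eq] at h2
    have h3 := Multiset.count_le_of_le 𝔮 h2
    simpa using h3
  have he1 : ∀ 𝔮 ∈ s, 1 ≤ e 𝔮 := fun 𝔮 h𝔮 => hν.trans (hνe 𝔮 h𝔮)
  set J : Ideal (𝓞 K) := ∏ 𝔮 ∈ s, 𝔮 ^ (e 𝔮 - 1) with hJ
  set I : Ideal (𝓞 K) := ∏ 𝔮 ∈ s, 𝔮 with hI
  have hJI : J * I = P := by
    rw [hJ, hI, ← Finset.prod_mul_distrib, ← hprod]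
    refine Finset.prod_congr rfl fun 𝔮 h𝔮 => ?_
    rw [← pow_succ, Nat.sub_add_cancel (he1 𝔮 h𝔮)]
  have hIP : I ^ ν ∣ P := by
    rw [hI, ← Finset.prod_pow, ← hprod]
    exact Finset.prod_dvd_prod_of_dvd _ _ fun 𝔮 h𝔮 => pow_dvd_pow 𝔮 (hνe 𝔮 h𝔮)
  have hJd : J ∣ differentIdeal ℤ (𝓞 K) := by
    refine Finset.prod_dvd_of_coprime ?_ ?_
    · intro 𝔮 h𝔮 𝔯 h𝔯 hne'
      have := hmx 𝔮 h𝔮
      have := hmx 𝔯 h𝔯
      exact (Ideal.isCoprime_of_isMaximal hne').pow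
    · intro 𝔮 h𝔮
      refine pow_sub_one_dvd_differentIdeal ℤ 𝔮 (e 𝔮) (p := Ideal.span {(p : ℤ)}) ?_ ?_
      · rw [Ne, Ideal.span_singleton_eq_bot]; exact hpZ.ne_zero
      · rw [hPmap]; exact hdvd 𝔮 h𝔮
  have hnP : Ideal.absNorm P = p ^ Module.finrank ℚ K := by
    rw [hP, Ideal.absNorm_span_natCast, RingOfIntegers.rank]
  have hJP : J ∣ P := ⟨I, hJI.symm⟩
  have hD1 : Ideal.absNorm J ∣ p ^ Module.finrank ℚ K := by
    rw [← hnP]; exact Ideal.absNorm_dvd_absNorm_of_le (Ideal.dvd_iff_le.mp hJP)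
  refine ⟨Ideal.absNorm J, hD1, ?_, ?_⟩
  · have h4 := Ideal.absNorm_dvd_absNorm_of_le (Ideal.dvd_iff_le.mp hJd)
    rwa [NumberField.absNorm_differentIdeal K (𝓞 K)] at h4
  · set m := Module.finrank ℚ K with hm
    have h1 : Ideal.absNorm J * Ideal.absNorm I = p ^ m := by rw [← map_mul, hJI, hnP]
    have h2 : (Ideal.absNorm I) ^ ν ≤ p ^ m := by
      have := Ideal.absNorm_dvd_absNorm_of_le (Ideal.dvd_iff_le.mp hIP)
      rw [map_pow, hnP] at this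
      exact Nat.le_of_dvd (pow_pos hp.pos _) this
    have h3 : (p ^ m) ^ ν ≤ (Ideal.absNorm J) ^ ν * p ^ m := by
      rw [← h1, mul_pow]
      refine Nat.mul_le_mul_left _ ?_
      rw [h1]; exact h2
    have h4 : (p ^ m) ^ ν = p ^ (m * (ν - 1)) * p ^ m := by
      rw [← pow_mul, ← pow_add]
      congr 1
      obtain ⟨r, rfl⟩ := Nat.exists_eq_add_of_le hν
      rw [Nat.add_sub_cancel_left]
      ring
    rw [h4] at h3
    exact Nat.le_of_mul_le_mul_right h3 (pow_pos hp.pos _)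

theorem sum_log_le {K : Type*} [Field K] [NumberField K] (S : Finset ℕ)
    (hS : ∀ p ∈ S, p.Prime) (ν : ℕ → ℕ) (hν : ∀ p ∈ S, 1 ≤ ν p)
    (h : ∀ p ∈ S, ∀ 𝔮 : Ideal (𝓞 K), 𝔮.IsPrime → (p : 𝓞 K) ∈ 𝔮 → (p : 𝓞 K) ∈ 𝔮 ^ ν p) :
    ∑ p ∈ S, (1 - 1 / (ν p : ℝ)) * Real.log p ≤
      Real.log |(NumberField.discr K : ℝ)| / Module.finrank ℚ K := by
  classical
  set m := Module.finrank ℚ K with hm
  have hm0 : (0 : ℝ) < m := by exact_mod_cast Module.finrank_pos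
  have hex : ∀ p : ℕ, ∃ D : ℕ, p ∈ S → (D ∣ p ^ m ∧ D ∣ (NumberField.discr K).natAbs ∧
      p ^ (m * (ν p - 1)) ≤ D ^ (ν p)) := by
    intro p
    by_cases hpS : p ∈ S
    · obtain ⟨D, hD⟩ := disc_part (K := K) (hS p hpS) (hν p hpS) (h p hpS)
      exact ⟨D, fun _ => hD⟩
    · exact ⟨1, fun h => absurd h hpS⟩
  choose D hD using hex
  have hd0 : NumberField.discr K ≠ 0 := NumberField.discr_ne_zero _
  have hdp : 0 < (NumberField.discr K).natAbs := Int.natAbs_pos.mpr hd0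
  have h1 : ∏ p ∈ S, D p ∣ (NumberField.discr K).natAbs := by
    refine Finset.prod_dvd_of_isRelPrime ?_ fun p hp => (hD p hp).2.1
    intro p hp q hq hpq
    rw [Function.onFun, ← Nat.coprime_iff_isRelPrime]
    have h2 : Nat.Coprime (p ^ m) (q ^ m) :=
      Nat.Coprime.pow _ _ ((Nat.coprime_primes (hS p hp) (hS q hq)).mpr hpq)
    exact (h2.coprime_dvd_left (hD p hp).1).coprime_dvd_right (hD q hq).1
  have h2 := Nat.le_of_dvd hdp h1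
  have hDpos : ∀ p ∈ S, 0 < D p := fun p hp => Nat.pos_of_dvd_of_pos (hD p hp).2.1 hdp
  have h3 : ∑ p ∈ S, Real.log (D p) ≤ Real.log |(NumberField.discr K : ℝ)| := by
    rw [← Real.log_prod (fun p hp => by exact_mod_cast (hDpos p hp).ne')]
    have h4 : ((NumberField.discr K).natAbs : ℝ) = |(NumberField.discr K : ℝ)| := by
      rw [Nat.cast_natAbs]; push_cast; rfl
    rw [← h4]
    refine Real.log_le_log ?_ (by exact_mod_cast h2)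
    exact_mod_cast Finset.prod_pos hDpos
  rw [le_div_iff₀ hm0, Finset.sum_mul]
  refine le_trans (Finset.sum_le_sum fun p hp => ?_) h3
  have hν0 : (0 : ℝ) < ν p := by exact_mod_cast hν p hp
  have hpp : (0 : ℝ) < p := by exact_mod_cast (hS p hp).pos
  have hDp : (0 : ℝ) < D p := by exact_mod_cast hDpos p hp
  have h5 : ((p : ℝ) ^ (m * (ν p - 1))) ≤ (D p : ℝ) ^ (ν p) := by
    exact_mod_cast (hD p hp).2.2
  have h6 := Real.log_le_log (by positivity) h5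
  rw [Real.log_pow, Real.log_pow] at h6
  push_cast [Nat.cast_sub (hν p hp)] at h6
  have h7 : (ν p : ℝ) * ((1 - 1 / (ν p : ℝ)) * Real.log p * m) ≤ ν p * Real.log (D p) := by
    refine le_trans (le_of_eq ?_) h6
    field_simp
  exact le_of_mul_le_mul_left h7 hν0

end Pool.Agent.TH910.Voj
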