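import Mathlib

set_option autoImplicit false

/-!
If an integer `ζ` of `K` lies in all prime ideals over `p` and its norm is not divisible by
`p ^ (s + 1)`, the discriminant of `K` is divisible by a power of `p` which is at least
`p ^ ([K : ℚ] - s)`.
-/

namespace Pool.Agent.TH910.Voj

open NumberField UniqueFactorizationMonoid

theorem disc_part_norm {K : Type*} [Field K] [NumberField K] {p s : ℕ} (hp : p.Prime) (ζ : 𝓞 K)
    (h : ∀ 𝔮 : Ideal (𝓞 K), 𝔮.IsPrime → (p : 𝓞 K) ∈ 𝔮 → ζ ∈ 𝔮)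
    (hζ : ¬ (p : ℤ) ^ (s + 1) ∣ Algebra.norm ℤ ζ) :
    ∃ D : ℕ, D ∣ p ^ Module.finrank ℚ K ∧ D ∣ (NumberField.discr K).natAbs ∧
      p ^ (Module.finrank ℚ K) ≤ D * p ^ s := by
  classical
  have hpZ : _root_.Prime (p : ℤ) := Nat.prime_iff_prime_int.mp hp
  have hmax : (Ideal.span {(p : ℤ)}).IsMaximal :=
    PrincipalIdealRing.isMaximal_of_irreducible hpZ.irreducible
  have hp0 : (p : 𝓞 K) ≠ 0 := by exact_mod_cast hp.ne_zero
  set P : Ideal (𝓞 K) := Ideal.span {(p : 𝓞 K)} with hP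
  have hPne : P ≠ ⊥ := by rw [hP, Ne, Ideal.span_singleton_eq_bot]; exact hp0
  have hPmap : Ideal.map (algebraMap ℤ (𝓞 K)) (Ideal.span {(p : ℤ)}) = P := by
    rw [Ideal.map_span, Set.image_singleton]; simp [hP]
  set s' := (normalizedFactors P).toFinset with hs
  set e : Ideal (𝓞 K) → ℕ := fun 𝔮 => (normalizedFactors P).count 𝔮 with he
  have hprod : ∏ 𝔮 ∈ s', 𝔮 ^ e 𝔮 = P := by
    rw [hs, he, ← Finset.prod_multiset_count]
    exact Ideal.prod_normalizedFactors_eq_self hPne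
  have hprime : ∀ 𝔮 ∈ s', _root_.Prime 𝔮 := fun 𝔮 h𝔮 =>
    prime_of_normalized_factor 𝔮 (Multiset.mem_toFinset.mp h𝔮)
  have hne : ∀ 𝔮 ∈ s', 𝔮 ≠ ⊥ := fun 𝔮 h𝔮 => (hprime 𝔮 h𝔮).ne_zero
  have hpr : ∀ 𝔮 ∈ s', 𝔮.IsPrime := fun 𝔮 h𝔮 => Ideal.isPrime_of_prime (hprime 𝔮 h𝔮)
  have hmx : ∀ 𝔮 ∈ s', 𝔮.IsMaximal := fun 𝔮 h𝔮 => (hpr 𝔮 h𝔮).isMaximal (hne 𝔮 h𝔮)
  have hdvd : ∀ 𝔮 ∈ s', 𝔮 ^ e 𝔮 ∣ P := fun 𝔮 h𝔮 => by
    rw [← hprod]; exact Finset.dvd_prod_of_mem (fun 𝔮 => 𝔮 ^ e 𝔮) h𝔮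
  have hmem : ∀ 𝔮 ∈ s', (p : 𝓞 K) ∈ 𝔮 := fun 𝔮 h𝔮 => by
    have h1 : 𝔮 ∣ P := dvd_of_mem_normalizedFactors (Multiset.mem_toFinset.mp h𝔮)
    exact Ideal.dvd_iff_le.mp h1 (Ideal.mem_span_singleton_self _)
  have he1 : ∀ 𝔮 ∈ s', 1 ≤ e 𝔮 := fun 𝔮 h𝔮 =>
    Multiset.count_pos.mpr (Multiset.mem_toFinset.mp h𝔮)
  set J : Ideal (𝓞 K) := ∏ 𝔮 ∈ s', 𝔮 ^ (e 𝔮 - 1) with hJ
  set I : Ideal (𝓞 K) := ∏ 𝔮 ∈ s', 𝔮 with hI
  have hJI : J * I = P := by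
    rw [hJ, hI, ← Finset.prod_mul_distrib, ← hprod]
    refine Finset.prod_congr rfl fun 𝔮 h𝔮 => ?_
    rw [← pow_succ, Nat.sub_add_cancel (he1 𝔮 h𝔮)]
  have hJd : J ∣ differentIdeal ℤ (𝓞 K) := by
    refine Finset.prod_dvd_of_coprime ?_ ?_
    · intro 𝔮 h𝔮 𝔯 h𝔯 hne'
      have := hmx 𝔮 h𝔮
      have := hmx 𝔯 h𝔯
      exact (Ideal.isCoprime_of_isMaximal hne').pow
    · intro 𝔮 h𝔮
      refine pow_sub_one_dvd_differentIdeal ℤ 𝔮 (e 𝔮) (p := Ideal.span {(p : ℤ)}) ?_ ?_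
      · rw [Ne, Ideal.span_singleton_eq_bot]; exact hpZ.ne_zero
      · rw [hPmap]; exact hdvd 𝔮 h𝔮
  have hIζ : I ∣ Ideal.span {ζ} := by
    refine Finset.prod_dvd_of_coprime ?_ ?_
    · intro 𝔮 h𝔮 𝔯 h𝔯 hne'
      have := hmx 𝔮 h𝔮
      have := hmx 𝔯 h𝔯
      exact Ideal.isCoprime_of_isMaximal hne'
    · intro 𝔮 h𝔮
      rw [Ideal.dvd_iff_le, Ideal.span_singleton_le_iff_mem]
      exact h 𝔮 (hpr 𝔮 h𝔮) (hmem 𝔮 h𝔮)
  have hnP : Ideal.absNorm P = p ^ Module.finrank ℚ K := by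
    rw [hP, Ideal.absNorm_span_natCast, RingOfIntegers.rank]
  have hJP : J ∣ P := ⟨I, hJI.symm⟩
  have hIP : I ∣ P := ⟨J, by rw [mul_comm, hJI]⟩
  have hD1 : Ideal.absNorm J ∣ p ^ Module.finrank ℚ K := by
    rw [← hnP]; exact Ideal.absNorm_dvd_absNorm_of_le (Ideal.dvd_iff_le.mp hJP)
  have hD2 : Ideal.absNorm I ∣ p ^ Module.finrank ℚ K := by
    rw [← hnP]; exact Ideal.absNorm_dvd_absNorm_of_le (Ideal.dvd_iff_le.mp hIP)
  refine ⟨Ideal.absNorm J, hD1, ?_, ?_⟩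
  · have h4 := Ideal.absNorm_dvd_absNorm_of_le (Ideal.dvd_iff_le.mp hJd)
    rwa [NumberField.absNorm_differentIdeal K (𝓞 K)] at h4
  · have h1 : Ideal.absNorm J * Ideal.absNorm I = p ^ Module.finrank ℚ K := by
      rw [← map_mul, hJI, hnP]
    rw [← h1]
    refine Nat.mul_le_mul_left _ ?_
    obtain ⟨t, -, ht⟩ := (Nat.dvd_prime_pow hp).mp hD2
    have h2 := Ideal.absNorm_dvd_absNorm_of_le (Ideal.dvd_iff_le.mp hIζ)
    rw [Ideal.absNorm_span_singleton, ht] at h2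
    have h3 : t ≤ s := by
      by_contra hcon
      apply hζ
      have h4 : (p : ℤ) ^ t ∣ Algebra.norm ℤ ζ := by
        rw [← Nat.cast_pow, Int.natCast_dvd]; exact h2
      exact (pow_dvd_pow _ (by omega)).trans h4
    rw [ht]
    exact Nat.pow_le_pow_right hp.pos h3

theorem sum_log_le_norm {K : Type*} [Field K] [NumberField K] (S : Finset ℕ)
    (hS : ∀ p ∈ S, p.Prime) (s : ℕ → ℕ)
    (h : ∀ p ∈ S, ∃ ζ : 𝓞 K, (∀ 𝔮 : Ideal (𝓞 K), 𝔮.IsPrime → (p : 𝓞 K) ∈ 𝔮 → ζ ∈ 𝔮) ∧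
      ¬ (p : ℤ) ^ (s p + 1) ∣ Algebra.norm ℤ ζ) :
    ∑ p ∈ S, (1 - (s p : ℝ) / Module.finrank ℚ K) * Real.log p ≤
      Real.log |(NumberField.discr K : ℝ)| / Module.finrank ℚ K := by
  classical
  set m := Module.finrank ℚ K with hm
  have hm0 : (0 : ℝ) < m := by exact_mod_cast Module.finrank_pos
  have hex : ∀ p : ℕ, ∃ D : ℕ, p ∈ S → (D ∣ p ^ m ∧ D ∣ (NumberField.discr K).natAbs ∧
      p ^ m ≤ D * p ^ (s p)) := by
    intro p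
    by_cases hpS : p ∈ S
    · obtain ⟨ζ, h1, h2⟩ := h p hpS
      obtain ⟨D, hD⟩ := disc_part_norm (K := K) (hS p hpS) ζ h1 h2
      exact ⟨D, fun _ => hD⟩
    · exact ⟨1, fun h => absurd h hpS⟩
  choose D hD using hex
  have hd0 : NumberField.discr K ≠ 0 := NumberField.discr_ne_zero _
  have hdp : 0 < (NumberField.discr K).natAbs := Int.natAbs_pos.mpr hd0
  have h1 : ∏ p ∈ S, D p ∣ (NumberField.discr K).natAbs := by
    refine Finset.prod_dvd_of_isRelPrime ?_ fun p hp => (hD p hp).2.1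
    intro p hp q hq hpq
    rw [Function.onFun, ← Nat.coprime_iff_isRelPrime]
    have h2 : Nat.Coprime (p ^ m) (q ^ m) :=
      Nat.Coprime.pow _ _ ((Nat.coprime_primes (hS p hp) (hS q hq)).mpr hpq)
    exact (h2.coprime_dvd_left (hD p hp).1).coprime_dvd_right (hD q hq).1
  have h2 := Nat.le_of_dvd hdp h1
  have hDpos : ∀ p ∈ S, 0 < D p := fun p hp => Nat.pos_of_dvd_of_pos (hD p hp).2.1 hdp
  have h3 : ∑ p ∈ S, Real.log (D p) ≤ Real.log |(NumberField.discr K : ℝ)| := by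
    rw [← Real.log_prod (fun p hp => by exact_mod_cast (hDpos p hp).ne')]
    have h4 : ((NumberField.discr K).natAbs : ℝ) = |(NumberField.discr K : ℝ)| := by
      rw [Nat.cast_natAbs]; push_cast; rfl
    rw [← h4]
    refine Real.log_le_log ?_ (by exact_mod_cast h2)
    exact_mod_cast Finset.prod_pos hDpos
  rw [le_div_iff₀ hm0, Finset.sum_mul]
  refine le_trans (Finset.sum_le_sum fun p hp => ?_) h3
  have hpp : (0 : ℝ) < p := by exact_mod_cast (hS p hp).pos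
  have hDp : (0 : ℝ) < D p := by exact_mod_cast hDpos p hp
  have h5 : ((p : ℝ) ^ m) ≤ (D p : ℝ) * (p : ℝ) ^ (s p) := by
    exact_mod_cast (hD p hp).2.2
  have h6 := Real.log_le_log (by positivity) h5
  rw [Real.log_pow, Real.log_mul hDp.ne' (by positivity), Real.log_pow] at h6
  have h7 : (1 - (s p : ℝ) / m) * Real.log p * m = m * Real.log p - s p * Real.log p := by
    field_simp
  rw [h7]
  linarith

end Pool.Agent.TH910.Voj
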