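import Mathlib

set_option autoImplicit false

/-!
From the ramification indices over a prime divisor to elements of the ring.
-/

namespace Pool.Agent.TH910.Voj

variable {R A : Type*} [CommRing R] [CommRing A] [Algebra R A]

/-- two primes over the same prime in an integral extension are not comparable -/
lemma eq_of_le_of_comap_eq [Algebra.IsIntegral R A] {P Q : Ideal A} (hP : P.IsPrime)
    (hPQ : P ≤ Q) (h : P.comap (algebraMap R A) = Q.comap (algebraMap R A)) : P = Q := by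
  by_contra hne
  obtain ⟨x, hxQ, hxP⟩ := SetLike.exists_of_lt (lt_of_le_of_ne hPQ hne)
  have h1 := Ideal.comap_lt_comap_of_integral_mem_sdiff (R := R) hPQ ⟨hxQ, hxP⟩
    (Algebra.IsIntegral.isIntegral x)
  exact h1.ne h

lemma exists_finset_of_mem_pow (𝔞 : Ideal A) (ν : ℕ) : ∀ u ∈ 𝔞 ^ ν,
    ∃ T : Finset A, (∀ z ∈ T, z ∈ 𝔞) ∧ u ∈ (Ideal.span (T : Set A)) ^ ν := by
  classical
  induction ν with
  | zero =>
    intro u _
    exact ⟨∅, by simp, by simp⟩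
  | succ ν ih =>
    intro u hu
    rw [pow_succ] at hu
    refine Submodule.mul_induction_on hu ?_ ?_
    · intro m hm n hn
      obtain ⟨T, hT1, hT2⟩ := ih m hm
      refine ⟨insert n T, ?_, ?_⟩
      · intro z hz
        rcases Finset.mem_insert.mp hz with rfl | hz
        · exact hn
        · exact hT1 z hz
      · rw [pow_succ]
        refine Ideal.mul_mem_mul ?_ (Ideal.subset_span (by simp))
        exact Ideal.pow_right_mono (Ideal.span_mono (by simp)) ν hT2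
    · rintro x y ⟨T1, h11, h12⟩ ⟨T2, h21, h22⟩
      refine ⟨T1 ∪ T2, ?_, ?_⟩
      · intro z hz
        rcases Finset.mem_union.mp hz with hz | hz
        · exact h11 z hz
        · exact h21 z hz
      · refine Ideal.add_mem _ ?_ ?_
        · exact Ideal.pow_right_mono (Ideal.span_mono (by simp)) _ h12
        · exact Ideal.pow_right_mono (Ideal.span_mono (by simp)) _ h22

theorem exists_data [Algebra.IsIntegral R A] (F : R) (hFp : (Ideal.span {F}).IsPrime)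
    (hfin : {𝔓 : Ideal A | 𝔓.IsPrime ∧ 𝔓.comap (algebraMap R A) = Ideal.span {F}}.Finite) (ν : ℕ)
    (h : ∀ 𝔓 : Ideal A, 𝔓.IsPrime → 𝔓.comap (algebraMap R A) = Ideal.span {F} →
      ∃ s, s ∉ 𝔓 ∧ s * algebraMap R A F ∈ 𝔓 ^ ν) :
    ∃ g : R, ¬ F ∣ g ∧ ∃ E : ℕ, ∃ T : Finset A,
      algebraMap R A g * algebraMap R A F ∈ (Ideal.span (T : Set A)) ^ ν ∧
      ∀ z ∈ T, ∃ b, algebraMap R A g * z ^ E = algebraMap R A F * b := by
  classical
  set P : Ideal R := Ideal.span {F} with hPdef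
  have hFP : F ∈ P := Ideal.mem_span_singleton_self _
  set f := algebraMap R A F with hf
  set 𝒮 := hfin.toFinset with h𝒮
  have hmem𝒮 : ∀ 𝔓, 𝔓 ∈ 𝒮 ↔ 𝔓.IsPrime ∧ 𝔓.comap (algebraMap R A) = P := by
    intro 𝔓; rw [h𝒮, Set.Finite.mem_toFinset]; rfl
  set 𝔞 : Ideal A := 𝒮.inf id with h𝔞
  set M : Submonoid A := P.primeCompl.map (algebraMap R A) with hM
  -- a prime disjoint from `M` containing `f` is in `𝒮`
  have hkey : ∀ 𝔓 : Ideal A, 𝔓.IsPrime → f ∈ 𝔓 → Disjoint (𝔓 : Set A) (M : Set A) → 𝔓 ∈ 𝒮 := by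
    intro 𝔓 hp hf𝔓 hdis
    rw [hmem𝒮]
    refine ⟨hp, le_antisymm ?_ ?_⟩
    · intro r hr
      by_contra hrP
      exact Set.disjoint_left.mp hdis (show algebraMap R A r ∈ (𝔓 : Set A) from hr)
        (Submonoid.mem_map.mpr ⟨r, hrP, rfl⟩)
    · rw [hPdef, Ideal.span_singleton_le_iff_mem]
      exact hf𝔓
  -- step 1
  obtain ⟨g₁, hg₁P, hg₁⟩ : ∃ g : R, g ∉ P ∧ algebraMap R A g * f ∈ 𝔞 ^ ν := by
    by_contra hcon
    push Not at hcon
    set 𝔠 : Ideal A := Submodule.comap (LinearMap.toSpanSingleton A A f) (𝔞 ^ ν) with h𝔠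
    have hmem𝔠 : ∀ c, c ∈ 𝔠 ↔ c * f ∈ 𝔞 ^ ν := fun c => by
      rw [h𝔠, Submodule.mem_comap]; rfl
    have hdis : Disjoint (𝔠 : Set A) (M : Set A) := by
      rw [Set.disjoint_left]
      intro c hc hcM
      obtain ⟨g, hg, rfl⟩ := Submonoid.mem_map.mp hcM
      exact hcon g hg ((hmem𝔠 _).mp hc)
    obtain ⟨𝔓, hp, hle, hdis'⟩ := Ideal.exists_le_prime_disjoint 𝔠 M hdis
    have h1 : 𝔞 ^ ν ≤ 𝔓 := by
      intro c hc
      exact hle ((hmem𝔠 c).mpr (Ideal.mul_mem_right _ _ hc))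
    have h2 : 𝔞 ≤ 𝔓 := hp.le_of_pow_le h1
    have h3 : ∃ 𝔔 ∈ 𝒮, 𝔔 ≤ 𝔓 := by
      have := (hp.inf_le' (s := 𝒮) (f := id)).mp h2
      simpa using this
    obtain ⟨𝔔, h𝔔, h𝔔𝔓⟩ := h3
    have hf𝔓 : f ∈ 𝔓 := by
      refine h𝔔𝔓 ?_
      have := ((hmem𝒮 𝔔).mp h𝔔).2
      have h4 : F ∈ 𝔔.comap (algebraMap R A) := by rw [this]; exact hFP
      exact h4
    have h𝔓 := hkey 𝔓 hp hf𝔓 hdis'
    obtain ⟨s, hs, hsf⟩ := h 𝔓 hp ((hmem𝒮 𝔓).mp h𝔓).2
    obtain ⟨t, ht, ht𝔓⟩ : ∃ t ∈ (𝒮.erase 𝔓).inf id, t ∉ 𝔓 := by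
      by_contra hcon'
      push Not at hcon'
      have h5 : (𝒮.erase 𝔓).inf id ≤ 𝔓 := fun t ht => hcon' t ht
      obtain ⟨𝔔', h𝔔', h𝔔'𝔓⟩ := (hp.inf_le' (s := 𝒮.erase 𝔓) (f := id)).mp h5
      rw [Finset.mem_erase] at h𝔔'
      have h6 := (hmem𝒮 𝔔').mp h𝔔'.2
      exact h𝔔'.1 (eq_of_le_of_comap_eq (R := R) h6.1 h𝔔'𝔓 (by
        rw [h6.2, ((hmem𝒮 𝔓).mp h𝔓).2]))
    have h7 : Ideal.span {t} * 𝔓 ≤ 𝔞 := by
      rw [h𝔞]
      refine Finset.le_inf fun 𝔔' h𝔔' => ?_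
      by_cases heq : 𝔔' = 𝔓
      · rw [heq]; exact Ideal.mul_le_right
      · refine Ideal.mul_le_left.trans ?_
        rw [Ideal.span_singleton_le_iff_mem]
        exact (Finset.inf_le (f := id) (Finset.mem_erase.mpr ⟨heq, h𝔔'⟩)) ht
    have h8 : t ^ ν * (s * f) ∈ 𝔞 ^ ν := by
      refine Ideal.pow_right_mono h7 ν ?_
      rw [mul_pow]
      exact Ideal.mul_mem_mul (Ideal.pow_mem_pow (Ideal.mem_span_singleton_self t) ν) hsf
    have h9 : t ^ ν * s ∈ 𝔓 := by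
      refine hle ((hmem𝔠 _).mpr ?_)
      rw [mul_assoc]; exact h8
    rcases hp.mem_or_mem h9 with h10 | h10
    · exact ht𝔓 (hp.mem_of_pow_mem _ h10)
    · exact hs h10
  -- step 2
  have hstep2 : ∀ z ∈ 𝔞, ∃ g : R, g ∉ P ∧ ∃ E : ℕ, ∃ b, algebraMap R A g * z ^ E = f * b := by
    intro z hz
    by_contra hcon
    push Not at hcon
    have hdis : Disjoint ((Ideal.span {f} : Ideal A) : Set A)
        ((M ⊔ Submonoid.powers z : Submonoid A) : Set A) := by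
      rw [Set.disjoint_left]
      intro c hc hcM
      obtain ⟨m, hm, w, hw, hmw⟩ := Submonoid.mem_sup.mp hcM
      obtain ⟨g, hg, rfl⟩ := Submonoid.mem_map.mp hm
      obtain ⟨E, rfl⟩ := Submonoid.mem_powers_iff _ _ |>.mp hw
      obtain ⟨b, hb⟩ := Ideal.mem_span_singleton'.mp hc
      exact hcon g hg E b (by rw [hmw, ← hb, mul_comm])
    obtain ⟨𝔓, hp, hle, hdis'⟩ := Ideal.exists_le_prime_disjoint _ _ hdis
    have hf𝔓 : f ∈ 𝔓 := hle (Ideal.mem_span_singleton_self _)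
    have hd1 : Disjoint (𝔓 : Set A) (M : Set A) :=
      hdis'.mono_right (fun x hx => (le_sup_left : M ≤ M ⊔ Submonoid.powers z) hx)
    have h𝔓 := hkey 𝔓 hp hf𝔓 hd1
    have hz𝔓 : z ∈ 𝔓 := (Finset.inf_le (f := id) h𝔓) hz
    exact Set.disjoint_left.mp hdis' hz𝔓
      ((le_sup_right : Submonoid.powers z ≤ M ⊔ Submonoid.powers z) (Submonoid.mem_powers z))
  obtain ⟨T, hT1, hT2⟩ := exists_finset_of_mem_pow 𝔞 ν _ hg₁
  have hex : ∀ z : A, ∃ g : R, ∃ E : ℕ, g ∉ P ∧ (z ∈ 𝔞 → ∃ b, algebraMap R A g * z ^ E = f * b) := by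
    intro z
    by_cases hz : z ∈ 𝔞
    · obtain ⟨g, hg, E, b, hb⟩ := hstep2 z hz
      exact ⟨g, E, hg, fun _ => ⟨b, hb⟩⟩
    · exact ⟨1, 0, fun h1 => hFp.ne_top ((Ideal.eq_top_iff_one _).mpr h1), fun h => absurd h hz⟩
  choose gz Ez hgz hbz using hex
  have hprodP : ∏ z ∈ T, gz z ∉ P := by
    intro hmem
    obtain ⟨z, -, hz⟩ := (hFp.prod_mem_iff).mp hmem
    exact hgz z hz
  refine ⟨g₁ * ∏ z ∈ T, gz z, ?_, ∑ z ∈ T, Ez z, T, ?_, ?_⟩
  · intro hdvd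
    rcases hFp.mem_or_mem (Ideal.mem_span_singleton.mpr hdvd) with h1 | h1
    · exact hg₁P h1
    · exact hprodP h1
  · rw [map_mul, mul_assoc, mul_comm (algebraMap R A (∏ z ∈ T, gz z)) _, ← mul_assoc]
    exact Ideal.mul_mem_right _ _ hT2
  · intro z hz
    obtain ⟨b, hb⟩ := hbz z (hT1 z hz)
    refine ⟨algebraMap R A g₁ * algebraMap R A (∏ w ∈ T.erase z, gz w) *
      z ^ (∑ w ∈ T.erase z, Ez w) * b, ?_⟩
    rw [← Finset.mul_prod_erase T gz hz, ← Finset.add_sum_erase T Ez hz, pow_add, map_mul, map_mul]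
    calc _ = algebraMap R A g₁ * algebraMap R A (∏ w ∈ T.erase z, gz w) *
          z ^ (∑ w ∈ T.erase z, Ez w) * (algebraMap R A (gz z) * z ^ Ez z) := by ring
      _ = _ := by rw [hb]; ring

end Pool.Agent.TH910.Voj
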