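import Pool.Agent.TH910.Voj.Spec
import Pool.Agent.TH910.Voj.Ram

set_option autoImplicit false

/-!
From a finite algebra over `ℚ[x]` to integral data over `ℤ[x]`.
-/

namespace Pool.Agent.TH910.Voj

open NumberField MvPolynomial

/-- the polynomial with rational coefficients -/
noncomputable abbrev toQ {n : ℕ} : MvPolynomial (Fin n) ℤ →+* MvPolynomial (Fin n) ℚ :=
  MvPolynomial.map (Int.castRingHom ℚ)

lemma exists_int_mul_isIntegral {n : ℕ} {A : Type*} [CommRing A]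
    [Algebra (MvPolynomial (Fin n) ℚ) A] [Module.Finite (MvPolynomial (Fin n) ℚ) A]
    [Algebra (MvPolynomial (Fin n) ℤ) A]
    (hA : algebraMap (MvPolynomial (Fin n) ℤ) A =
      (algebraMap (MvPolynomial (Fin n) ℚ) A).comp toQ) (a : A) :
    ∃ N : ℤ, N ≠ 0 ∧ IsIntegral (MvPolynomial (Fin n) ℤ) ((N : A) * a) := by
  let _ : Algebra (MvPolynomial (Fin n) ℤ) (MvPolynomial (Fin n) ℚ) := algebraMvPolynomial
  have htower : IsScalarTower (MvPolynomial (Fin n) ℤ) (MvPolynomial (Fin n) ℚ) A := by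
    refine IsScalarTower.of_algebraMap_eq fun x => ?_
    rw [hA]
    rfl
  have hloc : IsLocalization ((nonZeroDivisors ℤ).map (C (σ := Fin n))) (MvPolynomial (Fin n) ℚ) :=
    MvPolynomial.isLocalization (nonZeroDivisors ℤ) ℚ
  obtain ⟨⟨m, hm⟩, hint⟩ := IsIntegral.exists_multiple_integral_of_isLocalization
    ((nonZeroDivisors ℤ).map (C (σ := Fin n))) a
    (Algebra.IsIntegral.isIntegral (R := MvPolynomial (Fin n) ℚ) a)
  obtain ⟨N, hN, rfl⟩ := Submonoid.mem_map.mp hm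
  refine ⟨N, nonZeroDivisors.ne_zero hN, ?_⟩
  rw [Submonoid.smul_def, Algebra.smul_def] at hint
  simpa using hint

lemma lift_pow {R A : Type*} [CommRing R] [CommRing A] [Algebra R A]
    (hclear : ∀ a : A, ∃ N : ℤ, N ≠ 0 ∧ IsIntegral R ((N : A) * a))
    (T : Set A) (N₁ : ℤ) (hN₁0 : N₁ ≠ 0) (hN₁ : ∀ z ∈ T, IsIntegral R ((N₁ : A) * z)) (ν : ℕ) :
    ∀ u ∈ (Ideal.span T) ^ ν, ∃ N : ℤ, N ≠ 0 ∧
      ∃ w ∈ (Ideal.span {w : integralClosure R A | ∃ z ∈ T, (w : A) = N₁ * z}) ^ ν,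
        (w : A) = N * u := by
  set 𝔟 : Ideal (integralClosure R A) :=
    Ideal.span {w : integralClosure R A | ∃ z ∈ T, (w : A) = N₁ * z} with h𝔟
  have hone : ∀ u ∈ Ideal.span T, ∃ N : ℤ, N ≠ 0 ∧ ∃ w ∈ 𝔟, (w : A) = N * u := by
    intro u hu
    refine Submodule.span_induction ?_ ?_ ?_ ?_ hu
    · intro z hz
      exact ⟨N₁, hN₁0, ⟨_, hN₁ z hz⟩, Ideal.subset_span ⟨z, hz, rfl⟩, rfl⟩
    · exact ⟨1, one_ne_zero, 0, zero_mem _, by simp⟩
    · rintro x y - - ⟨N, hN, w, hw, hwN⟩ ⟨N', hN', w', hw', hwN'⟩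
      refine ⟨N * N', mul_ne_zero hN hN', (N' : integralClosure R A) * w +
        (N : integralClosure R A) * w', Ideal.add_mem _ (Ideal.mul_mem_left _ _ hw)
          (Ideal.mul_mem_left _ _ hw'), ?_⟩
      push_cast
      rw [hwN, hwN']
      ring
    · rintro a x - ⟨N, hN, w, hw, hwN⟩
      obtain ⟨M, hM, hMa⟩ := hclear a
      refine ⟨M * N, mul_ne_zero hM hN, ⟨_, hMa⟩ * w, Ideal.mul_mem_left _ _ hw, ?_⟩
      push_cast
      rw [hwN, smul_eq_mul]
      ring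
  induction ν with
  | zero =>
    intro u _
    obtain ⟨M, hM, hMa⟩ := hclear u
    exact ⟨M, hM, ⟨_, hMa⟩, by simp, rfl⟩
  | succ ν ih =>
    intro u hu
    rw [pow_succ] at hu
    refine Submodule.mul_induction_on hu ?_ ?_
    · intro m hm k hk
      obtain ⟨N, hN, w, hw, hwN⟩ := ih m hm
      obtain ⟨N', hN', w', hw', hwN'⟩ := hone k hk
      refine ⟨N * N', mul_ne_zero hN hN', w * w', ?_, ?_⟩
      · rw [pow_succ]; exact Ideal.mul_mem_mul hw hw'
      · push_cast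
        rw [hwN, hwN', ]
        ring
    · rintro x y ⟨N, hN, w, hw, hwN⟩ ⟨N', hN', w', hw', hwN'⟩
      refine ⟨N * N', mul_ne_zero hN hN', (N' : integralClosure R A) * w +
        (N : integralClosure R A) * w', Ideal.add_mem _ (Ideal.mul_mem_left _ _ hw)
          (Ideal.mul_mem_left _ _ hw'), ?_⟩
      push_cast
      rw [hwN, hwN']
      ring

lemma primesOver_finite {R A : Type*} [CommRing R] [CommRing A] [Algebra R A]
    [IsNoetherianRing A] [Algebra.IsIntegral R A] (F : R) :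
    {𝔓 : Ideal A | 𝔓.IsPrime ∧ 𝔓.comap (algebraMap R A) = Ideal.span {F}}.Finite := by
  refine (Ideal.finite_minimalPrimes_of_isNoetherianRing A
    (Ideal.span {algebraMap R A F})).subset ?_
  rintro 𝔓 ⟨hp, hcomap⟩
  have hF : algebraMap R A F ∈ 𝔓 := by
    have : F ∈ 𝔓.comap (algebraMap R A) := by
      rw [hcomap]; exact Ideal.mem_span_singleton_self _
    exact this
  refine ⟨⟨hp, by rwa [Ideal.span_singleton_le_iff_mem]⟩, ?_⟩
  rintro 𝔔 ⟨hq, hle⟩ h𝔔𝔓
  rw [Ideal.span_singleton_le_iff_mem] at hle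
  have h1 : 𝔔.comap (algebraMap R A) = 𝔓.comap (algebraMap R A) := by
    refine le_antisymm (Ideal.comap_mono h𝔔𝔓) ?_
    rw [hcomap, Ideal.span_singleton_le_iff_mem]
    exact hle
  exact (eq_of_le_of_comap_eq (R := R) hq h𝔔𝔓 h1).ge

theorem exists_integral_data {n : ℕ} {A : Type*} [CommRing A]
    [Algebra (MvPolynomial (Fin n) ℚ) A] [Module.Finite (MvPolynomial (Fin n) ℚ) A]
    (F : MvPolynomial (Fin n) ℤ) (hF : Irreducible (toQ F)) (ν : ℕ)
    (h : ∀ 𝔓 : Ideal A, 𝔓.IsPrime →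
      𝔓.comap (algebraMap (MvPolynomial (Fin n) ℚ) A) = Ideal.span {toQ F} →
      ∃ s, s ∉ 𝔓 ∧ s * algebraMap _ A (toQ F) ∈ 𝔓 ^ ν) :
    ∃ g : MvPolynomial (Fin n) ℤ, ¬ toQ F ∣ toQ g ∧
      ∀ (K : Type) [Field K] [NumberField K] (φ : A →+* K) (x : Fin n → ℤ),
        (∀ i, φ (algebraMap (MvPolynomial (Fin n) ℚ) A (X i)) = x i) →
        ∀ p : ℕ, p.Prime → (p : ℤ) ∣ eval x F → ¬ (p : ℤ) ^ 2 ∣ eval x F →
          ¬ (p : ℤ) ∣ eval x g →
          ∀ 𝔮 : Ideal (𝓞 K), 𝔮.IsPrime → (p : 𝓞 K) ∈ 𝔮 → (p : 𝓞 K) ∈ 𝔮 ^ ν := by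
  classical
  let _ : Algebra (MvPolynomial (Fin n) ℤ) A :=
    ((algebraMap (MvPolynomial (Fin n) ℚ) A).comp toQ).toAlgebra
  have hA : algebraMap (MvPolynomial (Fin n) ℤ) A =
      (algebraMap (MvPolynomial (Fin n) ℚ) A).comp toQ := rfl
  have hA' : ∀ G : MvPolynomial (Fin n) ℤ, algebraMap (MvPolynomial (Fin n) ℤ) A G =
      algebraMap (MvPolynomial (Fin n) ℚ) A (toQ G) := fun G => rfl
  have hclear := exists_int_mul_isIntegral (n := n) (A := A) hA
  have hN1 : IsNoetherianRing A := by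
    have h1 : IsNoetherian (MvPolynomial (Fin n) ℚ) A :=
      isNoetherian_of_isNoetherianRing_of_finite _ _
    exact isNoetherian_of_tower (MvPolynomial (Fin n) ℚ) h1
  have hFprime : Prime (toQ F) := hF.prime
  have hFp : (Ideal.span {toQ F}).IsPrime :=
    (Ideal.span_singleton_prime hFprime.ne_zero).mpr hFprime
  obtain ⟨g₀, hg₀, E, T, hT1, hT2⟩ := exists_data (A := A) (toQ F) hFp (primesOver_finite _) ν h
  -- denominators
  have hclear_fin : ∀ S : Finset A, ∃ N : ℤ, N ≠ 0 ∧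
      ∀ a ∈ S, IsIntegral (MvPolynomial (Fin n) ℤ) ((N : A) * a) := by
    intro S
    choose N hN0 hN using hclear
    refine ⟨∏ a ∈ S, N a, Finset.prod_ne_zero_iff.mpr fun a _ => hN0 a, fun a ha => ?_⟩
    rw [← Finset.mul_prod_erase S N ha]
    push_cast
    have h1 : IsIntegral (MvPolynomial (Fin n) ℤ) ((∏ b ∈ S.erase a, (N b : A))) :=
      IsIntegral.prod _ fun b _ => by
        have := isIntegral_algebraMap (R := MvPolynomial (Fin n) ℤ) (A := A) (x := C (N b))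
        simpa using this
    have h2 : (N a : A) * (∏ b ∈ S.erase a, (N b : A)) * a =
        ((N a : A) * a) * ∏ b ∈ S.erase a, (N b : A) := by ring
    rw [h2]
    exact (hN a).mul h1
  choose! b hb using hT2
  obtain ⟨N₁, hN₁0, hN₁⟩ := hclear_fin T
  obtain ⟨N₄, hN₄0, hN₄⟩ := hclear_fin (T.image b)
  -- the denominator of `g₀`
  obtain ⟨N₂, hN₂0, g₁, hg₁⟩ : ∃ N : ℤ, N ≠ 0 ∧ ∃ g₁ : MvPolynomial (Fin n) ℤ,
      toQ g₁ = C (N : ℚ) * g₀ := by
    let _ : Algebra (MvPolynomial (Fin n) ℤ) (MvPolynomial (Fin n) ℚ) := algebraMvPolynomial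
    have hloc : IsLocalization ((nonZeroDivisors ℤ).map (C (σ := Fin n)))
      (MvPolynomial (Fin n) ℚ) := MvPolynomial.isLocalization (nonZeroDivisors ℤ) ℚ
    obtain ⟨⟨g₁, ⟨m, hm⟩⟩, hgm⟩ := IsLocalization.surj
      ((nonZeroDivisors ℤ).map (C (σ := Fin n))) g₀
    obtain ⟨N, hN, rfl⟩ := Submonoid.mem_map.mp hm
    refine ⟨N, nonZeroDivisors.ne_zero hN, g₁, ?_⟩
    have h1 : toQ g₁ = g₀ * toQ (C N) := hgm.symm
    rw [h1, mul_comm]
    simp
  obtain ⟨N₃, hN₃0, w, hw𝔟, hw⟩ := lift_pow (R := MvPolynomial (Fin n) ℤ) hclear (T : Set A) N₁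
    hN₁0 (fun z hz => hN₁ z hz) ν _ hT1
  set 𝔟 : Ideal (integralClosure (MvPolynomial (Fin n) ℤ) A) :=
    Ideal.span {w : integralClosure (MvPolynomial (Fin n) ℤ) A | ∃ z ∈ (T : Set A),
      (w : A) = N₁ * z} with h𝔟
  set g : MvPolynomial (Fin n) ℤ := C (N₁ ^ E * N₃ * N₄) * g₁ with hg
  have hgQ : toQ g = C ((N₁ ^ E * N₃ * N₄ * N₂ : ℤ) : ℚ) * g₀ := by
    have hC : toQ (C (N₁ ^ E * N₃ * N₄)) =
        (C (((N₁ ^ E * N₃ * N₄ : ℤ)) : ℚ) : MvPolynomial (Fin n) ℚ) := (map_C _ _).trans rfl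
    rw [hg, map_mul, hg₁, hC, ← mul_assoc, ← C_mul, ← Int.cast_mul]
  clear_value g
  have hinj : Function.Injective
      (algebraMap (integralClosure (MvPolynomial (Fin n) ℤ) A) A) := Subtype.val_injective
  refine ⟨g, ?_, ?_⟩
  · intro hdvd
    rw [hgQ] at hdvd
    rcases hFprime.dvd_or_dvd hdvd with h1 | h1
    · have h2 : IsUnit (C ((N₁ ^ E * N₃ * N₄ * N₂ : ℤ) : ℚ) : MvPolynomial (Fin n) ℚ) := by
        refine IsUnit.map C (isUnit_iff_ne_zero.mpr ?_)
        have : (N₁ ^ E * N₃ * N₄ * N₂ : ℤ) ≠ 0 :=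
          mul_ne_zero (mul_ne_zero (mul_ne_zero (pow_ne_zero _ hN₁0) hN₃0) hN₄0) hN₂0
        exact_mod_cast this
      exact hFprime.not_isUnit (isUnit_of_dvd_unit h1 h2)
    · exact hg₀ h1
  · intro K _ _ φ x hφ p hp hpF hpF2 hpg 𝔮 h𝔮 hmem
    -- the ring homomorphism to the ring of integers
    have hφR : ∀ G : MvPolynomial (Fin n) ℤ,
        φ (algebraMap (MvPolynomial (Fin n) ℤ) A G) = ((eval x G : ℤ) : K) := by
      intro G
      have h1 : φ.comp (algebraMap (MvPolynomial (Fin n) ℤ) A) =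
          (Int.castRingHom K).comp (eval x) := by
        refine MvPolynomial.ringHom_ext' ?_ ?_
        · exact RingHom.ext_int _ _
        · intro i
          simp only [RingHom.comp_apply, eval_X, hA', map_X, hφ i, eq_intCast]
      exact congrArg (fun f : MvPolynomial (Fin n) ℤ →+* K => f G) h1
    have hint : ∀ a : integralClosure (MvPolynomial (Fin n) ℤ) A,
        (φ.comp (algebraMap (integralClosure (MvPolynomial (Fin n) ℤ) A) A)) a ∈
          integralClosure ℤ K := by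
      intro a
      have h1 : IsIntegral (MvPolynomial (Fin n) ℤ) (a : A) := a.2
      refine IsIntegral.map_of_comp_eq (eval x) φ ?_ h1
      refine RingHom.ext fun G => ?_
      rw [RingHom.comp_apply, RingHom.comp_apply, hφR]
      simp
    set ψ : integralClosure (MvPolynomial (Fin n) ℤ) A →+* 𝓞 K :=
      (φ.comp (algebraMap (integralClosure (MvPolynomial (Fin n) ℤ) A) A)).codRestrict
        (integralClosure ℤ K) hint with hψ
    have hψv : ∀ a, ((ψ a : 𝓞 K) : K) = φ (a : A) := fun a => rfl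
    have hψR : ∀ G : MvPolynomial (Fin n) ℤ,
        ψ (algebraMap _ _ G) = ((eval x G : ℤ) : 𝓞 K) := by
      intro G
      apply RingOfIntegers.ext
      rw [hψv]
      have h2 : ((algebraMap (MvPolynomial (Fin n) ℤ)
        (integralClosure (MvPolynomial (Fin n) ℤ) A) G : integralClosure _ A) : A) =
          algebraMap (MvPolynomial (Fin n) ℤ) A G := rfl
      rw [h2, hφR]
      simp
    refine mem_pow_of_data ψ
      {w : integralClosure (MvPolynomial (Fin n) ℤ) A | ∃ z ∈ (T : Set A), (w : A) = N₁ * z}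
      (algebraMap _ _ g) (algebraMap _ _ F) ν E ?_ ?_ (eval x g) (eval x F) (hψR g) (hψR F)
      hp hpF hpF2 hpg 𝔮 h𝔮 hmem
    · -- membership
      have h3 : algebraMap (MvPolynomial (Fin n) ℤ) (integralClosure (MvPolynomial (Fin n) ℤ) A) g *
          algebraMap (MvPolynomial (Fin n) ℤ) (integralClosure (MvPolynomial (Fin n) ℤ) A) F =
          ((N₁ ^ E * N₄ * N₂ : ℤ) : integralClosure (MvPolynomial (Fin n) ℤ) A) * w := by
        apply hinj
        rw [map_mul, map_mul, map_intCast]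
        have h4 : algebraMap (integralClosure (MvPolynomial (Fin n) ℤ) A) A w = (w : A) := rfl
        have h5 : ∀ G : MvPolynomial (Fin n) ℤ,
          algebraMap (integralClosure (MvPolynomial (Fin n) ℤ) A) A (algebraMap _ _ G) =
          algebraMap (MvPolynomial (Fin n) ℚ) A (toQ G) := fun G => rfl
        rw [h4, hw, h5, h5, hgQ, map_mul]
        have h6 : algebraMap (MvPolynomial (Fin n) ℚ) A (C ((N₁ ^ E * N₃ * N₄ * N₂ : ℤ) : ℚ)) =
          ((N₁ ^ E * N₃ * N₄ * N₂ : ℤ) : A) := by simp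
        rw [h6]
        push_cast
        ring
      rw [h3]
      exact Ideal.mul_mem_left _ _ hw𝔟
    · rintro z ⟨z₀, hz₀, hz⟩
      have hbz := hb z₀ hz₀
      have h7 := hN₄ (b z₀) (Finset.mem_image_of_mem b hz₀)
      refine ⟨((N₁ ^ E * N₃ * N₂ * N₁ ^ E : ℤ) : integralClosure (MvPolynomial (Fin n) ℤ) A) *
        ⟨_, h7⟩, ?_⟩
      apply hinj
      rw [map_mul, map_mul, map_mul, map_pow, map_intCast]
      have h4 : algebraMap (integralClosure (MvPolynomial (Fin n) ℤ) A) A z = (z : A) := rfl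
      have h5 : ∀ G : MvPolynomial (Fin n) ℤ,
          algebraMap (integralClosure (MvPolynomial (Fin n) ℤ) A) A (algebraMap _ _ G) =
          algebraMap (MvPolynomial (Fin n) ℚ) A (toQ G) := fun G => rfl
      have h8 : algebraMap (integralClosure (MvPolynomial (Fin n) ℤ) A) A ⟨_, h7⟩ =
        (N₄ : A) * b z₀ := rfl
      have h6 : algebraMap (MvPolynomial (Fin n) ℚ) A (C ((N₁ ^ E * N₃ * N₄ * N₂ : ℤ) : ℚ)) =
          ((N₁ ^ E * N₃ * N₄ * N₂ : ℤ) : A) := by simp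
      rw [h4, hz, h5, h5, h8, hgQ, map_mul, h6]
      push_cast
      calc (N₁ : A) ^ E * N₃ * N₄ * N₂ * (algebraMap _ A g₀) * ((N₁ : A) * z₀) ^ E =
          (N₁ : A) ^ E * N₃ * N₄ * N₂ * (N₁ : A) ^ E * (algebraMap _ A g₀ * z₀ ^ E) := by
            rw [mul_pow]; ring
        _ = _ := by rw [hbz]; ring

end Pool.Agent.TH910.Voj
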