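import Pool.Agent.TH910.Voj.Line
import Pool.Agent.TH910.Voj.Model

set_option autoImplicit false

/-!
Elimination: if the irreducible form `F` does not divide `G`, the ideal `(F, G)` contains a non-zero
polynomial which is constant in a direction `a` with `F(a) ≠ 0`.
-/

namespace Pool.Agent.TH910.Voj

open MvPolynomial

lemma exists_int_mul_eq_toQ {n : ℕ} (q : MvPolynomial (Fin n) ℚ) :
    ∃ N : ℤ, N ≠ 0 ∧ ∃ p : MvPolynomial (Fin n) ℤ, toQ p = C (N : ℚ) * q := by
  let _ : Algebra (MvPolynomial (Fin n) ℤ) (MvPolynomial (Fin n) ℚ) := algebraMvPolynomial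
  have hloc : IsLocalization ((nonZeroDivisors ℤ).map (C (σ := Fin n)))
    (MvPolynomial (Fin n) ℚ) := MvPolynomial.isLocalization (nonZeroDivisors ℤ) ℚ
  obtain ⟨⟨g₁, ⟨m, hm⟩⟩, hgm⟩ := IsLocalization.surj
    ((nonZeroDivisors ℤ).map (C (σ := Fin n))) q
  obtain ⟨N, hN, rfl⟩ := Submonoid.mem_map.mp hm
  refine ⟨N, nonZeroDivisors.ne_zero hN, g₁, ?_⟩
  have h1 : toQ g₁ = q * toQ (C N) := hgm.symm
  rw [h1, mul_comm]
  simp

lemma toQ_injective {n : ℕ} : Function.Injective (toQ (n := n)) :=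
  MvPolynomial.map_injective _ Int.cast_injective

/-- the linear forms which vanish at `a` -/
noncomputable def lin {n : ℕ} (a : Fin n → ℤ) (i₀ i : Fin n) : MvPolynomial (Fin n) ℤ :=
  C (a i₀) * X i - C (a i) * X i₀

lemma toQ_lin {n : ℕ} (a : Fin n → ℤ) (i₀ i : Fin n) :
    toQ (lin a i₀ i) = C (a i₀ : ℚ) * X i - C (a i : ℚ) * X i₀ := by
  unfold lin
  rw [map_sub, map_mul, map_mul, MvPolynomial.map_C, MvPolynomial.map_C, MvPolynomial.map_X,
    MvPolynomial.map_X]
  rfl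

lemma aeval_scale {n : ℕ} {R : Type*} [CommRing R] (F : MvPolynomial (Fin n) ℤ) {k : ℕ}
    (hk : F.IsHomogeneous k) (c : R) (g : Fin n → R) :
    aeval (fun i => c * g i) F = c ^ k * aeval g F := by
  rw [MvPolynomial.aeval_def, MvPolynomial.aeval_def, MvPolynomial.eval₂_eq,
    MvPolynomial.eval₂_eq, Finset.mul_sum]
  refine Finset.sum_congr rfl fun d hd => ?_
  have hdk : ∑ i ∈ d.support, d i = k := by
    have := hk (MvPolynomial.mem_support_iff.mp hd)
    rw [Finsupp.weight_apply] at this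
    simpa [Finsupp.sum] using this
  have h13 : ∏ i ∈ d.support, (c * g i) ^ d i = c ^ k * ∏ i ∈ d.support, g i ^ d i := by
    rw [← hdk, ← Finset.prod_pow_eq_pow_sum, ← Finset.prod_mul_distrib]
    exact Finset.prod_congr rfl fun i _ => mul_pow _ _ _
  rw [h13, mul_left_comm]

lemma hom_toQ {n : ℕ} {S : Type*} [CommRing S] (f : MvPolynomial (Fin n) ℚ →+* S)
    (F : MvPolynomial (Fin n) ℤ) : aeval (fun i => f (X i)) F = f (toQ F) := by
  have h : ((aeval (fun i => f (X i)) : MvPolynomial (Fin n) ℤ →ₐ[ℤ] S) :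
      MvPolynomial (Fin n) ℤ →+* S) = f.comp toQ := by
    refine MvPolynomial.ringHom_ext' (RingHom.ext_int _ _) fun i => ?_
    simp
  exact congrArg (fun g : MvPolynomial (Fin n) ℤ →+* S => g F) h

theorem elimination {n : ℕ} (F G : MvPolynomial (Fin n) ℤ) {k : ℕ} (hk : F.IsHomogeneous k)
    (hF : Irreducible (toQ F)) (hG : ¬ toQ F ∣ toQ G) (a : Fin n → ℤ) (i₀ : Fin n)
    (hFa : eval a F ≠ 0) (ha : a i₀ ≠ 0) :
    ∃ r U V : MvPolynomial (Fin n) ℤ,
      bind₁ (lin a i₀) r = U * F + V * G ∧ bind₁ (lin a i₀) r ≠ 0 := by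
  classical
  set ℓ : Fin n → MvPolynomial (Fin n) ℚ := fun i => toQ (lin a i₀ i) with hℓ
  set S : Subalgebra ℚ (MvPolynomial (Fin n) ℚ) := (aeval ℓ).range with hS
  have hℓS : ∀ i, ℓ i ∈ S := fun i => ⟨X i, by simp⟩
  set I : Ideal (MvPolynomial (Fin n) ℚ) := Ideal.span {toQ F} with hI
  have hFprime : Prime (toQ F) := hF.prime
  have hIp : I.IsPrime := (Ideal.span_singleton_prime hFprime.ne_zero).mpr hFprime
  set Q := MvPolynomial (Fin n) ℚ ⧸ I with hQ
  have hdom : IsDomain Q := Ideal.Quotient.isDomain I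
  set mk : MvPolynomial (Fin n) ℚ →+* Q := Ideal.Quotient.mk I with hmk
  have halg : ∀ s : S, algebraMap S Q s = mk (s : MvPolynomial (Fin n) ℚ) := fun s => rfl
  have hconst : ∀ c : ℚ, IsIntegral S (mk (C c)) := by
    intro c
    have : mk (C c) = algebraMap S Q (algebraMap ℚ S c) := rfl
    rw [this]
    exact isIntegral_algebraMap
  have hlin : ∀ i, IsIntegral S (mk (ℓ i)) := by
    intro i
    have : mk (ℓ i) = algebraMap S Q ⟨ℓ i, hℓS i⟩ := rfl
    rw [this]
    exact isIntegral_algebraMap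
  -- the coordinate `i₀`
  have hx0 : IsIntegral S (mk (X i₀)) := by
    set P : Polynomial S := onLine F (fun i => (⟨ℓ i, hℓS i⟩ : S)) (fun i => ((a i : ℤ) : S))
      with hP
    obtain ⟨hP1, hP2⟩ := onLine_spec F hk (fun i => (⟨ℓ i, hℓS i⟩ : S))
      (fun i => ((a i : ℤ) : S))
    have hP3 : P.coeff k = ((eval a F : ℤ) : S) := by
      rw [hP, hP2]
      have h1 := MvPolynomial.map_aeval (R := ℤ) (S₁ := ℤ) (B := S) a (Int.castRingHom S) F
      have h2 : (Int.castRingHom S).comp (algebraMap ℤ ℤ) = algebraMap ℤ S := RingHom.ext_int _ _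
      rw [h2] at h1
      rw [MvPolynomial.aeval_def]
      have h3 : aeval a F = eval a F := rfl
      rw [h3] at h1
      exact h1.symm
    set e : ℚ := ((eval a F : ℤ) : ℚ) with he
    have he0 : e ≠ 0 := by rw [he]; exact_mod_cast hFa
    refine ⟨Polynomial.C (algebraMap ℚ S e⁻¹) * P, ?_, ?_⟩
    · refine Polynomial.monic_of_natDegree_le_of_coeff_eq_one k ?_ ?_
      · exact (Polynomial.natDegree_C_mul_le _ _).trans hP1
      · rw [Polynomial.coeff_C_mul, hP3]
        have h4 : ((eval a F : ℤ) : S) = algebraMap ℚ S e := by rw [he]; simp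
        rw [h4, ← map_mul, inv_mul_cancel₀ he0, map_one]
    · rw [Polynomial.eval₂_mul]
      have h5 : Polynomial.eval₂ (algebraMap S Q) (mk (X i₀)) P = 0 := by
        rw [← Polynomial.eval_map, hP, map_onLine, eval_onLine]
        have h6 : (fun i => algebraMap S Q (⟨ℓ i, hℓS i⟩ : S) +
            mk (X i₀) * algebraMap S Q ((a i : ℤ) : S)) =
            fun i => mk (C (a i₀ : ℚ) * X i) := by
          funext i
          have h7 : algebraMap S Q (⟨ℓ i, hℓS i⟩ : S) = mk (ℓ i) := rfl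
          have h8 : algebraMap S Q ((a i : ℤ) : S) = mk (C (a i : ℚ)) := by
            rw [map_intCast]; simp
          rw [h7, h8, ← map_mul, ← map_add, hℓ]
          simp only [toQ_lin]
          congr 1
          ring
        have h14 : mk (toQ F) = 0 := by
          rw [hmk, Ideal.Quotient.eq_zero_iff_mem]
          exact Ideal.mem_span_singleton_self _
        rw [h6]
        simp only [map_mul mk]
        rw [aeval_scale F hk, hom_toQ mk, h14, mul_zero]
      rw [h5, mul_zero]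
  have hai : (a i₀ : ℚ) ≠ 0 := by exact_mod_cast ha
  have hX : ∀ i, IsIntegral S (mk (X i)) := by
    intro i
    have h1 : mk (X i) = mk (C ((a i₀ : ℚ)⁻¹)) * (mk (ℓ i) + mk (C (a i : ℚ)) * mk (X i₀)) := by
      rw [← map_mul, ← map_add, ← map_mul, hℓ]
      simp only [toQ_lin]
      congr 1
      have h2 : (C ((a i₀ : ℚ)⁻¹) * C (a i₀ : ℚ) : MvPolynomial (Fin n) ℚ) = 1 := by
        rw [← C_mul, inv_mul_cancel₀ hai, C_1]
      calc (X i : MvPolynomial (Fin n) ℚ) = (C ((a i₀ : ℚ)⁻¹) * C (a i₀ : ℚ)) * X i := by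
            rw [h2, one_mul]
        _ = _ := by ring
    rw [h1]
    exact (hconst _).mul ((hlin i).add ((hconst _).mul hx0))
  have hall : ∀ q, IsIntegral S (mk q) := by
    intro q
    induction q using MvPolynomial.induction_on with
    | C c => exact hconst c
    | add p q hp hq => rw [map_add]; exact hp.add hq
    | mul_X p i hp => rw [map_mul]; exact hp.mul (hX i)
  have hG0 : mk (toQ G) ≠ 0 := by
    rw [hmk, Ne, Ideal.Quotient.eq_zero_iff_mem, hI, Ideal.mem_span_singleton]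
    exact hG
  have hcomap := Ideal.comap_ne_bot_of_integral_mem (R := S) (I := Ideal.span {mk (toQ G)})
    hG0 (Ideal.mem_span_singleton_self _) (hall _)
  obtain ⟨s, hs, hs0⟩ := Submodule.exists_mem_ne_zero_of_ne_bot hcomap
  rw [Ideal.mem_comap, halg, Ideal.mem_span_singleton'] at hs
  obtain ⟨c', hc'⟩ := hs
  obtain ⟨c, rfl⟩ := Ideal.Quotient.mk_surjective c'
  have h15 : (s : MvPolynomial (Fin n) ℚ) - c * toQ G ∈ I := by
    rw [← Ideal.Quotient.eq_zero_iff_mem]
    rw [map_sub, map_mul]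
    exact sub_eq_zero.mpr hc'.symm
  obtain ⟨e, he⟩ := Ideal.mem_span_singleton'.mp h15
  obtain ⟨r₀, hr₀⟩ : ∃ r₀, aeval ℓ r₀ = (s : MvPolynomial (Fin n) ℚ) := s.2
  obtain ⟨N₁, hN₁, r, hr⟩ := exists_int_mul_eq_toQ r₀
  obtain ⟨N₂, hN₂, U, hU⟩ := exists_int_mul_eq_toQ e
  obtain ⟨N₃, hN₃, V, hV⟩ := exists_int_mul_eq_toQ c
  have hbind : ∀ p : MvPolynomial (Fin n) ℤ, toQ (bind₁ (lin a i₀) p) = aeval ℓ (toQ p) := by
    intro p
    rw [hℓ, MvPolynomial.aeval_def]
    induction p using MvPolynomial.induction_on with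
    | C c => rw [bind₁_C_right, MvPolynomial.map_C, eval₂_C]; rfl
    | add p q hp hq => rw [map_add, map_add, map_add, hp, hq, eval₂_add]
    | mul_X p i hp => rw [map_mul, map_mul, map_mul, hp, eval₂_mul, bind₁_X_right,
        MvPolynomial.map_X, eval₂_X]
  have hkey : toQ (bind₁ (lin a i₀) (C (N₂ * N₃) * r)) =
      C ((N₁ * N₂ * N₃ : ℤ) : ℚ) * (s : MvPolynomial (Fin n) ℚ) := by
    rw [hbind, RingHom.map_mul toQ (C (N₂ * N₃)) r, hr, map_mul (aeval ℓ) (toQ (C (N₂ * N₃))) _,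
      map_mul (aeval ℓ) (C (N₁ : ℚ)) r₀, hr₀]
    have h1 : aeval ℓ (toQ (C (N₂ * N₃))) = (C ((N₂ * N₃ : ℤ) : ℚ) : MvPolynomial (Fin n) ℚ) := by
      rw [MvPolynomial.map_C]
      simp
    have h2 : aeval ℓ (C (N₁ : ℚ)) = (C (N₁ : ℚ) : MvPolynomial (Fin n) ℚ) := by simp
    rw [h1, h2, ← mul_assoc, ← C_mul]
    congr 2
    push_cast
    ring
  refine ⟨C (N₂ * N₃) * r, C (N₁ * N₃) * U, C (N₁ * N₂) * V, ?_, ?_⟩
  · apply toQ_injective
    rw [hkey, RingHom.map_add, RingHom.map_mul toQ _ F, RingHom.map_mul toQ _ G,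
      RingHom.map_mul toQ (C (N₁ * N₃)) U, RingHom.map_mul toQ (C (N₁ * N₂)) V, hU, hV]
    have h1 : toQ (C (N₁ * N₃)) = (C ((N₁ * N₃ : ℤ) : ℚ) : MvPolynomial (Fin n) ℚ) :=
      (MvPolynomial.map_C _ _).trans rfl
    have h2 : toQ (C (N₁ * N₂)) = (C ((N₁ * N₂ : ℤ) : ℚ) : MvPolynomial (Fin n) ℚ) :=
      (MvPolynomial.map_C _ _).trans rfl
    have h3 : (s : MvPolynomial (Fin n) ℚ) = e * toQ F + c * toQ G := by
      rw [he]; ring
    rw [h1, h2, h3]
    push_cast
    simp only [C_mul]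
    ring
  · intro h0
    have h1 : toQ (bind₁ (lin a i₀) (C (N₂ * N₃) * r)) = 0 := by rw [h0, map_zero]
    rw [hkey] at h1
    rcases mul_eq_zero.mp h1 with h2 | h2
    · rw [C_eq_zero] at h2
      have : (N₁ * N₂ * N₃ : ℤ) ≠ 0 := mul_ne_zero (mul_ne_zero hN₁ hN₂) hN₃
      exact this (by exact_mod_cast h2)
    · exact hs0 (Subtype.ext h2)

end Pool.Agent.TH910.Voj
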