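import Pool.Agent.TH910.Voj.Count
import Pool.Agent.H813R3.Voj.Rad

set_option autoImplicit false

/-!
Forms whose values seldom coincide have values with a large radical.
-/

namespace Pool.Agent.TH910.Voj

open MvPolynomial Pool.Agent.H813R3.Voj

/-- A form `F` of degree `k` in `n` variables has few coincidences if there are at most
`C B ^ (2 n - k + δ)` pairs of integer vectors in the box of size `B` at which it has the same
value, for every `δ > 0`. -/
def FewCoincidences {n : ℕ} (F : MvPolynomial (Fin n) ℤ) (k : ℕ) : Prop :=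
  ∀ δ : ℝ, 0 < δ → ∃ C : ℝ, ∀ B : ℕ, 1 ≤ B →
    (Set.ncard {z : (Fin n → ℤ) × (Fin n → ℤ) | (∀ i, |z.1 i| ≤ B) ∧ (∀ i, |z.2 i| ≤ B) ∧
      eval z.1 F = eval z.2 F} : ℝ) ≤ C * (B : ℝ) ^ (2 * (n : ℝ) - k + δ)

lemma rho_empty (n : ℤ) : rho ∅ n = rd n.natAbs := by
  unfold rho rd
  rw [Finset.sdiff_empty]

/-- the number of integers with a small radical -/
lemma card_small_rad {δ : ℝ} (hδ : 0 < δ) : ∃ C : ℝ, 0 < C ∧ ∀ N : ℕ, 1 ≤ N → ∀ R : ℝ, 0 ≤ R →
    (((Finset.Icc (-(N : ℤ)) N).filter fun v => v ≠ 0 ∧ (rd v.natAbs : ℝ) ≤ R).card : ℝ) ≤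
      C * R * (N : ℝ) ^ δ := by
  obtain ⟨C, hC, h⟩ := sum_inv_rho ∅ hδ
  refine ⟨2 * C, by positivity, fun N hN R hR => ?_⟩
  set V := (Finset.Icc (-(N : ℤ)) N).filter fun v => v ≠ 0 ∧ (rd v.natAbs : ℝ) ≤ R with hV
  have h1 : (((Finset.Icc 1 N).filter fun m => (rd m : ℝ) ≤ R).card : ℝ) ≤
      R * (C * (N : ℝ) ^ δ) := by
    refine le_trans ?_ (mul_le_mul_of_nonneg_left (h N hN) hR)
    rw [Finset.card_eq_sum_ones, Nat.cast_sum, Finset.mul_sum, Finset.sum_filter]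
    refine Finset.sum_le_sum fun m _ => ?_
    have h2 : (0 : ℝ) < rd m := by exact_mod_cast rd_pos m
    have h3 : rho ∅ (m : ℤ) = rd m := by rw [rho_empty, Int.natAbs_natCast]
    rw [h3]
    split_ifs with h4
    · rw [mul_one_div, le_div_iff₀ h2]
      simpa using h4
    · positivity
  have h5 : V.card ≤ 2 * ((Finset.Icc 1 N).filter fun m => (rd m : ℝ) ≤ R).card := by
    classical
    refine Finset.card_le_mul_card_image_of_maps_to (f := Int.natAbs) ?_ 2 ?_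
    · intro v hv
      rw [hV, Finset.mem_filter, Finset.mem_Icc] at hv
      rw [Finset.mem_filter, Finset.mem_Icc]
      refine ⟨?_, hv.2.2⟩
      have := hv.2.1
      omega
    · intro m _
      have h6 : (V.filter fun v => v.natAbs = m) ⊆ {(m : ℤ), -(m : ℤ)} := by
        intro v hv
        rw [Finset.mem_filter] at hv
        rw [Finset.mem_insert, Finset.mem_singleton]
        omega
      exact (Finset.card_le_card h6).trans Finset.card_le_two
  have h7 : (V.card : ℝ) ≤ 2 * ((Finset.Icc 1 N).filter fun m => (rd m : ℝ) ≤ R).card := by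
    exact_mod_cast h5
  calc (V.card : ℝ) ≤ 2 * (R * (C * (N : ℝ) ^ δ)) := h7.trans (by linarith)
    _ = _ := by ring

/-- The inequality of Cauchy and Schwarz -/
lemma card_sq_le {α : Type*} [DecidableEq α] (X : Finset α) (f : α → ℤ) (V : Finset ℤ)
    (hf : ∀ x ∈ X, f x ∈ V) :
    ((X.card : ℝ)) ^ 2 ≤ V.card * (((X ×ˢ X).filter fun z => f z.1 = f z.2).card : ℝ) := by
  have h1 : X.card = ∑ v ∈ V, (X.filter fun x => f x = v).card :=
    Finset.card_eq_sum_card_fiberwise hf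
  have h2 : ((X ×ˢ X).filter fun z => f z.1 = f z.2).card =
      ∑ v ∈ V, ((X.filter fun x => f x = v).card) ^ 2 := by
    have h3 : ∀ z ∈ (X ×ˢ X).filter (fun z => f z.1 = f z.2), f z.1 ∈ V := by
      intro z hz
      rw [Finset.mem_filter, Finset.mem_product] at hz
      exact hf _ hz.1.1
    rw [Finset.card_eq_sum_card_fiberwise h3]
    refine Finset.sum_congr rfl fun v _ => ?_
    rw [sq, ← Finset.card_product]
    congr 1
    ext z
    simp only [Finset.mem_filter, Finset.mem_product]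
    constructor
    · rintro ⟨⟨⟨h4, h5⟩, h6⟩, h7⟩
      exact ⟨⟨h4, h7⟩, h5, h6 ▸ h7⟩
    · rintro ⟨⟨h4, h5⟩, h6, h7⟩
      exact ⟨⟨⟨h4, h6⟩, h5.trans h7.symm⟩, h5⟩
  rw [h2, h1]
  push_cast
  exact sq_sum_le_card_mul_sum_sq

/-- **Large radical.** -/
theorem sparse_small_rad {n : ℕ} (F : MvPolynomial (Fin n) ℤ) {k : ℕ} (hk : F.totalDegree ≤ k)
    (hF : FewCoincidences F k) {θ : ℝ} (hθ : 0 < θ) :
    Sparse n (fun B x => eval x F ≠ 0 ∧ (rd (eval x F).natAbs : ℝ) ≤ (B : ℝ) ^ ((k : ℝ) - θ)) := by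
  classical
  obtain ⟨c, hc, hval⟩ := exists_eval_bound F hk
  obtain ⟨C₁, hC₁⟩ := hF (θ / 4) (by positivity)
  have hδ : 0 < θ / (4 * (k + 1 : ℝ)) := by positivity
  obtain ⟨C₂, hC₂0, hC₂⟩ := card_small_rad hδ
  set δ := θ / (4 * (k + 1 : ℝ)) with hδdef
  set C₃ : ℝ := C₂ * (c : ℝ) ^ δ * |C₁| + 1 with hC₃
  have hC₃0 : 0 < C₃ := by positivity
  refine ⟨θ / 4, by positivity, Real.sqrt C₃, Real.sqrt_pos.mpr hC₃0, fun B hB => ?_⟩
  have hB1 : (1 : ℝ) ≤ B := by exact_mod_cast hB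
  have hB0 : (0 : ℝ) < B := by linarith
  set X := (box n B).filter fun x => eval x F ≠ 0 ∧
    (rd (eval x F).natAbs : ℝ) ≤ (B : ℝ) ^ ((k : ℝ) - θ) with hX
  set N := c * B ^ k with hN
  have hN1 : 1 ≤ N := Nat.one_le_iff_ne_zero.mpr (Nat.mul_ne_zero (by omega)
    (pow_ne_zero _ (by omega)))
  set V := (Finset.Icc (-(N : ℤ)) N).filter fun v => v ≠ 0 ∧
    (rd v.natAbs : ℝ) ≤ (B : ℝ) ^ ((k : ℝ) - θ) with hV
  have hXV : ∀ x ∈ X, eval x F ∈ V := by
    intro x hx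
    rw [hX, Finset.mem_filter] at hx
    rw [hV, Finset.mem_filter, Finset.mem_Icc]
    have := hval B hB x hx.1
    exact ⟨by omega, hx.2⟩
  have h1 := card_sq_le X (fun x => eval x F) V hXV
  have h2 : (((X ×ˢ X).filter fun z => eval z.1 F = eval z.2 F).card : ℝ) ≤
      |C₁| * (B : ℝ) ^ (2 * (n : ℝ) - k + θ / 4) := by
    have h3 := hC₁ B hB
    have h4 : (((X ×ˢ X).filter fun z => eval z.1 F = eval z.2 F).card : ℝ) ≤
        (Set.ncard {z : (Fin n → ℤ) × (Fin n → ℤ) | (∀ i, |z.1 i| ≤ B) ∧ (∀ i, |z.2 i| ≤ B) ∧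
          eval z.1 F = eval z.2 F} : ℝ) := by
      rw [← Set.ncard_coe_finset]
      have hfin : {z : (Fin n → ℤ) × (Fin n → ℤ) | (∀ i, |z.1 i| ≤ B) ∧ (∀ i, |z.2 i| ≤ B) ∧
          eval z.1 F = eval z.2 F}.Finite := by
        refine ((box n B ×ˢ box n B).finite_toSet).subset ?_
        rintro z ⟨hz1, hz2, -⟩
        rw [Finset.coe_product]
        exact ⟨mem_box.mpr hz1, mem_box.mpr hz2⟩
      have hsub : (((X ×ˢ X).filter fun z => eval z.1 F = eval z.2 F : Finset _) : Set _) ⊆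
          {z : (Fin n → ℤ) × (Fin n → ℤ) | (∀ i, |z.1 i| ≤ B) ∧ (∀ i, |z.2 i| ≤ B) ∧
            eval z.1 F = eval z.2 F} := by
        intro z hz
        rw [Finset.mem_coe, Finset.mem_filter, Finset.mem_product, hX, Finset.mem_filter,
          Finset.mem_filter] at hz
        exact ⟨mem_box.mp hz.1.1.1, mem_box.mp hz.1.2.1, hz.2⟩
      exact_mod_cast Set.ncard_le_ncard hsub hfin
    refine h4.trans (h3.trans ?_)
    exact mul_le_mul_of_nonneg_right (le_abs_self _) (by positivity)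
  have h5 : (V.card : ℝ) ≤ C₂ * (B : ℝ) ^ ((k : ℝ) - θ) * (N : ℝ) ^ δ :=
    hC₂ N hN1 _ (by positivity)
  have h6 : (N : ℝ) ^ δ ≤ (c : ℝ) ^ δ * (B : ℝ) ^ (θ / 4) := by
    rw [hN]
    push_cast
    rw [Real.mul_rpow (by positivity) (by positivity)]
    refine mul_le_mul_of_nonneg_left ?_ (by positivity)
    rw [← Real.rpow_natCast, ← Real.rpow_mul hB0.le]
    refine Real.rpow_le_rpow_of_exponent_le hB1 ?_
    rw [hδdef]
    have hk1 : (0 : ℝ) < k + 1 := by positivity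
    rw [mul_div_assoc', div_le_div_iff₀ (by positivity) (by norm_num)]
    have : (0 : ℝ) ≤ θ * 4 := by positivity
    nlinarith
  have h7 : (X.card : ℝ) ^ 2 ≤ C₃ * ((B : ℝ) ^ ((n : ℝ) - θ / 4)) ^ 2 := by
    calc (X.card : ℝ) ^ 2 ≤ V.card * (((X ×ˢ X).filter fun z => eval z.1 F = eval z.2 F).card : ℝ) :=
          h1
      _ ≤ (C₂ * (B : ℝ) ^ ((k : ℝ) - θ) * ((c : ℝ) ^ δ * (B : ℝ) ^ (θ / 4))) *
          (|C₁| * (B : ℝ) ^ (2 * (n : ℝ) - k + θ / 4)) := by
          refine mul_le_mul (h5.trans (mul_le_mul_of_nonneg_left h6 (by positivity))) h2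
            (by positivity) (by positivity)
      _ = (C₂ * (c : ℝ) ^ δ * |C₁|) * ((B : ℝ) ^ ((k : ℝ) - θ) * (B : ℝ) ^ (θ / 4) *
          (B : ℝ) ^ (2 * (n : ℝ) - k + θ / 4)) := by ring
      _ = (C₂ * (c : ℝ) ^ δ * |C₁|) * ((B : ℝ) ^ ((n : ℝ) - θ / 4)) ^ 2 := by
          congr 1
          rw [← Real.rpow_add hB0, ← Real.rpow_add hB0, ← Real.rpow_natCast,
            ← Real.rpow_mul hB0.le]
          congr 1
          push_cast
          ring
      _ ≤ _ := by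
          refine mul_le_mul_of_nonneg_right ?_ (by positivity)
          rw [hC₃]; linarith
  have h8 : Set.ncard {x | x ∈ box n B ∧ (eval x F ≠ 0 ∧
      (rd (eval x F).natAbs : ℝ) ≤ (B : ℝ) ^ ((k : ℝ) - θ))} = X.card := by
    rw [← Set.ncard_coe_finset]
    congr 1
    ext x; simp [hX]
  rw [h8]
  have h9 := Real.sqrt_le_sqrt h7
  rwa [Real.sqrt_sq (by positivity), Real.sqrt_mul hC₃0.le, Real.sqrt_sq (by positivity)] at h9

end Pool.Agent.TH910.Voj
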