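import Mathlib

set_option autoImplicit false

/-!
The number of integers in an interval at which a polynomial is divisible by a large `d`.
-/

namespace Pool.Agent.TH910.Voj

open Polynomial

lemma dvd_vandermonde (f : ℤ[X]) (k : ℕ) (hf : f.natDegree ≤ k) (t : Fin (k + 1) → ℤ) (d : ℤ)
    (h : ∀ i, d ∣ f.eval (t i)) :
    d ∣ f.coeff k * ∏ i, ∏ j ∈ Finset.Ioi i, (t j - t i) := by
  classical
  set p : Fin (k + 1) → ℤ[X] := fun i => if i = Fin.last k then f else X ^ (i : ℕ) with hp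
  have hdeg : ∀ i, (p i).natDegree ≤ i := by
    intro i
    simp only [hp]
    split_ifs with hi
    · rw [hi]; simpa using hf
    · exact natDegree_X_pow_le _
  have h1 := Matrix.eval_matrixOfPolynomials_eq_vandermonde_mul_matrixOfPolynomials t p hdeg
  have h2 := congrArg Matrix.det h1
  rw [Matrix.det_mul, Matrix.det_vandermonde] at h2
  have h3 : (Matrix.of fun (i j : Fin (k + 1)) => (p j).coeff i).det = f.coeff k := by
    rw [Matrix.det_of_isUpperTriangular]
    · rw [Fin.prod_univ_castSucc]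
      have h4 : ∀ i : Fin k, (Matrix.of fun (i j : Fin (k + 1)) => (p j).coeff i)
          i.castSucc i.castSucc = 1 := by
        intro i
        have : i.castSucc ≠ Fin.last k := (Fin.castSucc_lt_last i).ne
        simp [hp, this]
      rw [Finset.prod_congr rfl fun i _ => h4 i]
      simp [hp]
    · intro i j hij
      rw [Matrix.of_apply]
      refine coeff_eq_zero_of_natDegree_lt (lt_of_le_of_lt (hdeg j) ?_)
      exact hij
  rw [h3] at h2
  rw [mul_comm, ← h2, Matrix.det_apply]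
  refine Finset.dvd_sum fun σ _ => ?_
  rw [Units.smul_def, zsmul_eq_mul]
  refine Dvd.dvd.mul_left ?_ _
  have h5 : (Matrix.of fun (i j : Fin (k + 1)) => (p j).eval (t i)) (σ (Fin.last k)) (Fin.last k) =
      f.eval (t (σ (Fin.last k))) := by simp [hp]
  refine Dvd.dvd.trans ?_ (Finset.dvd_prod_of_mem _ (Finset.mem_univ (Fin.last k)))
  rw [h5]
  exact h _

/-- an interval of length at most `ℓ` contains at most `k` of the integers in question -/
lemma card_le_of_small_diam (f : ℤ[X]) (k : ℕ) (hf : f.natDegree ≤ k) (hc : f.coeff k ≠ 0)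
    (d : ℕ) (ℓ : ℕ) (hℓ : 1 ≤ ℓ) (hlt : (f.coeff k).natAbs * ℓ ^ ((k + 1) * (k + 1)) < d)
    (W : Finset ℤ) (hW : ∀ t ∈ W, (d : ℤ) ∣ f.eval t) (hdiam : ∀ s ∈ W, ∀ t ∈ W,
      (s - t).natAbs ≤ ℓ) : W.card ≤ k := by
  by_contra hcon
  have h1 : k + 1 ≤ W.card := by omega
  obtain ⟨W', hW'W, hW'⟩ := Finset.exists_subset_card_eq h1
  set t : Fin (k + 1) → ℤ := fun i => W'.orderEmbOfFin hW' i with ht
  have htW : ∀ i, t i ∈ W := fun i => hW'W (Finset.orderEmbOfFin_mem W' hW' i)
  have hdvd := dvd_vandermonde f k hf t d fun i => hW _ (htW i)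
  have hne : f.coeff k * ∏ i, ∏ j ∈ Finset.Ioi i, (t j - t i) ≠ 0 := by
    refine mul_ne_zero hc (Finset.prod_ne_zero_iff.mpr fun i _ =>
      Finset.prod_ne_zero_iff.mpr fun j hj => ?_)
    rw [Finset.mem_Ioi] at hj
    have : t i < t j := (W'.orderEmbOfFin hW').strictMono hj
    omega
  have h2 : d ≤ (f.coeff k * ∏ i, ∏ j ∈ Finset.Ioi i, (t j - t i)).natAbs :=
    Nat.le_of_dvd (Int.natAbs_pos.mpr hne) (Int.natCast_dvd.mp hdvd)
  have h3 : (f.coeff k * ∏ i, ∏ j ∈ Finset.Ioi i, (t j - t i)).natAbs ≤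
      (f.coeff k).natAbs * ℓ ^ ((k + 1) * (k + 1)) := by
    rw [Int.natAbs_mul]
    refine Nat.mul_le_mul_left _ ?_
    have h4 : (∏ i, ∏ j ∈ Finset.Ioi i, (t j - t i)).natAbs =
        ∏ i, ∏ j ∈ Finset.Ioi i, (t j - t i).natAbs := by
      have h5 := map_prod Int.natAbsHom (fun i => ∏ j ∈ Finset.Ioi i, (t j - t i)) Finset.univ
      refine h5.trans (Finset.prod_congr rfl fun i _ => ?_)
      exact map_prod Int.natAbsHom (fun j => (t j - t i)) (Finset.Ioi i)
    rw [h4]
    calc ∏ i, ∏ j ∈ Finset.Ioi i, (t j - t i).natAbs ≤ ∏ i : Fin (k + 1), ℓ ^ (k + 1) := by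
          refine Finset.prod_le_prod' fun i _ => ?_
          calc ∏ j ∈ Finset.Ioi i, (t j - t i).natAbs ≤ ∏ j ∈ Finset.Ioi i, ℓ :=
                Finset.prod_le_prod' fun j _ => hdiam _ (htW j) _ (htW i)
            _ = ℓ ^ (Finset.Ioi i).card := by rw [Finset.prod_const]
            _ ≤ ℓ ^ (k + 1) := by
                refine Nat.pow_le_pow_right hℓ ?_
                have := Finset.card_le_univ (Finset.Ioi i)
                rwa [Fintype.card_fin] at this
      _ = _ := by rw [Finset.prod_const, Finset.card_univ, Fintype.card_fin, ← pow_mul]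
  omega

lemma card_roots_mod_le (f : ℤ[X]) (k : ℕ) (hf : f.natDegree ≤ k) (hc : f.coeff k ≠ 0)
    (d : ℕ) (ℓ : ℕ) (hℓ : 1 ≤ ℓ) (hlt : (f.coeff k).natAbs * ℓ ^ ((k + 1) * (k + 1)) < d)
    (B : ℕ) : ((Finset.Icc (-(B : ℤ)) B).filter fun t => (d : ℤ) ∣ f.eval t).card ≤
      k * (2 * B / ℓ + 1) := by
  classical
  set W := (Finset.Icc (-(B : ℤ)) B).filter fun t => (d : ℤ) ∣ f.eval t with hW
  have hℓ0 : (0 : ℤ) < ℓ := by exact_mod_cast hℓ
  have h1 : ∀ t ∈ W, ((t + B) / ℓ) ∈ Finset.Icc (0 : ℤ) ((2 * B / ℓ : ℕ) : ℤ) := by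
    intro t ht
    rw [hW, Finset.mem_filter, Finset.mem_Icc] at ht
    rw [Finset.mem_Icc]
    refine ⟨Int.ediv_nonneg (by omega) hℓ0.le, ?_⟩
    push_cast
    exact Int.ediv_le_ediv hℓ0 (by omega)
  have h2 := Finset.card_le_mul_card_image_of_maps_to (s := W) (f := fun t : ℤ => (t + B) / ℓ) h1 k
    (by
      intro m _
      refine card_le_of_small_diam f k hf hc d ℓ hℓ hlt _ ?_ ?_
      · intro t ht
        rw [Finset.mem_filter, hW, Finset.mem_filter] at ht
        exact ht.1.2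
      · intro s hs t ht
        rw [Finset.mem_filter] at hs ht
        have hs2 := Int.emod_add_mul_ediv (s + B) ℓ
        have ht2 := Int.emod_add_mul_ediv (t + B) ℓ
        have hs3 := Int.emod_nonneg (s + B) hℓ0.ne'
        have ht3 := Int.emod_nonneg (t + B) hℓ0.ne'
        have hs4 := Int.emod_lt_of_pos (s + B) hℓ0
        have ht4 := Int.emod_lt_of_pos (t + B) hℓ0
        have hs5 := hs.2
        have ht5 := ht.2
        rw [hs5] at hs2
        rw [ht5] at ht2
        omega)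
  refine h2.trans (le_of_eq ?_)
  rw [Int.card_Icc]
  congr 1

end Pool.Agent.TH910.Voj
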