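import Pool.Agent.TH910.Voj.Elim
import Pool.Agent.TH910.Voj.Vdm
import Pool.Agent.TH910.Voj.Count
import Pool.Agent.TH910.Voj.RadCount
import Pool.Agent.H510R2.Div

set_option autoImplicit false

/-!
The values of coprime polynomials seldom have a large common factor.
-/

namespace Pool.Agent.TH910.Voj

open MvPolynomial Pool.Agent.H813R3.Voj

lemma rd_dvd (n : ℕ) : rd n ∣ n := Nat.prod_primeFactors_dvd n

lemma exists_direction {n : ℕ} (F : MvPolynomial (Fin n) ℤ) {k : ℕ} (hk : F.IsHomogeneous k)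
    (hF : Irreducible (toQ F)) : ∃ a : Fin n → ℤ, ∃ i₀, eval a F ≠ 0 ∧ a i₀ ≠ 0 := by
  have hF0 : F ≠ 0 := by
    rintro rfl
    exact hF.ne_zero (map_zero _)
  obtain ⟨a, ha⟩ : ∃ a : Fin n → ℤ, eval a F ≠ 0 := by
    by_contra hcon
    push Not at hcon
    exact hF0 (MvPolynomial.funext fun x => by rw [hcon x, map_zero])
  by_cases h : ∃ i₀, a i₀ ≠ 0
  · obtain ⟨i₀, hi₀⟩ := h
    exact ⟨a, i₀, ha, hi₀⟩
  · push Not at h
    exfalso
    have ha0 : a = 0 := funext h
    by_cases hk0 : k = 0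
    · subst hk0
      have h1 : F = C (coeff 0 F) := by
        rw [← totalDegree_eq_zero_iff_eq_C]
        exact (hk.totalDegree_le).antisymm (Nat.zero_le _) |>.trans rfl
      apply hF.not_isUnit
      rw [h1, MvPolynomial.map_C]
      refine IsUnit.map C (isUnit_iff_ne_zero.mpr ?_)
      intro h2
      rw [eq_intCast, Int.cast_eq_zero] at h2
      exact hF0 (by rw [h1, h2, C_0])
    · apply ha
      rw [ha0]
      have h2 : eval (0 : Fin n → ℤ) F = coeff 0 F := by
        rw [← constantCoeff_eq]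
        simp
      rw [h2]
      by_contra h3
      have := hk h3
      simp at this
      exact hk0 this.symm

lemma eval_lin {n : ℕ} (a : Fin n → ℤ) (i₀ : Fin n) (x : Fin n → ℤ) (r : MvPolynomial (Fin n) ℤ) :
    eval x (bind₁ (lin a i₀) r) = eval (fun i => a i₀ * x i - a i * x i₀) r := by
  have h : (eval x).comp ((bind₁ (lin a i₀) : _ →ₐ[ℤ] _) : MvPolynomial (Fin n) ℤ →+* _) =
      eval (fun i => a i₀ * x i - a i * x i₀) := by
    refine MvPolynomial.ringHom_ext' (RingHom.ext_int _ _) fun i => ?_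
    simp [lin]
  exact congrArg (fun f : MvPolynomial (Fin n) ℤ →+* ℤ => f r) h

/-- the possible values of the linear forms -/
noncomputable def ybox (n : ℕ) (i₀ : Fin (n + 1)) (M : ℕ) : Finset (Fin (n + 1) → ℤ) :=
  Fintype.piFinset fun i => if i = i₀ then {0} else Finset.Icc (-(M : ℤ)) M

lemma card_ybox (n : ℕ) (i₀ : Fin (n + 1)) (M : ℕ) : (ybox n i₀ M).card = (2 * M + 1) ^ n := by
  classical
  unfold ybox
  rw [Fintype.card_piFinset, ← Finset.mul_prod_erase Finset.univ _ (Finset.mem_univ i₀)]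
  simp only [if_true, Finset.card_singleton, one_mul]
  rw [Finset.prod_congr rfl (g := fun _ => 2 * M + 1)]
  · rw [Finset.prod_const, Finset.card_erase_of_mem (Finset.mem_univ _), Finset.card_univ,
      Fintype.card_fin, Nat.add_sub_cancel]
  · intro i hi
    rw [if_neg (Finset.ne_of_mem_erase hi), card_Icc_int]

lemma floor_bounds {X : ℝ} (hX : 1 ≤ X) : 1 ≤ ⌊X⌋₊ ∧ (⌊X⌋₊ : ℝ) ≤ X ∧ X ≤ 2 * ⌊X⌋₊ := by
  have h1 : 1 ≤ ⌊X⌋₊ := Nat.one_le_iff_ne_zero.mpr (Nat.floor_pos.mpr hX).ne'
  refine ⟨h1, Nat.floor_le (by linarith), ?_⟩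
  have h2 := Nat.lt_floor_add_one X
  have h3 : (1 : ℝ) ≤ ⌊X⌋₊ := by exact_mod_cast h1
  linarith

theorem sparse_gcd_aux {n : ℕ} (F G : MvPolynomial (Fin (n + 1)) ℤ) {k : ℕ}
    (hk : F.IsHomogeneous k) (hF : Irreducible (toQ F)) (hG : ¬ toQ F ∣ toQ G) {η : ℝ}
    (hη : 0 < η) (hη1 : η ≤ 1) :
    Sparse (n + 1) (fun B x => eval x F ≠ 0 ∧
      (B : ℝ) ^ η < rd (Int.gcd (eval x F) (eval x G))) := by
  classical
  obtain ⟨a, i₀, hFa, ha⟩ := exists_direction F hk hF
  obtain ⟨r, U, V, hrUV, hr0⟩ := elimination F G hk hF hG a i₀ hFa ha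
  -- the value of `r`
  obtain ⟨cr, hcr1, hcr⟩ := exists_eval_bound r le_rfl
  set D := r.totalDegree with hD
  set E := (k + 1) * (k + 1) with hE
  have hE0 : (0 : ℝ) < E := by rw [hE]; positivity
  have hE1 : (1 : ℝ) ≤ E := by
    have : 1 ≤ E := by rw [hE]; nlinarith
    exact_mod_cast this
  set ca : ℕ := ∑ i, (a i).natAbs + (a i₀).natAbs + 1 with hca
  have hyb : ∀ B : ℕ, ∀ x ∈ box (n + 1) B, (fun i => a i₀ * x i - a i * x i₀) ∈
      ybox n i₀ (ca * B) := by
    intro B x hx
    rw [mem_box] at hx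
    unfold ybox
    rw [Fintype.mem_piFinset]
    intro i
    split_ifs with hi
    · rw [hi]; simp
    · rw [Finset.mem_Icc, ← abs_le]
      have h1 : |a i₀ * x i - a i * x i₀| ≤ |a i₀| * B + |a i| * B := by
        refine (abs_sub _ _).trans ?_
        rw [abs_mul, abs_mul]
        exact add_le_add (mul_le_mul_of_nonneg_left (hx i) (abs_nonneg _))
          (mul_le_mul_of_nonneg_left (hx i₀) (abs_nonneg _))
      refine h1.trans ?_
      have h2 : (a i).natAbs ≤ ∑ i, (a i).natAbs :=
        Finset.single_le_sum (f := fun i => (a i).natAbs) (fun _ _ => Nat.zero_le _)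
          (Finset.mem_univ i)
      have h3 : |a i₀| + |a i| ≤ (ca : ℤ) := by
        rw [Int.abs_eq_natAbs, Int.abs_eq_natAbs, hca]
        push_cast
        have : ((a i).natAbs : ℤ) ≤ ∑ i, ((a i).natAbs : ℤ) := by exact_mod_cast h2
        push_cast at this
        linarith
      push_cast
      nlinarith [Int.natCast_nonneg B]
  set δ : ℝ := η / (4 * E * (D + 1)) with hδ
  have hδ0 : 0 < δ := by positivity
  obtain ⟨Cd, hCd0, hCd⟩ := H510R2.divisor_bound δ hδ0
  -- exponents
  set e : ℝ := η / (4 * E) with he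
  have he0 : 0 < e := by positivity
  have hcase := (sparse_zeros (bind₁ (lin a i₀) r) hr0)
  obtain ⟨B₀, hB₀⟩ : ∃ B₀ : ℕ, ∀ B : ℕ, B₀ ≤ B → ((eval a F).natAbs : ℝ) ≤ (B : ℝ) ^ (η / 2) := by
    have h1 : Filter.Tendsto (fun B : ℕ => (B : ℝ) ^ (η / 2)) Filter.atTop Filter.atTop :=
      (tendsto_rpow_atTop (by positivity)).comp tendsto_natCast_atTop_atTop
    exact Filter.eventually_atTop.mp (h1.eventually_ge_atTop ((eval a F).natAbs : ℝ))
  set Q : ℕ → (Fin (n + 1) → ℤ) → Prop := fun B x => B₀ ≤ B ∧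
    (eval x F ≠ 0 ∧ (B : ℝ) ^ η < rd (Int.gcd (eval x F) (eval x G))) ∧
    eval x (bind₁ (lin a i₀) r) ≠ 0 with hQ
  have hmain : Sparse (n + 1) Q := by
    refine ⟨e, he0, (5 * k + 1) * ((3 * ca : ℝ) ^ n * (Cd * ((cr * (ca : ℝ) ^ D) ^ δ))),
      by positivity, fun B hB => ?_⟩
    by_cases hBB : B₀ ≤ B
    swap
    · have h1 : {x | x ∈ box (n + 1) B ∧ Q B x} = ∅ := by
        ext x
        simp only [Set.mem_ofPred_eq, Set.mem_empty_iff_false, iff_false, not_and, hQ]
        intro _ h2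
        exact absurd h2 hBB
      rw [h1, Set.ncard_empty, Nat.cast_zero]
      positivity
    have hB1 : (1 : ℝ) ≤ B := by exact_mod_cast hB
    have hBpos : (0 : ℝ) < B := by linarith
    set L : ℝ := (B : ℝ) ^ (η / (2 * E)) with hL
    have hL1 : 1 ≤ L := Real.one_le_rpow hB1 (by positivity)
    obtain ⟨hℓ1, hℓ2, hℓ3⟩ := floor_bounds hL1
    set ℓ := ⌊L⌋₊ with hℓ
    set X := (box (n + 1) B).filter (fun x => Q B x) with hX
    set Y := (ybox n i₀ (ca * B)).filter (fun y => eval y r ≠ 0) with hY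
    set T : Finset ((_ : Fin (n + 1) → ℤ) × ℕ) := Y.sigma (fun y => (eval y r).natAbs.divisors)
      with hT
    have hlt : ∀ d : ℕ, (B : ℝ) ^ η < d →
        ((onLine F (0 : Fin (n + 1) → ℤ) a).coeff k).natAbs * ℓ ^ E < d := by
      intro d hd
      have h1 := (onLine_spec F hk (0 : Fin (n + 1) → ℤ) a).2
      have h2 : aeval a F = eval a F := rfl
      rw [h1, h2]
      have h3 : (((eval a F).natAbs * ℓ ^ E : ℕ) : ℝ) ≤ (B : ℝ) ^ η := by
        push_cast
        have h4 : (ℓ : ℝ) ^ E ≤ (B : ℝ) ^ (η / 2) := by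
          calc (ℓ : ℝ) ^ E ≤ L ^ E := pow_le_pow_left₀ (by positivity) hℓ2 _
            _ = (B : ℝ) ^ (η / 2) := by
                rw [hL, ← Real.rpow_natCast, ← Real.rpow_mul hBpos.le]
                congr 1
                field_simp
        have h5 : (B : ℝ) ^ η = (B : ℝ) ^ (η / 2) * (B : ℝ) ^ (η / 2) := by
          rw [← Real.rpow_add hBpos]; congr 1; ring
        rw [h5]
        have h6 := hB₀ B hBB
        exact mul_le_mul h6 h4 (by positivity) (by positivity)
      exact_mod_cast lt_of_le_of_lt h3 hd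
    have hmaps : ∀ x ∈ X, (⟨fun i => a i₀ * x i - a i * x i₀,
        rd (Int.gcd (eval x F) (eval x G))⟩ : (_ : Fin (n + 1) → ℤ) × ℕ) ∈ T := by
      intro x hx
      rw [hX, Finset.mem_filter] at hx
      obtain ⟨hxb, -, -, hne⟩ := hx
      rw [eval_lin] at hne
      rw [hT, Finset.mem_sigma]
      refine ⟨by rw [hY, Finset.mem_filter]; exact ⟨hyb B x hxb, hne⟩, ?_⟩
      rw [Nat.mem_divisors]
      refine ⟨?_, Int.natAbs_ne_zero.mpr hne⟩
      rw [← Int.natCast_dvd, ← eval_lin, hrUV, map_add, map_mul, map_mul]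
      have h1 : ((rd (Int.gcd (eval x F) (eval x G)) : ℕ) : ℤ) ∣
          (Int.gcd (eval x F) (eval x G) : ℕ) := by exact_mod_cast rd_dvd _
      refine dvd_add ?_ ?_
      · exact (h1.trans (Int.gcd_dvd_left _ _)).mul_left _
      · exact (h1.trans (Int.gcd_dvd_right _ _)).mul_left _
    have hcard := Finset.card_le_mul_card_image_of_maps_to hmaps (k * (2 * B / ℓ + 1)) (by
      rintro ⟨y, d⟩ hyd
      by_cases hdB : (B : ℝ) ^ η < d
      swap
      · rw [Finset.card_eq_zero.mpr]
        · exact Nat.zero_le _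
        · rw [Finset.filter_eq_empty_iff]
          intro x hx heq
          rw [hX, Finset.mem_filter] at hx
          have h1 : rd (Int.gcd (eval x F) (eval x G)) = d := by
            have := congrArg Sigma.snd heq
            exact this
          exact hdB (h1 ▸ hx.2.2.1.2)
      have hdeg := (onLine_spec F hk y a)
      have hdeg0 := (onLine_spec F hk (0 : Fin (n + 1) → ℤ) a)
      have hcoeff : (onLine F y a).coeff k = (onLine F (0 : Fin (n + 1) → ℤ) a).coeff k := by
        rw [hdeg.2, hdeg0.2]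
      have hne : (onLine F y a).coeff k ≠ 0 := by
        rw [hdeg.2]; exact hFa
      refine le_trans ?_ (card_roots_mod_le (onLine F y a) k hdeg.1 hne d ℓ hℓ1
        (by rw [hcoeff]; exact hlt d hdB) B)
      refine Finset.card_le_card_of_injOn (fun x => x i₀) ?_ ?_
      · intro x hx
        rw [Finset.mem_coe, Finset.mem_filter] at hx
        obtain ⟨hxX, heq⟩ := hx
        rw [hX, Finset.mem_filter] at hxX
        have hy : (fun i => a i₀ * x i - a i * x i₀) = y := by
          have := congrArg Sigma.fst heq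
          exact this
        have hd : rd (Int.gcd (eval x F) (eval x G)) = d := by
          have := congrArg Sigma.snd heq
          exact this
        rw [Finset.mem_coe, Finset.mem_filter, Finset.mem_Icc, ← abs_le]
        refine ⟨mem_box.mp hxX.1 i₀, ?_⟩
        rw [eval_onLine]
        have h1 : (fun i => y i + x i₀ * a i) = fun i => a i₀ * x i := by
          funext i
          rw [← hy]; ring
        rw [h1, aeval_scale F hk]
        have h2 : aeval x F = eval x F := rfl
        rw [h2]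
        refine Dvd.dvd.mul_left ?_ _
        rw [← hd]
        have h3 : ((rd (Int.gcd (eval x F) (eval x G)) : ℕ) : ℤ) ∣
          (Int.gcd (eval x F) (eval x G) : ℕ) := by exact_mod_cast rd_dvd _
        exact h3.trans (Int.gcd_dvd_left _ _)
      · intro x hx x' hx' hxx'
        rw [Finset.mem_coe, Finset.mem_filter] at hx hx'
        have hy : (fun i => a i₀ * x i - a i * x i₀) = y := by
          have := congrArg Sigma.fst hx.2
          exact this
        have hy' : (fun i => a i₀ * x' i - a i * x' i₀) = y := by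
          have := congrArg Sigma.fst hx'.2
          exact this
        funext i
        have h1 := congrFun (hy.trans hy'.symm) i
        simp only at h1 hxx'
        rw [hxx'] at h1
        have h2 : a i₀ * x i = a i₀ * x' i := by linarith
        exact mul_left_cancel₀ ha h2)
    have hXcard : (Set.ncard {x | x ∈ box (n + 1) B ∧ Q B x} : ℝ) = X.card := by
      rw [← Set.ncard_coe_finset]
      congr 2
      ext x; simp [hX]
    rw [hXcard]
    have h1 : (X.card : ℝ) ≤ (k * (2 * B / ℓ + 1) : ℕ) * T.card := by exact_mod_cast hcard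
    refine h1.trans ?_
    have hBe : (1 : ℝ) ≤ (B : ℝ) ^ (1 - 2 * e) := by
      refine Real.one_le_rpow hB1 ?_
      rw [he]
      have : 2 * (η / (4 * E)) ≤ 1 := by
        rw [← mul_div_assoc, div_le_one (by positivity)]
        nlinarith
      linarith
    have h2 : ((k * (2 * B / ℓ + 1) : ℕ) : ℝ) ≤ (5 * k + 1) * (B : ℝ) ^ (1 - 2 * e) := by
      push_cast
      have h3 : ((2 * B / ℓ : ℕ) : ℝ) ≤ 4 * (B : ℝ) ^ (1 - 2 * e) := by
        refine (Nat.cast_div_le).trans ?_
        push_cast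
        have hℓ0 : (0 : ℝ) < ℓ := by exact_mod_cast hℓ1
        rw [div_le_iff₀ hℓ0]
        have h4 : (B : ℝ) = (B : ℝ) ^ (1 - 2 * e) * L := by
          rw [hL, ← Real.rpow_add hBpos, he]
          have : 1 - 2 * (η / (4 * E)) + η / (2 * E) = 1 := by
            field_simp
            ring
          rw [this, Real.rpow_one]
        calc 2 * (B : ℝ) = 2 * ((B : ℝ) ^ (1 - 2 * e) * L) := by rw [← h4]
          _ ≤ 2 * ((B : ℝ) ^ (1 - 2 * e) * (2 * ℓ)) := by gcongr
          _ = _ := by ring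
      push_cast at h3
      have hk0 : (0 : ℝ) ≤ k := Nat.cast_nonneg k
      nlinarith
    have h5 : (T.card : ℝ) ≤ (3 * ca : ℝ) ^ n * (Cd * ((cr * (ca : ℝ) ^ D) ^ δ)) *
        (B : ℝ) ^ ((n : ℝ) + e) := by
      rw [hT, Finset.card_sigma]
      push_cast
      have hca1 : 1 ≤ ca := by rw [hca]; omega
      have h6 : ∀ y ∈ Y, ((eval y r).natAbs.divisors.card : ℝ) ≤
          Cd * ((cr * (ca : ℝ) ^ D) ^ δ) * (B : ℝ) ^ e := by
        intro y hy
        rw [hY, Finset.mem_filter] at hy
        have hybox : y ∈ box (n + 1) (ca * B) := by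
          rw [mem_box]
          intro i
          have := hy.1
          unfold ybox at this
          rw [Fintype.mem_piFinset] at this
          have h7 := this i
          split_ifs at h7 with hi
          · rw [Finset.mem_singleton] at h7
            rw [h7, abs_zero]
            exact Int.natCast_nonneg _
          · rw [Finset.mem_Icc, ← abs_le] at h7
            exact h7
        have h8 := hcr (ca * B) (Nat.mul_pos hca1 hB) y hybox
        have h9 : 1 ≤ (eval y r).natAbs := Int.natAbs_pos.mpr hy.2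
        refine (hCd _ h9).trans ?_
        rw [mul_assoc]
        refine mul_le_mul_of_nonneg_left ?_ hCd0.le
        have h10 : ((eval y r).natAbs : ℝ) ≤ (cr * (ca : ℝ) ^ D) * (B : ℝ) ^ D := by
          have : ((eval y r).natAbs : ℝ) ≤ cr * ((ca : ℝ) * B) ^ D := by exact_mod_cast h8
          rw [mul_pow, ← mul_assoc] at this
          exact this
        calc ((eval y r).natAbs : ℝ) ^ δ ≤ ((cr * (ca : ℝ) ^ D) * (B : ℝ) ^ D) ^ δ :=
              Real.rpow_le_rpow (by positivity) h10 hδ0.le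
          _ = (cr * (ca : ℝ) ^ D) ^ δ * ((B : ℝ) ^ D) ^ δ :=
              Real.mul_rpow (by positivity) (by positivity)
          _ ≤ (cr * (ca : ℝ) ^ D) ^ δ * (B : ℝ) ^ e := by
              refine mul_le_mul_of_nonneg_left ?_ (by positivity)
              rw [← Real.rpow_natCast, ← Real.rpow_mul hBpos.le]
              refine Real.rpow_le_rpow_of_exponent_le hB1 ?_
              rw [hδ, he, ← mul_div_assoc, div_le_div_iff₀ (by positivity) (by positivity)]
              have hD0 : (0 : ℝ) ≤ D := Nat.cast_nonneg D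
              nlinarith [mul_pos hη hE0]
      refine (Finset.sum_le_sum h6).trans ?_
      rw [Finset.sum_const, nsmul_eq_mul]
      have h7 : (Y.card : ℝ) ≤ (3 * ca : ℝ) ^ n * (B : ℝ) ^ (n : ℝ) := by
        have h8 : Y.card ≤ (2 * (ca * B) + 1) ^ n := by
          rw [← card_ybox n i₀ (ca * B)]; exact Finset.card_filter_le _ _
        have h9 : (Y.card : ℝ) ≤ (2 * (ca * B) + 1 : ℝ) ^ n := by exact_mod_cast h8
        refine h9.trans ?_
        rw [Real.rpow_natCast, ← mul_pow]
        refine pow_le_pow_left₀ (by positivity) ?_ _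
        have h10 : (1 : ℝ) ≤ ca := by exact_mod_cast hca1
        nlinarith
      calc (Y.card : ℝ) * (Cd * ((cr * (ca : ℝ) ^ D) ^ δ) * (B : ℝ) ^ e) ≤
            ((3 * ca : ℝ) ^ n * (B : ℝ) ^ (n : ℝ)) *
              (Cd * ((cr * (ca : ℝ) ^ D) ^ δ) * (B : ℝ) ^ e) :=
            mul_le_mul_of_nonneg_right h7 (by positivity)
        _ = (3 * ca : ℝ) ^ n * (Cd * ((cr * (ca : ℝ) ^ D) ^ δ)) *
            ((B : ℝ) ^ (n : ℝ) * (B : ℝ) ^ e) := by ring
        _ = _ := by rw [← Real.rpow_add hBpos]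
    calc ((k * (2 * B / ℓ + 1) : ℕ) : ℝ) * T.card ≤
          ((5 * k + 1) * (B : ℝ) ^ (1 - 2 * e)) * ((3 * ca : ℝ) ^ n *
            (Cd * ((cr * (ca : ℝ) ^ D) ^ δ)) * (B : ℝ) ^ ((n : ℝ) + e)) :=
          mul_le_mul h2 h5 (by positivity) (by positivity)
      _ = (5 * k + 1) * ((3 * ca : ℝ) ^ n * (Cd * ((cr * (ca : ℝ) ^ D) ^ δ))) *
          ((B : ℝ) ^ (1 - 2 * e) * (B : ℝ) ^ ((n : ℝ) + e)) := by ring
      _ = _ := by
          rw [← Real.rpow_add hBpos]
          congr 2
          push_cast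
          ring
  refine (hcase.or hmain).of_eventually B₀ ?_
  intro B x hBB hB hx hbad
  by_cases h0 : eval x (bind₁ (lin a i₀) r) = 0
  · exact Or.inl h0
  · exact Or.inr ⟨hBB, hbad, h0⟩

theorem sparse_gcd {n : ℕ} (F G : MvPolynomial (Fin (n + 1)) ℤ) {k : ℕ}
    (hk : F.IsHomogeneous k) (hF : Irreducible (toQ F)) (hG : ¬ toQ F ∣ toQ G) {η : ℝ}
    (hη : 0 < η) :
    Sparse (n + 1) (fun B x => eval x F ≠ 0 ∧
      (B : ℝ) ^ η < rd (Int.gcd (eval x F) (eval x G))) := by
  refine (sparse_gcd_aux F G hk hF hG (lt_min hη one_pos) (min_le_right η 1)).mono ?_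
  rintro B x hB - ⟨h1, h2⟩
  refine ⟨h1, lt_of_le_of_lt ?_ h2⟩
  have hB1 : (1 : ℝ) ≤ B := by exact_mod_cast hB
  exact Real.rpow_le_rpow_of_exponent_le hB1 (min_le_left _ _)

end Pool.Agent.TH910.Voj
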