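import Pool.Agent.TH910.Voj.Quad
import Pool.Agent.TH910.Voj.Gcd

set_option autoImplicit false

/-!
Irreducible forms of degree one and two have few coincidences.
-/

namespace Pool.Agent.TH910.Voj

open MvPolynomial

lemma degree_two {n : ℕ} (d : Fin n →₀ ℕ) (hd : ∑ i ∈ d.support, d i = 2) :
    ∃ p q, d = Finsupp.single p 1 + Finsupp.single q 1 := by
  classical
  have h1 : (Finsupp.toMultiset d).card = 2 := by
    rw [Finsupp.card_toMultiset, Finsupp.sum]
    simpa using hd
  obtain ⟨p, q, hpq⟩ := Multiset.card_eq_two.mp h1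
  refine ⟨p, q, ?_⟩
  have h2 : ({p, q} : Multiset (Fin n)) = {p} + {q} := rfl
  rw [← Finsupp.toMultiset_toFinsupp d, hpq, h2, map_add, Multiset.toFinsupp_singleton,
    Multiset.toFinsupp_singleton]

lemma exists_matrix {n : ℕ} (F : MvPolynomial (Fin n) ℤ) (hF : F.IsHomogeneous 2) :
    ∃ m : Fin n → Fin n → ℤ, (∀ i j, m i j = m j i) ∧
      C 2 * F = ∑ i, ∑ j, C (m i j) * X i * X j := by
  classical
  have key : ∀ s : Finset (Fin n →₀ ℕ), (∀ d ∈ s, ∑ i ∈ d.support, d i = 2) →
      ∃ m : Fin n → Fin n → ℤ, (∀ i j, m i j = m j i) ∧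
        C 2 * (∑ d ∈ s, monomial d (coeff d F)) = ∑ i, ∑ j, C (m i j) * X i * X j := by
    intro s
    induction s using Finset.induction_on with
    | empty =>
      intro _
      exact ⟨fun _ _ => 0, fun _ _ => rfl, by simp⟩
    | insert d s hds ih =>
      intro h
      obtain ⟨m, hm1, hm2⟩ := ih fun d' hd' => h d' (Finset.mem_insert_of_mem hd')
      obtain ⟨p, q, rfl⟩ := degree_two d (h d (Finset.mem_insert_self _ _))
      set c := coeff (Finsupp.single p 1 + Finsupp.single q 1) F with hc
      refine ⟨fun i j => (if i = p then if j = q then c else 0 else 0) +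
        (if i = q then if j = p then c else 0 else 0) + m i j, ?_, ?_⟩
      · intro i j
        change (_ + _) + m i j = (_ + _) + m j i
        rw [hm1 i j]
        congr 1
        have e1 : ∀ (P Q : Prop) [Decidable P] [Decidable Q], (if P then if Q then c else 0 else 0) =
            (if Q then if P then c else 0 else 0) := by
          intro P Q _ _; split_ifs <;> rfl
        rw [e1 (i = p) (j = q), e1 (i = q) (j = p)]
        ring
      · rw [Finset.sum_insert hds, mul_add, hm2]
        have h5 : ∀ i j, (C ((if i = p then if j = q then c else 0 else 0) +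
            (if i = q then if j = p then c else 0 else 0) + m i j) * X i * X j :
            MvPolynomial (Fin n) ℤ) =
            (if i = p then if j = q then C c * X i * X j else 0 else 0) +
            (if i = q then if j = p then C c * X i * X j else 0 else 0) +
              C (m i j) * X i * X j := by
          intro i j
          rw [C_add, C_add, add_mul, add_mul, add_mul, add_mul]
          congr 1
          congr 1
          · split_ifs <;> simp
          · split_ifs <;> simp
        simp only [h5, Finset.sum_add_distrib]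
        congr 1
        have h6 : ∀ p q : Fin n, ∑ i, ∑ j, (if i = p then if j = q then
            (C c * X i * X j : MvPolynomial (Fin n) ℤ) else 0 else 0) = C c * X p * X q := by
          intro p q
          rw [Finset.sum_eq_single p, Finset.sum_eq_single q]
          · simp
          · intro j _ hj; simp [hj]
          · intro h; exact absurd (Finset.mem_univ _) h
          · intro i _ hi; simp [hi]
          · intro h; exact absurd (Finset.mem_univ _) h
        rw [h6, h6, monomial_eq]
        rw [Finsupp.prod_add_index (by simp) (by intros; exact pow_add _ _ _),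
          Finsupp.prod_single_index (by simp), Finsupp.prod_single_index (by simp)]
        have h7 : (C 2 : MvPolynomial (Fin n) ℤ) = 2 := by simp
        rw [h7]
        ring
  obtain ⟨m, hm1, hm2⟩ := key F.support (fun d hd => by
    have := hF (MvPolynomial.mem_support_iff.mp hd)
    rw [Finsupp.weight_apply] at this
    simpa [Finsupp.sum] using this)
  refine ⟨m, hm1, ?_⟩
  rw [← hm2]
  congr 1
  exact F.as_sum

/-- an irreducible quadratic form has rank at least two -/
lemma exists_minor {n : ℕ} (F : MvPolynomial (Fin n) ℤ) (hirr : Irreducible (toQ F))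
    (m : Fin n → Fin n → ℤ) (hm : C 2 * F = ∑ i, ∑ j, C (m i j) * X i * X j) :
    ∃ a b p q, m a b ≠ 0 ∧ m a b * m p q - m p b * m a q ≠ 0 := by
  classical
  obtain ⟨a, b, hab⟩ : ∃ a b, m a b ≠ 0 := by
    by_contra hcon
    push Not at hcon
    have h1 : C 2 * F = 0 := by
      rw [hm]
      exact Finset.sum_eq_zero fun i _ => Finset.sum_eq_zero fun j _ => by rw [hcon i j]; simp
    have h2 : (C 2 : MvPolynomial (Fin n) ℤ) ≠ 0 := by
      rw [Ne, C_eq_zero]; norm_num
    have h3 : F = 0 := (mul_eq_zero.mp h1).resolve_left h2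
    exact hirr.ne_zero (by rw [h3, map_zero])
  refine ⟨a, b, ?_⟩
  by_contra hcon
  push Not at hcon
  have h0 : ∀ p q, m a b * m p q = m p b * m a q := fun p q => by
    have := hcon p q hab
    linarith
  have h1 : C (m a b * 2) * F = (∑ i, C (m i b) * X i) * (∑ j, C (m a j) * X j) := by
    rw [C_mul, mul_assoc, hm, Finset.mul_sum, Finset.sum_mul]
    refine Finset.sum_congr rfl fun i _ => ?_
    rw [Finset.mul_sum, Finset.mul_sum]
    refine Finset.sum_congr rfl fun j _ => ?_
    calc C (m a b) * (C (m i j) * X i * X j) = C (m a b * m i j) * X i * X j := by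
          rw [C_mul]; ring
      _ = _ := by rw [h0 i j, C_mul]; ring
  have h2 : toQ (C (m a b * 2)) * toQ F =
      toQ (∑ i, C (m i b) * X i) * toQ (∑ j, C (m a j) * X j) := by
    rw [← RingHom.map_mul, ← RingHom.map_mul, h1]
  have hc0 : ((m a b * 2 : ℤ) : ℚ) ≠ 0 := by
    have : m a b * 2 ≠ 0 := mul_ne_zero hab (by norm_num)
    exact_mod_cast this
  have hC : toQ (C (m a b * 2)) = (C ((m a b * 2 : ℤ) : ℚ) : MvPolynomial (Fin n) ℚ) :=
    (map_C _ _).trans rfl
  rw [hC] at h2
  have h3 : toQ F = (C (((m a b * 2 : ℤ) : ℚ)⁻¹) * toQ (∑ i, C (m i b) * X i)) *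
      toQ (∑ j, C (m a j) * X j) := by
    rw [mul_assoc, ← h2, ← mul_assoc, ← C_mul, inv_mul_cancel₀ hc0, C_1, one_mul]
  have hev : ∀ c : Fin n → ℤ, eval (0 : Fin n → ℚ) (toQ (∑ i, C (c i) * X i)) = 0 := by
    intro c
    simp [map_sum]
  rcases hirr.isUnit_or_isUnit h3 with h4 | h4
  · have h5 := h4.map (eval (0 : Fin n → ℚ))
    rw [map_mul, hev, mul_zero] at h5
    exact not_isUnit_zero h5
  · have h5 := h4.map (eval (0 : Fin n → ℚ))
    rw [hev] at h5
    exact not_isUnit_zero h5

lemma few_two {n : ℕ} (F : MvPolynomial (Fin n) ℤ) (hF : F.IsHomogeneous 2)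
    (hirr : Irreducible (toQ F)) : FewCoincidences F 2 := by
  classical
  intro δ hδ
  obtain ⟨m, hm1, hm2⟩ := exists_matrix F hF
  obtain ⟨a, b, p, q, hab, hpq⟩ := exists_minor F hirr m hm2
  obtain ⟨C', hC0, hC⟩ := card_bilinear m a b p q hab hpq hδ
  refine ⟨C' * 2 ^ (2 * (n : ℝ) - 2 + δ), fun B hB => ?_⟩
  have hBpos : (0 : ℝ) < B := by exact_mod_cast hB
  have h1 := hC (2 * B) (by omega)
  have hval : ∀ x : Fin n → ℤ, 2 * eval x F = ∑ i, ∑ j, m i j * x i * x j := by
    intro x
    have := congrArg (eval x) hm2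
    simpa [map_sum] using this
  set Z := ((box n (2 * B)) ×ˢ (box n (2 * B))).filter
    fun z => ∑ i, ∑ j, m i j * z.1 i * z.2 j = 0 with hZ
  have h2 : Set.ncard {z : (Fin n → ℤ) × (Fin n → ℤ) | (∀ i, |z.1 i| ≤ B) ∧ (∀ i, |z.2 i| ≤ B) ∧
      eval z.1 F = eval z.2 F} ≤ Z.card := by
    rw [← Set.ncard_coe_finset]
    refine Set.ncard_le_ncard_of_injOn (fun z => (z.1 - z.2, z.1 + z.2)) ?_ ?_
      (Finset.finite_toSet _)
    · rintro z ⟨hz1, hz2, hz3⟩
      rw [Finset.mem_coe, hZ, Finset.mem_filter, Finset.mem_product, mem_box, mem_box]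
      refine ⟨⟨fun i => ?_, fun i => ?_⟩, ?_⟩
      · have e1 := abs_le.mp (hz1 i)
        have e2 := abs_le.mp (hz2 i)
        change |z.1 i - z.2 i| ≤ _
        rw [abs_le]
        push_cast
        constructor <;> linarith [e1.1, e1.2, e2.1, e2.2]
      · have e1 := abs_le.mp (hz1 i)
        have e2 := abs_le.mp (hz2 i)
        change |z.1 i + z.2 i| ≤ _
        rw [abs_le]
        push_cast
        constructor <;> linarith [e1.1, e1.2, e2.1, e2.2]
      · have e3 : ∑ i, ∑ j, m i j * z.1 i * z.2 j = ∑ i, ∑ j, m i j * z.2 i * z.1 j := by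
          rw [Finset.sum_comm]
          refine Finset.sum_congr rfl fun i _ => Finset.sum_congr rfl fun j _ => ?_
          rw [hm1 j i]; ring
        have e4 : ∑ i, ∑ j, m i j * (z.1 - z.2) i * (z.1 + z.2) j =
            (∑ i, ∑ j, m i j * z.1 i * z.1 j) - (∑ i, ∑ j, m i j * z.2 i * z.2 j) +
            (∑ i, ∑ j, m i j * z.1 i * z.2 j) - (∑ i, ∑ j, m i j * z.2 i * z.1 j) := by
          rw [← Finset.sum_sub_distrib, ← Finset.sum_add_distrib, ← Finset.sum_sub_distrib]
          refine Finset.sum_congr rfl fun i _ => ?_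
          rw [← Finset.sum_sub_distrib, ← Finset.sum_add_distrib, ← Finset.sum_sub_distrib]
          refine Finset.sum_congr rfl fun j _ => ?_
          rw [Pi.sub_apply, Pi.add_apply]
          ring
        rw [e4, ← hval, ← hval, hz3, e3]
        ring
    · rintro z - z' - hzz'
      have e1 := congrArg Prod.fst hzz'
      have e2 := congrArg Prod.snd hzz'
      simp only at e1 e2
      refine Prod.ext (funext fun i => ?_) (funext fun i => ?_)
      · have f1 := congrFun e1 i
        have f2 := congrFun e2 i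
        rw [Pi.sub_apply, Pi.sub_apply] at f1
        rw [Pi.add_apply, Pi.add_apply] at f2
        omega
      · have f1 := congrFun e1 i
        have f2 := congrFun e2 i
        rw [Pi.sub_apply, Pi.sub_apply] at f1
        rw [Pi.add_apply, Pi.add_apply] at f2
        omega
  refine (Nat.cast_le.mpr h2).trans (h1.trans (le_of_eq ?_))
  push_cast
  rw [Real.mul_rpow (by norm_num) hBpos.le, mul_assoc]

lemma few_one {n : ℕ} (F : MvPolynomial (Fin (n + 1)) ℤ) (hF : F.IsHomogeneous 1)
    (hirr : Irreducible (toQ F)) : FewCoincidences F 1 := by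
  classical
  intro δ hδ
  refine ⟨3 ^ (n + 1) * 3 ^ n, fun B hB => ?_⟩
  have hB1 : (1 : ℝ) ≤ B := by exact_mod_cast hB
  have hBpos : (0 : ℝ) < B := by linarith
  have hne : ∀ v : ℤ, F - C v ≠ 0 := by
    intro v hv
    have h1 : F = C v := sub_eq_zero.mp hv
    have h2 : toQ F = (C (v : ℚ) : MvPolynomial (Fin (n + 1)) ℚ) := by
      rw [h1]; exact (map_C _ _).trans rfl
    by_cases hv0 : v = 0
    · apply hirr.ne_zero
      rw [h2, hv0]; simp
    · apply hirr.not_isUnit
      rw [h2]
      exact IsUnit.map C (isUnit_iff_ne_zero.mpr (by exact_mod_cast hv0))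
  have hdeg : ∀ v : ℤ, (F - C v).totalDegree ≤ 1 := by
    intro v
    refine (totalDegree_sub _ _).trans ?_
    rw [totalDegree_C]
    exact max_le hF.totalDegree_le (Nat.zero_le _)
  set Z := ((box (n + 1) B) ×ˢ (box (n + 1) B)).filter fun z => eval z.1 F = eval z.2 F with hZ
  have hcard : Z.card ≤ (2 * B + 1) ^ n * (box (n + 1) B).card := by
    refine Finset.card_le_mul_card_image_of_maps_to (f := fun z => z.2) ?_ _ ?_
    · intro z hz
      rw [hZ, Finset.mem_filter, Finset.mem_product] at hz
      exact hz.1.2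
    · intro y hy
      have h3 := zeros_card_le (F - C (eval y F)) (hne _) B
      have h4 : (F - C (eval y F)).totalDegree * (2 * B + 1) ^ n ≤ 1 * (2 * B + 1) ^ n :=
        Nat.mul_le_mul_right _ (hdeg _)
      rw [one_mul] at h4
      refine le_trans ?_ (h3.trans h4)
      refine Finset.card_le_card_of_injOn (fun z => z.1) ?_ ?_
      · intro z hz
        rw [Finset.mem_coe, Finset.mem_filter, hZ, Finset.mem_filter, Finset.mem_product] at hz
        obtain ⟨⟨⟨hz1, hz2⟩, hz3⟩, rfl⟩ := hz
        rw [Finset.mem_coe, Finset.mem_filter]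
        refine ⟨hz1, ?_⟩
        rw [map_sub, eval_C, hz3, sub_self]
      · intro z hz z' hz' hzz'
        rw [Finset.mem_coe, Finset.mem_filter] at hz hz'
        exact Prod.ext hzz' (hz.2.trans hz'.2.symm)
  have h2 : Set.ncard {z : (Fin (n + 1) → ℤ) × (Fin (n + 1) → ℤ) | (∀ i, |z.1 i| ≤ B) ∧
      (∀ i, |z.2 i| ≤ B) ∧ eval z.1 F = eval z.2 F} = Z.card := by
    rw [← Set.ncard_coe_finset]
    congr 1
    ext z
    simp only [Set.mem_ofPred_eq, hZ, Finset.coe_filter, Finset.mem_product, mem_box]
    tauto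
  rw [h2]
  have h5 : (Z.card : ℝ) ≤ (2 * B + 1 : ℝ) ^ n * (box (n + 1) B).card := by exact_mod_cast hcard
  have h6 := card_box_le (n + 1) B hB
  have h7 : (2 * B + 1 : ℝ) ^ n ≤ 3 ^ n * (B : ℝ) ^ (n : ℝ) := by
    rw [Real.rpow_natCast, ← mul_pow]
    exact pow_le_pow_left₀ (by positivity) (by linarith) _
  calc (Z.card : ℝ) ≤ (3 ^ n * (B : ℝ) ^ (n : ℝ)) *
        (3 ^ (n + 1) * (B : ℝ) ^ ((n + 1 : ℕ) : ℝ)) :=
        h5.trans (mul_le_mul h7 h6 (by positivity) (by positivity))
    _ = 3 ^ (n + 1) * 3 ^ n * ((B : ℝ) ^ (n : ℝ) * (B : ℝ) ^ ((n + 1 : ℕ) : ℝ)) := by ring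
    _ ≤ _ := by
        rw [← Real.rpow_add hBpos]
        refine mul_le_mul_of_nonneg_left ?_ (by positivity)
        refine Real.rpow_le_rpow_of_exponent_le hB1 ?_
        push_cast
        linarith

theorem few_of_le_two {n : ℕ} (F : MvPolynomial (Fin (n + 1)) ℤ) {k : ℕ} (hk : k ≤ 2)
    (hF : F.IsHomogeneous k) (hirr : Irreducible (toQ F)) : FewCoincidences F k := by
  interval_cases k
  · exfalso
    obtain ⟨a, i₀, ha, hi₀⟩ := exists_direction F hF hirr
    have h1 : F = C (coeff 0 F) := by
      rw [← totalDegree_eq_zero_iff_eq_C]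
      exact Nat.le_zero.mp hF.totalDegree_le
    apply hirr.not_isUnit
    have hc : coeff 0 F ≠ 0 := by
      intro h0
      rw [h1, h0] at ha
      simp at ha
    rw [h1, MvPolynomial.map_C]
    refine IsUnit.map C (isUnit_iff_ne_zero.mpr ?_)
    rw [eq_intCast]
    exact_mod_cast hc
  · exact few_one F hF hirr
  · exact few_two F hF hirr

end Pool.Agent.TH910.Voj
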