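import Mathlib

set_option autoImplicit false

/-!
The restriction of a form to a line.
-/

namespace Pool.Agent.TH910.Voj

open Polynomial

/-- the restriction of `F` to the line `u + t v` -/
noncomputable def onLine {n : ℕ} {R : Type*} [CommRing R] (F : MvPolynomial (Fin n) ℤ)
    (u v : Fin n → R) : R[X] := MvPolynomial.aeval (fun i => C (u i) + C (v i) * X) F

lemma eval_onLine {n : ℕ} {R : Type*} [CommRing R] (F : MvPolynomial (Fin n) ℤ)
    (u v : Fin n → R) (t : R) :
    (onLine F u v).eval t = MvPolynomial.aeval (fun i => u i + t * v i) F := by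
  unfold onLine
  have h := MvPolynomial.map_aeval (R := ℤ) (fun i => C (u i) + C (v i) * X)
    (Polynomial.evalRingHom t) F
  rw [Polynomial.coe_evalRingHom] at h
  rw [h, MvPolynomial.aeval_def]
  have h2 : (Polynomial.evalRingHom t).comp (algebraMap ℤ R[X]) = algebraMap ℤ R :=
    RingHom.ext_int _ _
  rw [h2]
  refine congrArg (fun g => MvPolynomial.eval₂ (algebraMap ℤ R) g F) ?_
  funext i
  simp only [eval_add, eval_C, eval_mul, eval_X, mul_comm]

lemma map_onLine {n : ℕ} {R S : Type*} [CommRing R] [CommRing S] (f : R →+* S)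
    (F : MvPolynomial (Fin n) ℤ) (u v : Fin n → R) :
    (onLine F u v).map f = onLine F (fun i => f (u i)) (fun i => f (v i)) := by
  unfold onLine
  have h := MvPolynomial.map_aeval (R := ℤ) (fun i => C (u i) + C (v i) * X)
    (Polynomial.mapRingHom f) F
  rw [Polynomial.coe_mapRingHom] at h
  rw [h, MvPolynomial.aeval_def]
  have h2 : (Polynomial.mapRingHom f).comp (algebraMap ℤ R[X]) = algebraMap ℤ S[X] :=
    RingHom.ext_int _ _
  rw [h2]
  refine congrArg (fun g => MvPolynomial.eval₂ (algebraMap ℤ S[X]) g F) ?_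
  funext i
  simp only [Polynomial.map_add, Polynomial.map_mul, Polynomial.map_C, Polynomial.map_X]

lemma prod_line {n : ℕ} {R : Type*} [CommRing R] (u v : Fin n → R) (d : Fin n → ℕ)
    (s : Finset (Fin n)) :
    (∏ i ∈ s, (C (u i) + C (v i) * X : R[X]) ^ d i).natDegree ≤ ∑ i ∈ s, d i ∧
      (∏ i ∈ s, (C (u i) + C (v i) * X : R[X]) ^ d i).coeff (∑ i ∈ s, d i) =
        ∏ i ∈ s, v i ^ d i := by
  classical
  induction s using Finset.induction_on with
  | empty => simp
  | insert a s ha ih =>
    rw [Finset.prod_insert ha, Finset.sum_insert ha, Finset.prod_insert ha]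
    have h1 : (C (u a) + C (v a) * X : R[X]).natDegree ≤ 1 := by
      rw [add_comm]; exact natDegree_linear_le
    have h2 : ((C (u a) + C (v a) * X : R[X]) ^ d a).natDegree ≤ d a := by
      refine (natDegree_pow_le).trans ?_
      calc d a * (C (u a) + C (v a) * X : R[X]).natDegree ≤ d a * 1 := Nat.mul_le_mul_left _ h1
        _ = d a := mul_one _
    refine ⟨natDegree_mul_le_of_le h2 ih.1, ?_⟩
    rw [coeff_mul_add_eq_of_natDegree_le h2 ih.1, ih.2]
    congr 1
    have h3 := coeff_pow_of_natDegree_le (m := d a) h1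
    rw [mul_one] at h3
    rw [h3]
    simp

lemma onLine_spec {n : ℕ} {R : Type*} [CommRing R] (F : MvPolynomial (Fin n) ℤ) {k : ℕ}
    (hF : F.IsHomogeneous k) (u v : Fin n → R) :
    (onLine F u v).natDegree ≤ k ∧ (onLine F u v).coeff k = MvPolynomial.aeval v F := by
  have hsum : ∀ d ∈ F.support, ∑ i ∈ d.support, d i = k := by
    intro d hd
    have := hF (MvPolynomial.mem_support_iff.mp hd)
    rw [Finsupp.weight_apply] at this
    simpa [Finsupp.sum] using this
  unfold onLine
  rw [MvPolynomial.aeval_def, MvPolynomial.eval₂_eq]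
  constructor
  · refine natDegree_sum_le_of_forall_le _ _ fun d hd => ?_
    refine (natDegree_mul_le).trans ?_
    have h1 : (algebraMap ℤ R[X] (MvPolynomial.coeff d F)).natDegree = 0 := by
      rw [eq_intCast (algebraMap ℤ R[X])]; exact natDegree_intCast _
    rw [h1, zero_add]
    exact (prod_line u v d d.support).1.trans (hsum d hd).le
  · rw [finsetSum_coeff, MvPolynomial.aeval_def, MvPolynomial.eval₂_eq]
    refine Finset.sum_congr rfl fun d hd => ?_
    have h1 : algebraMap ℤ R[X] (MvPolynomial.coeff d F) =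
        C (algebraMap ℤ R (MvPolynomial.coeff d F)) := by simp
    rw [h1, coeff_C_mul, ← hsum d hd, (prod_line u v d d.support).2]

end Pool.Agent.TH910.Voj
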