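import Pool.Agent.TH910.Voj.Disc
import Pool.Agent.TH910.Voj.Few

set_option autoImplicit false

/-!
The discriminant of the points over almost all rational points.
-/

namespace Pool.Agent.TH910.Voj

open MvPolynomial NumberField Pool.Agent.H813R3.Voj

lemma rd_mul_sq_le {N : ℕ} (hN : N ≠ 0) :
    rd N * ∏ p ∈ N.primeFactors.filter (fun p => p ^ 2 ∣ N), p ≤ N := by
  classical
  refine Nat.le_of_dvd (Nat.pos_of_ne_zero hN) ?_
  have h1 : rd N * ∏ p ∈ N.primeFactors.filter (fun p => p ^ 2 ∣ N), p =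
      ∏ p ∈ N.primeFactors, p ^ (1 + if p ^ 2 ∣ N then 1 else 0) := by
    unfold rd
    rw [Finset.prod_filter, ← Finset.prod_mul_distrib]
    refine Finset.prod_congr rfl fun p _ => ?_
    split_ifs <;> ring
  rw [h1]
  conv_rhs => rw [← Nat.prod_factorization_pow_eq_self hN]
  rw [Finsupp.prod, Nat.support_factorization]
  refine Finset.prod_dvd_prod_of_dvd _ _ fun p hp => ?_
  have hpp := Nat.prime_of_mem_primeFactors hp
  refine pow_dvd_pow p ?_
  split_ifs with h2
  · exact (hpp.pow_dvd_iff_le_factorization hN).mp h2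
  · exact (hpp.pow_dvd_iff_le_factorization hN).mp (by
      rw [add_zero, pow_one]; exact Nat.dvd_of_mem_primeFactors hp)

/-- the primes which divide `a` exactly once and do not divide `b` -/
noncomputable def good (a b : ℤ) : Finset ℕ :=
  a.natAbs.primeFactors.filter fun p => ¬ p ^ 2 ∣ a.natAbs ∧ ¬ (p : ℤ) ∣ b

lemma mem_good {a b : ℤ} (ha : a ≠ 0) {p : ℕ} :
    p ∈ good a b ↔ p.Prime ∧ (p : ℤ) ∣ a ∧ ¬ (p : ℤ) ^ 2 ∣ a ∧ ¬ (p : ℤ) ∣ b := by
  unfold good
  rw [Finset.mem_filter, Nat.mem_primeFactors]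
  have h1 : a.natAbs ≠ 0 := Int.natAbs_ne_zero.mpr ha
  have h2 : (p : ℤ) ∣ a ↔ p ∣ a.natAbs := Int.natCast_dvd
  have h3 : (p : ℤ) ^ 2 ∣ a ↔ p ^ 2 ∣ a.natAbs := by rw [← Nat.cast_pow, Int.natCast_dvd]
  rw [h2, h3]
  tauto

lemma log_good {a b : ℤ} (ha : a ≠ 0) :
    2 * Real.log (rd a.natAbs) - Real.log a.natAbs - Real.log (rd (Int.gcd a b)) ≤
      ∑ p ∈ good a b, Real.log p := by
  classical
  set N := a.natAbs with hN
  have hN0 : N ≠ 0 := Int.natAbs_ne_zero.mpr ha
  have hpos : ∀ p ∈ N.primeFactors, (0 : ℝ) < p := fun p hp => by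
    exact_mod_cast (Nat.prime_of_mem_primeFactors hp).pos
  have hlog : ∀ p ∈ N.primeFactors, 0 ≤ Real.log p := fun p hp =>
    Real.log_natCast_nonneg p
  set S2 := N.primeFactors.filter (fun p => p ^ 2 ∣ N) with hS2
  set S3 := N.primeFactors.filter (fun p : ℕ => (p : ℤ) ∣ b) with hS3
  have h1 : Real.log (rd N) = ∑ p ∈ N.primeFactors, Real.log p := by
    unfold rd
    push_cast
    rw [Real.log_prod (fun p hp => (hpos p hp).ne')]
  have h2 : Real.log (rd N) + ∑ p ∈ S2, Real.log p ≤ Real.log N := by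
    have h3 : ∑ p ∈ S2, Real.log p = Real.log ((∏ p ∈ S2, p : ℕ) : ℝ) := by
      push_cast
      rw [Real.log_prod (fun p hp => (hpos p (Finset.mem_of_mem_filter p hp)).ne')]
    have h4 : (0 : ℝ) < rd N := by exact_mod_cast rd_pos N
    have h5 : (0 : ℝ) < ((∏ p ∈ S2, p : ℕ) : ℝ) := by
      push_cast
      exact Finset.prod_pos fun p hp => hpos p (Finset.mem_of_mem_filter p hp)
    rw [h3, ← Real.log_mul h4.ne' h5.ne']
    refine Real.log_le_log (by positivity) ?_
    exact_mod_cast rd_mul_sq_le hN0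
  have h6 : Real.log (rd (Int.gcd a b)) = ∑ p ∈ S3, Real.log p := by
    unfold rd
    push_cast
    rw [Real.log_prod]
    · refine Finset.sum_congr ?_ fun _ _ => rfl
      ext p
      rw [hS3, Finset.mem_filter, Nat.mem_primeFactors, Nat.mem_primeFactors, Int.natCast_dvd,
        hN]
      have h7 : Int.gcd a b ≠ 0 := fun h => ha (Int.gcd_eq_zero_iff.mp h).1
      have h8 : p ∣ Int.gcd a b ↔ p ∣ a.natAbs ∧ p ∣ b.natAbs := Nat.dvd_gcd_iff
      rw [h8]
      tauto
    · intro p hp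
      exact_mod_cast (Nat.prime_of_mem_primeFactors hp).ne_zero
  have h9 : Real.log (rd N) ≤ ∑ p ∈ good a b, Real.log p + ∑ p ∈ S2, Real.log p +
      ∑ p ∈ S3, Real.log p := by
    rw [h1]
    have h10 : N.primeFactors ⊆ (good a b ∪ S2) ∪ S3 := by
      intro p hp
      by_cases h11 : p ^ 2 ∣ N
      · exact Finset.mem_union_left _ (Finset.mem_union_right _ (Finset.mem_filter.mpr ⟨hp, h11⟩))
      · by_cases h12 : (p : ℤ) ∣ b
        · exact Finset.mem_union_right _ (Finset.mem_filter.mpr ⟨hp, h12⟩)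
        · exact Finset.mem_union_left _ (Finset.mem_union_left _
            (Finset.mem_filter.mpr ⟨hp, h11, h12⟩))
    have hnn : ∀ p : ℕ, 0 ≤ Real.log p := Real.log_natCast_nonneg
    refine (Finset.sum_le_sum_of_subset_of_nonneg h10 fun p _ _ => hnn p).trans ?_
    have h13 : ∀ s t : Finset ℕ, ∑ p ∈ s ∪ t, Real.log p ≤
        ∑ p ∈ s, Real.log p + ∑ p ∈ t, Real.log p := by
      intro s t
      rw [← Finset.sum_union_inter]
      have : 0 ≤ ∑ p ∈ s ∩ t, Real.log (p : ℝ) := Finset.sum_nonneg fun p _ => hnn p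
      linarith
    refine (h13 _ _).trans ?_
    have := h13 (good a b) S2
    linarith
  linarith

/-- All data of `K`: the logarithmic discriminant bounds the sum over the good primes. -/
lemma sum_good_le {K : Type} [Field K] [NumberField K] {q : ℕ} (a b : Fin q → ℤ) (ν : Fin q → ℕ)
    (hν : ∀ j, 1 ≤ ν j) (ha : ∀ j, a j ≠ 0) (hab : ∀ i j, i ≠ j → a i ∣ b j)
    (h : ∀ j, ∀ p ∈ good (a j) (b j), ∀ 𝔮 : Ideal (𝓞 K), 𝔮.IsPrime → (p : 𝓞 K) ∈ 𝔮 →
      (p : 𝓞 K) ∈ 𝔮 ^ ν j) :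
    ∑ j, (1 - 1 / (ν j : ℝ)) * ∑ p ∈ good (a j) (b j), Real.log p ≤
      Real.log |(NumberField.discr K : ℝ)| / Module.finrank ℚ K := by
  classical
  have hdisj : ∀ i j : Fin q, ∀ p, p ∈ good (a i) (b i) → p ∈ good (a j) (b j) → i = j := by
    intro i j p hi hj
    by_contra hne
    rw [mem_good (ha i)] at hi
    rw [mem_good (ha j)] at hj
    exact hj.2.2.2 (hi.2.1.trans (hab i j hne))
  set f : ℕ → ℕ := fun p => if h : ∃ j, p ∈ good (a j) (b j) then ν h.choose else 1 with hf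
  have hfj : ∀ j, ∀ p ∈ good (a j) (b j), f p = ν j := by
    intro j p hp
    have hex : ∃ j, p ∈ good (a j) (b j) := ⟨j, hp⟩
    rw [hf]
    simp only [hex, dif_pos]
    rw [hdisj _ _ p hex.choose_spec hp]
  set S := Finset.univ.biUnion fun j => good (a j) (b j) with hS
  have h1 := sum_log_le (K := K) S ?_ f ?_ ?_
  · refine le_trans (le_of_eq ?_) h1
    rw [hS, Finset.sum_biUnion]
    · refine Finset.sum_congr rfl fun j _ => ?_
      rw [Finset.mul_sum]
      exact Finset.sum_congr rfl fun p hp => by rw [hfj j p hp]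
    · intro i _ j _ hij
      rw [Function.onFun, Finset.disjoint_left]
      intro p hpi hpj
      exact hij (hdisj i j p hpi hpj)
  · intro p hp
    rw [hS, Finset.mem_biUnion] at hp
    obtain ⟨j, -, hj⟩ := hp
    exact ((mem_good (ha j)).mp hj).1
  · intro p hp
    rw [hS, Finset.mem_biUnion] at hp
    obtain ⟨j, -, hj⟩ := hp
    rw [hfj j p hj]
    exact hν j
  · intro p hp
    rw [hS, Finset.mem_biUnion] at hp
    obtain ⟨j, -, hj⟩ := hp
    rw [hfj j p hj]
    exact h j p hj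

theorem main {n : ℕ} {A : Type} [CommRing A] [Algebra (MvPolynomial (Fin (n + 1)) ℚ) A]
    [Module.Finite (MvPolynomial (Fin (n + 1)) ℚ) A] {q : ℕ}
    (F : Fin q → MvPolynomial (Fin (n + 1)) ℤ) (k ν : Fin q → ℕ)
    (hhom : ∀ j, (F j).IsHomogeneous (k j)) (hirr : ∀ j, Irreducible (toQ (F j)))
    (hdist : ∀ i j, i ≠ j → ¬ Associated (toQ (F i)) (toQ (F j)))
    (hfew : ∀ j, k j ≤ 2 ∨ FewCoincidences (F j) (k j)) (hν : ∀ j, 1 ≤ ν j)
    (hram : ∀ (j : Fin q) (𝔓 : Ideal A), 𝔓.IsPrime →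
      𝔓.comap (algebraMap (MvPolynomial (Fin (n + 1)) ℚ) A) = Ideal.span {toQ (F j)} →
      ∃ s, s ∉ 𝔓 ∧ s * algebraMap _ A (toQ (F j)) ∈ 𝔓 ^ ν j)
    (κ : ℝ) (hκ : κ < ∑ j, (k j : ℝ) * (1 - 1 / ν j)) :
    Sparse (n + 1) (fun B x => ∃ (K : Type) (_ : Field K) (_ : NumberField K) (φ : A →+* K),
      (∀ i, φ (algebraMap (MvPolynomial (Fin (n + 1)) ℚ) A (X i)) = x i) ∧
      Real.log |(NumberField.discr K : ℝ)| / Module.finrank ℚ K < κ * Real.log B) := by
  classical
  have hdata := fun j => exists_integral_data (A := A) (F j) (hirr j) (ν j) (hram j)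
  choose g hg hspec using hdata
  set G : Fin q → MvPolynomial (Fin (n + 1)) ℤ := fun j => g j * ∏ i ∈ Finset.univ.erase j, F i
    with hG
  have hGdvd : ∀ j, ¬ toQ (F j) ∣ toQ (G j) := by
    intro j hdvd
    rw [hG, RingHom.map_mul, map_prod] at hdvd
    rcases (hirr j).prime.dvd_or_dvd hdvd with h1 | h1
    · exact hg j h1
    · obtain ⟨i, hi, h2⟩ := ((hirr j).prime.dvd_finsetProd_iff _).mp h1
      exact hdist j i (Finset.ne_of_mem_erase hi).symm ((hirr j).associated_of_dvd (hirr i) h2)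
  have hF0 : ∀ j, F j ≠ 0 := by
    intro j h0
    exact (hirr j).ne_zero (by rw [h0, map_zero])
  have hfew' : ∀ j, FewCoincidences (F j) (k j) := fun j => (hfew j).elim
    (fun h => few_of_le_two (F j) h (hhom j) (hirr j)) id
  set Δ : ℝ := (∑ j, (k j : ℝ) * (1 - 1 / ν j)) - κ with hΔ
  have hΔ0 : 0 < Δ := by rw [hΔ]; linarith
  set θ : ℝ := Δ / (8 * (q + 1)) with hθ
  have hθ0 : 0 < θ := by positivity
  have hval := fun j => exists_eval_bound (F j) (hhom j).totalDegree_le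
  choose c hc1 hc using hval
  obtain ⟨B₀, hB₀⟩ : ∃ B₀ : ℕ, ∀ B : ℕ, B₀ ≤ B → ∑ j, Real.log (c j) ≤ Δ / 2 * Real.log B := by
    have h1 : Filter.Tendsto (fun B : ℕ => Δ / 2 * Real.log B) Filter.atTop Filter.atTop :=
      (Real.tendsto_log_atTop.comp tendsto_natCast_atTop_atTop).const_mul_atTop (by positivity)
    exact Filter.eventually_atTop.mp (h1.eventually_ge_atTop (∑ j, Real.log (c j)))
  have hsp : ∀ j, Sparse (n + 1) (fun B x => eval x (F j) = 0 ∨
      ((eval x (F j) ≠ 0 ∧ (rd (eval x (F j)).natAbs : ℝ) ≤ (B : ℝ) ^ ((k j : ℝ) - θ)) ∨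
        (eval x (F j) ≠ 0 ∧ (B : ℝ) ^ θ < rd (Int.gcd (eval x (F j)) (eval x (G j)))))) :=
    fun j => (sparse_zeros (F j) (hF0 j)).or
      ((sparse_small_rad (F j) (hhom j).totalDegree_le (hfew' j) hθ0).or
        (sparse_gcd (F j) (G j) (hhom j) (hirr j) (hGdvd j) hθ0))
  refine (Sparse.exists_fin hsp).of_eventually B₀ ?_
  rintro B x hBB hB hx ⟨K, _, _, φ, hφ, hlt⟩
  by_contra hcon
  push Not at hcon
  have hB1 : (1 : ℝ) ≤ B := by exact_mod_cast hB
  have hBpos : (0 : ℝ) < B := by linarith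
  have hlogB : 0 ≤ Real.log B := Real.log_nonneg hB1
  have ha : ∀ j, eval x (F j) ≠ 0 := fun j => (hcon j).1
  have hab : ∀ i j, i ≠ j → eval x (F i) ∣ eval x (G j) := by
    intro i j hij
    rw [hG]
    simp only [map_mul, map_prod]
    refine Dvd.dvd.mul_left ?_ _
    exact Finset.dvd_prod_of_mem (fun i => eval x (F i))
      (Finset.mem_erase.mpr ⟨hij, Finset.mem_univ i⟩)
  have hsum := sum_good_le (K := K) (fun j => eval x (F j)) (fun j => eval x (G j)) ν hν ha hab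
    (by
      intro j p hp 𝔮 h𝔮 hmem
      rw [mem_good (ha j)] at hp
      refine hspec j K φ x hφ p hp.1 hp.2.1 hp.2.2.1 ?_ 𝔮 h𝔮 hmem
      intro hdvd
      apply hp.2.2.2
      rw [hG]
      simp only [map_mul]
      exact hdvd.mul_right _)
  have hν' : ∀ j, 0 ≤ 1 - 1 / (ν j : ℝ) ∧ 1 - 1 / (ν j : ℝ) ≤ 1 := by
    intro j
    have h1 : (1 : ℝ) ≤ ν j := by exact_mod_cast hν j
    have h2 : 1 / (ν j : ℝ) ≤ 1 := by rw [div_le_one (by linarith)]; exact h1
    have h3 : 0 ≤ 1 / (ν j : ℝ) := by positivity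
    constructor <;> linarith
  have hj : ∀ j, ((k j : ℝ) - 3 * θ) * Real.log B - Real.log (c j) ≤
      ∑ p ∈ good (eval x (F j)) (eval x (G j)), Real.log p := by
    intro j
    refine le_trans ?_ (log_good (ha j))
    obtain ⟨-, h1, h2⟩ := hcon j
    have h3 := h1 (ha j)
    have h4 := h2 (ha j)
    have hrd : (0 : ℝ) < rd (eval x (F j)).natAbs := by exact_mod_cast rd_pos _
    have e1 : ((k j : ℝ) - θ) * Real.log B ≤ Real.log (rd (eval x (F j)).natAbs) := by
      rw [← Real.log_rpow hBpos]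
      exact Real.log_le_log (by positivity) h3.le
    have e2 : Real.log (rd (Int.gcd (eval x (F j)) (eval x (G j)))) ≤ θ * Real.log B := by
      rw [← Real.log_rpow hBpos]
      exact Real.log_le_log (by exact_mod_cast rd_pos _) h4
    have e3 : Real.log ((eval x (F j)).natAbs : ℝ) ≤ Real.log (c j) + k j * Real.log B := by
      have h5 : ((eval x (F j)).natAbs : ℝ) ≤ c j * (B : ℝ) ^ (k j) := by
        exact_mod_cast hc j B hB x hx
      have h6 : (0 : ℝ) < c j := by exact_mod_cast hc1 j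
      have h7 : (0 : ℝ) < ((eval x (F j)).natAbs : ℝ) := by
        exact_mod_cast Int.natAbs_pos.mpr (ha j)
      refine (Real.log_le_log h7 h5).trans (le_of_eq ?_)
      rw [Real.log_mul h6.ne' (by positivity), Real.log_pow]
    linarith
  have htot : (∑ j, (k j : ℝ) * (1 - 1 / ν j)) * Real.log B - 3 * θ * q * Real.log B -
      ∑ j, Real.log (c j) ≤ ∑ j, (1 - 1 / (ν j : ℝ)) *
        ∑ p ∈ good (eval x (F j)) (eval x (G j)), Real.log p := by
    have h1 : ∀ j, (k j : ℝ) * (1 - 1 / ν j) * Real.log B - 3 * θ * Real.log B -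
        Real.log (c j) ≤ (1 - 1 / (ν j : ℝ)) *
          ∑ p ∈ good (eval x (F j)) (eval x (G j)), Real.log p := by
      intro j
      have h2 := mul_le_mul_of_nonneg_left (hj j) (hν' j).1
      refine le_trans ?_ h2
      have h3 : 0 ≤ Real.log (c j) := Real.log_natCast_nonneg _
      have h4 : 0 ≤ 3 * θ * Real.log B := by positivity
      have h5 := (hν' j).2
      nlinarith
    refine le_trans (le_of_eq ?_) (Finset.sum_le_sum fun j _ => h1 j)
    rw [Finset.sum_sub_distrib, Finset.sum_sub_distrib, Finset.sum_mul, Finset.sum_const,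
      Finset.card_univ, Fintype.card_fin, nsmul_eq_mul]
    ring
  have h8 : 3 * θ * q ≤ Δ / 2 := by
    rw [hθ]
    have hq : (0 : ℝ) ≤ q := Nat.cast_nonneg q
    rw [← mul_div_assoc, div_mul_eq_mul_div, div_le_div_iff₀ (by positivity) (by norm_num)]
    nlinarith
  have h9 := hB₀ B hBB
  have h10 : 3 * θ * q * Real.log B ≤ Δ / 2 * Real.log B := mul_le_mul_of_nonneg_right h8 hlogB
  have h11 : (∑ j, (k j : ℝ) * (1 - 1 / ν j)) = κ + Δ := by rw [hΔ]; ring
  rw [h11] at htot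
  linarith

end Pool.Agent.TH910.Voj
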