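import Mathlib

set_option autoImplicit false

/-!
The norm of a generator of the radical, over a discrete valuation ring.
-/

namespace Pool.Agent.TH910.Voj

open IsLocalRing

theorem norm_dvd_pow {R S : Type*} [CommRing R] [IsDomain R] [IsPrincipalIdealRing R]
    [IsLocalRing R] [CommRing S] [IsDomain S] [Algebra R S] [Module.Free R S] [Module.Finite R S]
    (F : R) (z : S) (hz : z ≠ 0) (hFz : z ∣ algebraMap R S F) (s : ℕ) (α : Fin s → S)
    (hα : ∀ d : S, ∃ ρ : Fin s → R, z ∣ d - ∑ l, algebraMap R S (ρ l) * α l) :
    Algebra.norm R z ∣ F ^ s := by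
  classical
  set b := Module.finBasis R S with hb
  have hI : Ideal.span {z} ≠ ⊥ := Ideal.span_singleton_eq_bot.not.2 hz
  set a := Ideal.smithCoeffs b (Ideal.span {z}) hI with ha
  set e := Ideal.ringBasis b (Ideal.span {z}) hI with he
  set f := Ideal.selfBasis b (Ideal.span {z}) hI with hf
  have hfe : ∀ i, (f i : S) = a i • e i := Ideal.selfBasis_def b (Ideal.span {z}) hI
  -- coordinates of elements of the ideal
  have hcoord : ∀ x ∈ Ideal.span {z}, ∀ i, a i ∣ e.repr x i := by
    intro x hx i
    have h1 := f.sum_repr ⟨x, hx⟩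
    have h2 : x = ∑ j, (f.repr ⟨x, hx⟩ j * a j) • e j := by
      have h3 := congrArg (fun y : Ideal.span {z} => (y : S)) h1
      simp only at h3
      refine h3.symm.trans ?_
      push_cast
      refine Finset.sum_congr rfl fun j _ => ?_
      rw [mul_smul, ← hfe j]
    generalize f.repr ⟨x, hx⟩ = w at h2
    rw [h2, map_sum, Finsupp.finsetSum_apply]
    refine Finset.dvd_sum fun j _ => ?_
    rw [map_smul, Module.Basis.repr_self, Finsupp.smul_apply, smul_eq_mul]
    by_cases hij : j = i
    · rw [hij]; simp
    · rw [Finsupp.single_eq_of_ne (Ne.symm hij), mul_zero]; exact dvd_zero _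
  have haF : ∀ i, a i ∣ F := by
    intro i
    have h1 : algebraMap R S F * e i ∈ Ideal.span {z} :=
      Ideal.mem_span_singleton.mpr (hFz.mul_right _)
    have h2 := hcoord _ h1 i
    rw [← Algebra.smul_def, map_smul, Module.Basis.repr_self, Finsupp.smul_apply,
      Finsupp.single_eq_same, smul_eq_mul, mul_one] at h2
    exact h2
  set T := Finset.univ.filter (fun i => ¬ IsUnit (a i)) with hT
  have hcard : T.card ≤ s := by
    -- linear map to `κ^T`
    set θ : S →ₗ[R] (T → ResidueField R) :=
      LinearMap.pi fun i => (Algebra.linearMap R (ResidueField R)).comp (e.coord i) with hθ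
    have hθapp : ∀ d i, θ d i = residue R (e.repr d i) := fun d i => rfl
    have hθz : ∀ d, z ∣ d → θ d = 0 := by
      intro d hd
      funext i
      rw [hθapp, Pi.zero_apply, residue_eq_zero_iff]
      have h1 := hcoord d (Ideal.mem_span_singleton.mpr hd) i
      refine Ideal.mem_of_dvd _ h1 ?_
      rw [mem_maximalIdeal]
      exact (Finset.mem_filter.mp i.2).2
    have hsurj : Function.Surjective θ := by
      intro y
      choose ρ hρ using fun i : T => residue_surjective (R := R) (y i)
      refine ⟨∑ i : T, ρ i • e i, ?_⟩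
      funext i
      rw [hθapp, map_sum, Finsupp.finsetSum_apply, map_sum]
      rw [Finset.sum_eq_single i]
      · rw [map_smul, Module.Basis.repr_self, Finsupp.smul_apply, Finsupp.single_eq_same,
          smul_eq_mul, mul_one, hρ]
      · intro j _ hji
        rw [map_smul, Module.Basis.repr_self, Finsupp.smul_apply,
          Finsupp.single_eq_of_ne (fun h => hji (Subtype.ext h.symm)), smul_zero, map_zero]
      · intro h; exact absurd (Finset.mem_univ _) h
    have hspan : Submodule.span (ResidueField R) (Set.range fun l => θ (α l)) = ⊤ := by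
      rw [eq_top_iff]
      intro y _
      obtain ⟨d, rfl⟩ := hsurj y
      obtain ⟨ρ, hρ⟩ := hα d
      have h1 : θ d = ∑ l, residue R (ρ l) • θ (α l) := by
        have h2 := hθz _ hρ
        rw [map_sub, sub_eq_zero] at h2
        rw [h2, map_sum]
        refine Finset.sum_congr rfl fun l _ => ?_
        rw [← Algebra.smul_def, map_smul]
        funext i
        rw [Pi.smul_apply, Pi.smul_apply, Algebra.smul_def, smul_eq_mul]
        rfl
      rw [h1]
      exact Submodule.sum_mem _ fun l _ => Submodule.smul_mem _ _ (Submodule.subset_span ⟨l, rfl⟩)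
    have h3 := finrank_le_of_span_eq_top hspan
    rwa [Module.finrank_fintype_fun_eq_card, Fintype.card_coe, Fintype.card_fin] at h3
  have h4 := (associated_norm_prod_smith b hz)
  refine h4.dvd.trans ?_
  have h5 : ∏ i, a i ∣ ∏ i, (if IsUnit (a i) then 1 else F) := by
    refine Finset.prod_dvd_prod_of_dvd _ _ fun i _ => ?_
    split_ifs with h
    · exact h.dvd
    · exact haF i
  refine h5.trans ?_
  have h6 : ∏ i, (if IsUnit (a i) then 1 else F) = F ^ T.card := by
    rw [Finset.prod_ite, Finset.prod_const_one, one_mul, Finset.prod_const]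
  rw [h6]
  exact pow_dvd_pow F hcard

end Pool.Agent.TH910.Voj
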