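import Pool.Agent.TH910.Voj.Local
import Pool.Agent.TH910.Voj.Elim

set_option autoImplicit false

/-!
Norms of the specialisations of a local generator.
-/

namespace Pool.Agent.TH910.Voj

open NumberField MvPolynomial

lemma norm_eq_det {K : Type*} [Field K] [NumberField K] {N : ℕ}
    (hN : Module.finrank ℚ K = N) (w : Fin N → K) (c : ℚ) (hc : c ≠ 0)
    (hspan : ∀ y : K, ∃ r : Fin N → ℚ, (c : K) * y = ∑ i, (r i : K) * w i) (y : K)
    (M : Matrix (Fin N) (Fin N) ℚ) (hM : ∀ i, y * w i = ∑ j, (M i j : K) * w j) :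
    Algebra.norm ℚ y = M.det := by
  classical
  have hc' : (c : K) ≠ 0 := by exact_mod_cast hc
  have htop : ⊤ ≤ Submodule.span ℚ (Set.range w) := by
    intro y _
    obtain ⟨r, hr⟩ := hspan y
    have h1 : y = ∑ i, (c⁻¹ * r i) • w i := by
      have h2 : y = (c : K)⁻¹ * ((c : K) * y) := by rw [← mul_assoc, inv_mul_cancel₀ hc', one_mul]
      rw [h2, hr, Finset.mul_sum]
      refine Finset.sum_congr rfl fun i _ => ?_
      rw [Algebra.smul_def, eq_ratCast]
      push_cast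
      ring
    rw [h1]
    exact Submodule.sum_mem _ fun i _ => Submodule.smul_mem _ _ (Submodule.subset_span ⟨i, rfl⟩)
  set B := basisOfTopLeSpanOfCardEqFinrank w htop (by rw [Fintype.card_fin, hN]) with hB
  have hBw : ∀ i, B i = w i := fun i => by rw [hB, coe_basisOfTopLeSpanOfCardEqFinrank]
  rw [Algebra.norm_eq_matrix_det B, ← Matrix.det_transpose]
  congr 1
  ext i j
  rw [Matrix.transpose_apply, Algebra.leftMulMatrix_eq_repr_mul, hBw i, hM i, map_sum,
    Finsupp.finsetSum_apply, Finset.sum_eq_single j]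
  · rw [← hBw j]
    have h1 : (M i j : K) * B j = M i j • B j := by rw [Algebra.smul_def, eq_ratCast]
    rw [h1, map_smul, Module.Basis.repr_self, Finsupp.smul_apply, Finsupp.single_eq_same,
      smul_eq_mul, mul_one]
  · intro l _ hl
    rw [← hBw l]
    have h1 : (M i l : K) * B l = M i l • B l := by rw [Algebra.smul_def, eq_ratCast]
    rw [h1, map_smul, Module.Basis.repr_self, Finsupp.smul_apply,
      Finsupp.single_eq_of_ne hl.symm, smul_zero]
  · intro h; exact absurd (Finset.mem_univ _) h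

/-- values of a rational polynomial -/
lemma eval_toQ {n : ℕ} (x : Fin n → ℤ) (G : MvPolynomial (Fin n) ℤ) :
    eval (fun i => (x i : ℚ)) (toQ G) = ((eval x G : ℤ) : ℚ) := by
  rw [MvPolynomial.eval_map, MvPolynomial.eval₂_eq', MvPolynomial.eval_eq']
  push_cast
  rfl

theorem exists_norm_data {n : ℕ} {A : Type} [CommRing A] [IsDomain A] [IsIntegrallyClosed A]
    [Algebra (MvPolynomial (Fin n) ℚ) A] [Module.Finite (MvPolynomial (Fin n) ℚ) A]
    [FaithfulSMul (MvPolynomial (Fin n) ℚ) A]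
    (F : MvPolynomial (Fin n) ℤ) (hF : Irreducible (toQ F)) (s N : ℕ)
    (hN : Module.finrank (MvPolynomial (Fin n) ℚ) A = N) (hs : DegreeLE (A := A) (toQ F) s) :
    ∃ g : MvPolynomial (Fin n) ℤ, ¬ toQ F ∣ toQ g ∧
      ∀ (K : Type) [Field K] [NumberField K] (φ : A →+* K) (x : Fin n → ℤ),
        Function.Surjective φ → Module.finrank ℚ K = N →
        (∀ i, φ (algebraMap (MvPolynomial (Fin n) ℚ) A (X i)) = x i) →
        ∀ p : ℕ, p.Prime → (p : ℤ) ∣ eval x F → ¬ (p : ℤ) ^ 2 ∣ eval x F →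
          ¬ (p : ℤ) ∣ eval x g →
          ∃ ζ : 𝓞 K, (∀ 𝔮 : Ideal (𝓞 K), 𝔮.IsPrime → (p : 𝓞 K) ∈ 𝔮 → ζ ∈ 𝔮) ∧
            ¬ (p : ℤ) ^ (s + 1) ∣ Algebra.norm ℤ ζ := by
  classical
  let _ : Algebra (MvPolynomial (Fin n) ℤ) A :=
    ((algebraMap (MvPolynomial (Fin n) ℚ) A).comp toQ).toAlgebra
  have hA : algebraMap (MvPolynomial (Fin n) ℤ) A =
      (algebraMap (MvPolynomial (Fin n) ℚ) A).comp toQ := rfl
  have hA' : ∀ G : MvPolynomial (Fin n) ℤ, algebraMap (MvPolynomial (Fin n) ℤ) A G =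
      algebraMap (MvPolynomial (Fin n) ℚ) A (toQ G) := fun G => rfl
  have hclear := exists_int_mul_isIntegral (n := n) (A := A) hA
  have hFprime : Prime (toQ F) := hF.prime
  obtain ⟨ω, z, g₀, M, E, b, hg₀, hM, hdet, hspan, hzE⟩ :=
    local_data (A := A) (toQ F) hFprime s N hN hs
  obtain ⟨N₁, hN₁0, hN₁⟩ := hclear z
  obtain ⟨N₄, hN₄0, hN₄⟩ := hclear b
  obtain ⟨N₂, hN₂0, g₁, hg₁⟩ := exists_int_mul_eq_toQ g₀
  obtain ⟨N₃, hN₃0, D₁, hD₁⟩ := exists_int_mul_eq_toQ M.det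
  -- the multiplicity of `F` in the determinant
  obtain ⟨t, ht, h, hdeth, hFh⟩ : ∃ t ≤ s, ∃ h, M.det = toQ F ^ t * h ∧ ¬ toQ F ∣ h := by
    have hfin : FiniteMultiplicity (toQ F) M.det := ⟨s, hdet⟩
    obtain ⟨h, h1, h2⟩ := hfin.exists_eq_pow_mul_and_not_dvd
    refine ⟨_, ?_, h, h1, h2⟩
    by_contra hcon
    exact hdet ((pow_dvd_pow _ (by omega)).trans ⟨h, h1⟩)
  obtain ⟨N₅, hN₅0, h₁, hh₁⟩ := exists_int_mul_eq_toQ h
  set c : ℤ := N₁ * N₂ * N₄ with hc
  have hc0 : c ≠ 0 := mul_ne_zero (mul_ne_zero hN₁0 hN₂0) hN₄0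
  have hCQ : ∀ m : ℤ, toQ (C m : MvPolynomial (Fin n) ℤ) = C (m : ℚ) := fun m =>
    (MvPolynomial.map_C _ _).trans rfl
  have hCunit : ∀ m : ℤ, m ≠ 0 → IsUnit (C (m : ℚ) : MvPolynomial (Fin n) ℚ) := fun m hm =>
    IsUnit.map C (isUnit_iff_ne_zero.mpr (by exact_mod_cast hm))
  have hDF : C (N₅ : ℤ) * D₁ = C N₃ * (F ^ t * h₁) := by
    apply toQ_injective
    rw [RingHom.map_mul, RingHom.map_mul, RingHom.map_mul, RingHom.map_pow, hCQ, hCQ, hD₁, hh₁,
      hdeth]
    ring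
  refine ⟨C (c * N₃) * (g₁ * h₁), ?_, ?_⟩
  · intro hdvd
    rw [RingHom.map_mul toQ (C (c * N₃)), RingHom.map_mul toQ g₁, hCQ, hg₁, hh₁] at hdvd
    have hu : ∀ m : ℤ, m ≠ 0 → ¬ toQ F ∣ C (m : ℚ) := fun m hm hd =>
      hFprime.not_isUnit (isUnit_of_dvd_unit hd (hCunit m hm))
    rcases hFprime.dvd_or_dvd hdvd with h1 | h1
    · exact hu _ (mul_ne_zero hc0 hN₃0) h1
    rcases hFprime.dvd_or_dvd h1 with h1 | h1
    · rcases hFprime.dvd_or_dvd h1 with h1 | h1
      · exact hu _ hN₂0 h1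
      · exact hg₀ h1
    · rcases hFprime.dvd_or_dvd h1 with h1 | h1
      · exact hu _ hN₅0 h1
      · exact hFh h1
  · intro K _ _ φ x hφs hK hφ p hp hpF hpF2 hpg
    have hpZ : _root_.Prime (p : ℤ) := Nat.prime_iff_prime_int.mp hp
    rw [map_mul (eval x) (C (c * N₃)), map_mul (eval x) g₁, eval_C] at hpg
    have hpc : ¬ (p : ℤ) ∣ c := fun hd => hpg ((hd.mul_right _).mul_right _)
    have hpN₃ : ¬ (p : ℤ) ∣ N₃ := fun hd => hpg ((hd.mul_left _).mul_right _)
    have hpg₁ : ¬ (p : ℤ) ∣ eval x g₁ := fun hd => hpg ((hd.mul_right _).mul_left _)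
    have hph₁ : ¬ (p : ℤ) ∣ eval x h₁ := fun hd => hpg ((hd.mul_left _).mul_left _)
    have hpN₁ : ¬ (p : ℤ) ∣ N₁ := fun hd => hpc ((hd.mul_right _).mul_right _)
    have hpN₂ : ¬ (p : ℤ) ∣ N₂ := fun hd => hpc ((hd.mul_left _).mul_right _)
    have hpN₄ : ¬ (p : ℤ) ∣ N₄ := fun hd => hpc (hd.mul_left _)
    have hg₁x : eval x g₁ ≠ 0 := fun h0 => hpg₁ (h0 ▸ dvd_zero _)
    -- values on the rational polynomials
    set xq : Fin n → ℚ := fun i => (x i : ℚ) with hxq
    have hφQ : ∀ G : MvPolynomial (Fin n) ℚ,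
        φ (algebraMap (MvPolynomial (Fin n) ℚ) A G) = ((eval xq G : ℚ) : K) := by
      intro G
      have h1 : φ.comp (algebraMap (MvPolynomial (Fin n) ℚ) A) =
          (Rat.castHom K).comp (eval xq) := by
        refine MvPolynomial.ringHom_ext' ?_ ?_
        · exact RingHom.ext_rat _ _
        · intro i
          simp only [RingHom.comp_apply, eval_X, hφ i, hxq]
          simp
      exact congrArg (fun f : MvPolynomial (Fin n) ℚ →+* K => f G) h1
    have hφR : ∀ G : MvPolynomial (Fin n) ℤ,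
        φ (algebraMap (MvPolynomial (Fin n) ℤ) A G) = ((eval x G : ℤ) : K) := by
      intro G
      rw [hA', hφQ, hxq, eval_toQ]
      simp
    have hint : ∀ a : A, IsIntegral (MvPolynomial (Fin n) ℤ) a → φ a ∈ integralClosure ℤ K := by
      intro a h1
      refine IsIntegral.map_of_comp_eq (eval x) φ ?_ h1
      refine RingHom.ext fun G => ?_
      rw [RingHom.comp_apply, RingHom.comp_apply, hφR]
      simp
    set ζ : 𝓞 K := ⟨φ ((N₁ : A) * z), hint _ hN₁⟩ with hζ
    set β : 𝓞 K := ⟨φ ((N₄ : A) * b), hint _ hN₄⟩ with hβ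
    have hζv : (ζ : K) = (N₁ : K) * φ z := by
      have : (ζ : K) = φ ((N₁ : A) * z) := rfl
      rw [this, map_mul, map_intCast]
    have hβv : (β : K) = (N₄ : K) * φ b := by
      have : (β : K) = φ ((N₄ : A) * b) := rfl
      rw [this, map_mul, map_intCast]
    set γ : ℚ := eval xq g₀ with hγ
    have hγ1 : (N₂ : ℚ) * γ = ((eval x g₁ : ℤ) : ℚ) := by
      rw [← eval_toQ, hg₁, map_mul, eval_C]
    have hγ0 : γ ≠ 0 := by
      intro h0
      rw [h0, mul_zero] at hγ1
      exact hg₁x (by exact_mod_cast hγ1.symm)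
    refine ⟨ζ, ?_, ?_⟩
    · intro 𝔮 h𝔮 hmem
      have hcomap : ∀ c : ℤ, (c : 𝓞 K) ∈ 𝔮 → (p : ℤ) ∣ c := by
        intro c hc
        by_contra hpc
        obtain ⟨r, t, hrt⟩ : IsCoprime (p : ℤ) c := (hpZ.coprime_iff_not_dvd).mpr hpc
        have h3 : (1 : 𝓞 K) ∈ 𝔮 := by
          have h4 : (1 : 𝓞 K) = (r : 𝓞 K) * (p : 𝓞 K) + (t : 𝓞 K) * (c : 𝓞 K) := by
            have := congrArg (fun i : ℤ => (i : 𝓞 K)) hrt
            push_cast at this
            exact this.symm
          rw [h4]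
          exact Ideal.add_mem _ (Ideal.mul_mem_left _ _ hmem) (Ideal.mul_mem_left _ _ hc)
        exact h𝔮.ne_top ((Ideal.eq_top_iff_one _).mpr h3)
      have hrel : ((N₄ * eval x g₁ : ℤ) : 𝓞 K) * ζ ^ E =
          ((N₂ * N₁ ^ E * eval x F : ℤ) : 𝓞 K) * β := by
        apply RingOfIntegers.ext
        have h1 := congrArg φ hzE
        rw [map_mul, map_mul, map_pow, hφQ, hφQ, hxq, eval_toQ, ← hxq, ← hγ] at h1
        have h2 : ((eval x g₁ : ℤ) : K) = (N₂ : K) * (γ : K) := by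
          have := congrArg (fun q : ℚ => (q : K)) hγ1
          push_cast at this
          exact this.symm
        have hζ' : algebraMap (𝓞 K) K ζ = (N₁ : K) * φ z := hζv
        have hβ' : algebraMap (𝓞 K) K β = (N₄ : K) * φ b := hβv
        change algebraMap (𝓞 K) K _ = algebraMap (𝓞 K) K _
        rw [map_mul (algebraMap (𝓞 K) K), map_mul (algebraMap (𝓞 K) K), map_pow, map_intCast,
          map_intCast, hζ', hβ', mul_pow]
        push_cast at h1 ⊢
        rw [h2]
        linear_combination (N₄ * N₂ * N₁ ^ E : K) * h1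
      have hFq : ((eval x F : ℤ) : 𝓞 K) ∈ 𝔮 := by
        obtain ⟨d, hd⟩ := hpF
        rw [hd]
        push_cast
        exact Ideal.mul_mem_right _ _ hmem
      have h3 : ((N₄ * eval x g₁ : ℤ) : 𝓞 K) * ζ ^ E ∈ 𝔮 := by
        rw [hrel]
        refine Ideal.mul_mem_right _ _ ?_
        push_cast
        exact Ideal.mul_mem_left _ _ hFq
      rcases h𝔮.mem_or_mem h3 with h4 | h4
      · exact absurd (hpZ.dvd_or_dvd (hcomap _ h4)) (by tauto)
      · exact h𝔮.mem_of_pow_mem _ h4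
    · intro hdvd
      -- the norm
      have hnorm : Algebra.norm ℚ ((γ : K) * φ z) = eval xq M.det := by
        have h1 := norm_eq_det hK (fun i => φ (ω i)) γ hγ0 (by
          intro y
          obtain ⟨a, rfl⟩ := hφs y
          obtain ⟨r, hr⟩ := hspan a
          refine ⟨fun i => eval xq (r i), ?_⟩
          have h2 := congrArg φ hr
          rw [map_mul, hφQ, map_sum] at h2
          rw [h2]
          refine Finset.sum_congr rfl fun i _ => ?_
          rw [map_mul, hφQ]) ((γ : K) * φ z) ((eval xq).mapMatrix M) (by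
          intro i
          have h2 := congrArg φ (hM i)
          rw [map_mul, map_mul, hφQ, map_sum] at h2
          rw [h2]
          refine Finset.sum_congr rfl fun j _ => ?_
          rw [map_mul, hφQ]
          rfl)
        rw [h1, RingHom.map_det]
      have hnz : γ ^ N * ((Algebra.norm ℤ ζ : ℤ) : ℚ) = (N₁ : ℚ) ^ N * eval xq M.det := by
        rw [Algebra.coe_norm_int, hζv, ← hnorm]
        rw [map_mul, map_mul]
        have h1 : Algebra.norm ℚ (N₁ : K) = (N₁ : ℚ) ^ N := by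
          have : (N₁ : K) = algebraMap ℚ K (N₁ : ℚ) := by simp
          rw [this, Algebra.norm_algebraMap, hK]
        have h2 : Algebra.norm ℚ (γ : K) = γ ^ N := by
          have : (γ : K) = algebraMap ℚ K γ := by simp
          rw [this, Algebra.norm_algebraMap, hK]
        rw [h1, h2]
        ring
      have hD₁x : (N₃ : ℚ) * eval xq M.det = ((eval x D₁ : ℤ) : ℚ) := by
        rw [← eval_toQ, hD₁, map_mul, eval_C]
      have hint2 : N₃ * (eval x g₁) ^ N * Algebra.norm ℤ ζ = (N₂ * N₁) ^ N * eval x D₁ := by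
        have h1 : ((N₃ * (eval x g₁) ^ N * Algebra.norm ℤ ζ : ℤ) : ℚ) =
            (((N₂ * N₁) ^ N * eval x D₁ : ℤ) : ℚ) := by
          push_cast
          rw [← hγ1, ← hD₁x]
          calc (N₃ : ℚ) * (N₂ * γ) ^ N * (Algebra.norm ℤ ζ : ℤ) =
              N₃ * N₂ ^ N * (γ ^ N * ((Algebra.norm ℤ ζ : ℤ) : ℚ)) := by rw [mul_pow]; ring
            _ = _ := by rw [hnz, mul_pow]; ring
        exact_mod_cast h1
      have hDd : (p : ℤ) ^ (s + 1) ∣ eval x D₁ := by
        have h1 : (p : ℤ) ^ (s + 1) ∣ (N₂ * N₁) ^ N * eval x D₁ := by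
          rw [← hint2]; exact hdvd.mul_left _
        refine IsCoprime.dvd_of_dvd_mul_left ?_ h1
        refine IsCoprime.pow ((hpZ.coprime_iff_not_dvd).mpr fun hd => ?_)
        exact (hpZ.dvd_or_dvd hd).elim hpN₂ hpN₁
      have hDFx : N₅ * eval x D₁ = N₃ * ((eval x F) ^ t * eval x h₁) := by
        have := congrArg (eval x) hDF
        simpa using this
      have h1 : (p : ℤ) ^ (s + 1) ∣ (eval x F) ^ t := by
        have h2 : (p : ℤ) ^ (s + 1) ∣ (N₃ * eval x h₁) * (eval x F) ^ t := by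
          have h3 : (N₃ * eval x h₁) * (eval x F) ^ t = N₅ * eval x D₁ := by rw [hDFx]; ring
          rw [h3]; exact hDd.mul_left _
        refine IsCoprime.dvd_of_dvd_mul_left ?_ h2
        refine IsCoprime.pow_left ((hpZ.coprime_iff_not_dvd).mpr fun hd => ?_)
        exact (hpZ.dvd_or_dvd hd).elim hpN₃ hph₁
      obtain ⟨d, hd⟩ := hpF
      have hpd : ¬ (p : ℤ) ∣ d := by
        rintro ⟨e, he⟩
        exact hpF2 ⟨e, by rw [hd, he]; ring⟩
      rw [hd, mul_pow] at h1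
      have h4 : (p : ℤ) ^ (s + 1) ∣ (p : ℤ) ^ t := by
        refine IsCoprime.dvd_of_dvd_mul_right ?_ h1
        exact IsCoprime.pow ((hpZ.coprime_iff_not_dvd).mpr hpd)
      have h5 := (pow_dvd_pow_iff hpZ.ne_zero hpZ.not_isUnit).mp h4
      omega

end Pool.Agent.TH910.Voj
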