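import Pool.Agent.TH910.Voj.Gcd

set_option autoImplicit false

/-!
The values of a form are seldom small, at the archimedean place or at a prime.
-/

namespace Pool.Agent.TH910.Voj

open MvPolynomial

/-! ### roots -/

lemma prod_lt_of_forall (z : ℂ) (ρ : ℝ) (hρ : 0 ≤ ρ) (s : Multiset ℂ)
    (h : ∀ α ∈ s, ρ < ‖z - α‖) :
    ρ ^ s.card ≤ (s.map fun α => ‖z - α‖).prod ∧
      (s ≠ 0 → ρ ^ s.card < (s.map fun α => ‖z - α‖).prod) := by
  induction s using Multiset.induction_on with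
  | empty => simp
  | cons a s ih =>
    have h1 := ih fun α hα => h α (Multiset.mem_cons_of_mem hα)
    have h2 := h a (Multiset.mem_cons_self a s)
    rw [Multiset.card_cons, Multiset.map_cons, Multiset.prod_cons, pow_succ, mul_comm]
    have hpos : 0 < (s.map fun α => ‖z - α‖).prod := by
      refine Multiset.prod_pos fun w hw => ?_
      obtain ⟨α, hα, rfl⟩ := Multiset.mem_map.mp hw
      exact lt_of_le_of_lt hρ (h α (Multiset.mem_cons_of_mem hα))
    have h3 : ρ * ρ ^ s.card < ‖z - a‖ * (s.map fun α => ‖z - α‖).prod :=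
      lt_of_le_of_lt (mul_le_mul_of_nonneg_left h1.1 hρ) (mul_lt_mul_of_pos_right h2 hpos)
    exact ⟨h3.le, fun _ => h3⟩

lemma exists_root_near (f : Polynomial ℤ) {k : ℕ} (hk1 : 1 ≤ k) (hf : f.natDegree ≤ k)
    (hc : f.coeff k ≠ 0) (ρ : ℝ) (hρ : 0 ≤ ρ) (t : ℤ) (ht : |((f.eval t : ℤ) : ℝ)| ≤ ρ ^ k) :
    ∃ α ∈ (f.map (Int.castRingHom ℂ)).roots, ‖(t : ℂ) - α‖ ≤ ρ := by
  by_contra hcon
  push Not at hcon
  set g := f.map (Int.castRingHom ℂ) with hg
  have hinj : Function.Injective (Int.castRingHom ℂ) := Int.cast_injective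
  have hdeg : f.natDegree = k := le_antisymm hf (Polynomial.le_natDegree_of_ne_zero hc)
  have hgdeg : g.natDegree = k := by
    rw [hg, Polynomial.natDegree_map_eq_of_injective hinj, hdeg]
  have hsplit : g.Splits := IsAlgClosed.splits g
  have hcard : g.roots.card = k := by rw [← hgdeg]; exact hsplit.natDegree_eq_card_roots.symm
  have hev : g.eval (t : ℂ) = g.leadingCoeff * (g.roots.map fun α => (t : ℂ) - α).prod :=
    hsplit.eval_eq_prod_roots _
  have hne : g.roots ≠ 0 := by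
    intro h0
    rw [h0, Multiset.card_zero] at hcard
    omega
  have h1 := (prod_lt_of_forall (t : ℂ) ρ hρ g.roots hcon).2 hne
  rw [hcard] at h1
  have h2 : ‖g.eval (t : ℂ)‖ = |((f.eval t : ℤ) : ℝ)| := by
    have h3 : g.eval (t : ℂ) = ((f.eval t : ℤ) : ℂ) := by
      rw [hg]
      have := Polynomial.eval_intCast_map (Int.castRingHom ℂ) f t
      simp
    rw [h3, Complex.norm_intCast]
  have h4 : (1 : ℝ) ≤ ‖g.leadingCoeff‖ := by
    have h5 : g.leadingCoeff = ((f.coeff k : ℤ) : ℂ) := by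
      rw [Polynomial.leadingCoeff, hgdeg, hg, Polynomial.coeff_map]; simp
    rw [h5, Complex.norm_intCast]
    exact_mod_cast Int.one_le_abs hc
  have h6 : ‖(g.roots.map fun α => (t : ℂ) - α).prod‖ =
      (g.roots.map fun α => ‖(t : ℂ) - α‖).prod := by
    have := map_multiset_prod (normHom : ℂ →*₀ ℝ) (g.roots.map fun α => (t : ℂ) - α)
    rw [Multiset.map_map] at this
    exact this
  have h7 : ρ ^ k < |((f.eval t : ℤ) : ℝ)| := by
    rw [← h2, hev, norm_mul, h6]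
    have h8 : 0 ≤ (g.roots.map fun α => ‖(t : ℂ) - α‖).prod := le_trans (by positivity) h1.le
    nlinarith
  linarith

lemma card_near (r ρ : ℝ) (hρ : 0 ≤ ρ) (T : Finset ℤ) (hT : ∀ t ∈ T, |(t : ℝ) - r| ≤ ρ) :
    (T.card : ℝ) ≤ 2 * ρ + 1 := by
  have h1 : T ⊆ Finset.Icc ⌈r - ρ⌉ ⌊r + ρ⌋ := by
    intro t ht
    have h2 := abs_le.mp (hT t ht)
    rw [Finset.mem_Icc]
    exact ⟨Int.ceil_le.mpr (by linarith), Int.le_floor.mpr (by linarith)⟩
  have h2 := Finset.card_le_card h1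
  rw [Int.card_Icc] at h2
  by_cases h3 : 0 ≤ ⌊r + ρ⌋ + 1 - ⌈r - ρ⌉
  · have h4 : (T.card : ℝ) ≤ ((⌊r + ρ⌋ + 1 - ⌈r - ρ⌉ : ℤ) : ℝ) := by
      have : (T.card : ℤ) ≤ ⌊r + ρ⌋ + 1 - ⌈r - ρ⌉ := by omega
      exact_mod_cast this
    push_cast at h4
    have h5 := Int.floor_le (r + ρ)
    have h6 := Int.le_ceil (r - ρ)
    linarith
  · have h4 : T.card = 0 := by omega
    rw [h4]
    push_cast
    linarith

lemma card_small_values (f : Polynomial ℤ) {k : ℕ} (hk1 : 1 ≤ k) (hf : f.natDegree ≤ k)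
    (hc : f.coeff k ≠ 0) (ρ : ℝ) (hρ : 0 ≤ ρ) (T : Finset ℤ)
    (hT : ∀ t ∈ T, |((f.eval t : ℤ) : ℝ)| ≤ ρ ^ k) : (T.card : ℝ) ≤ k * (2 * ρ + 1) := by
  classical
  set g := f.map (Int.castRingHom ℂ) with hg
  set R := g.roots.toFinset with hR
  have h1 : T ⊆ R.biUnion fun α => T.filter fun t => ‖(t : ℂ) - α‖ ≤ ρ := by
    intro t ht
    obtain ⟨α, hα, h2⟩ := exists_root_near f hk1 hf hc ρ hρ t (hT t ht)
    rw [Finset.mem_biUnion]
    exact ⟨α, Multiset.mem_toFinset.mpr hα, Finset.mem_filter.mpr ⟨ht, h2⟩⟩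
  have h2 : (T.card : ℝ) ≤ ∑ α ∈ R, ((T.filter fun t : ℤ => ‖(t : ℂ) - α‖ ≤ ρ).card : ℝ) := by
    exact_mod_cast (Finset.card_le_card h1).trans Finset.card_biUnion_le
  have h3 : ∀ α ∈ R, ((T.filter fun t : ℤ => ‖(t : ℂ) - α‖ ≤ ρ).card : ℝ) ≤ 2 * ρ + 1 := by
    intro α _
    refine card_near α.re ρ hρ _ fun t ht => ?_
    have h4 := (Finset.mem_filter.mp ht).2
    refine le_trans ?_ h4
    have h5 := Complex.abs_re_le_norm ((t : ℂ) - α)
    simpa using h5
  refine h2.trans ((Finset.sum_le_sum h3).trans ?_)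
  rw [Finset.sum_const, nsmul_eq_mul]
  refine mul_le_mul_of_nonneg_right ?_ (by positivity)
  have h6 : R.card ≤ k := by
    refine (Multiset.toFinset_card_le _).trans ((Polynomial.card_roots' _).trans ?_)
    exact (Polynomial.natDegree_map_le).trans hf
  exact_mod_cast h6

/-! ### fibres -/

lemma exists_direction' {n : ℕ} (G : MvPolynomial (Fin (n + 1)) ℤ) {k : ℕ}
    (hk : G.IsHomogeneous k) (hk1 : 1 ≤ k) (hG : G ≠ 0) :
    ∃ a : Fin (n + 1) → ℤ, ∃ i₀, eval a G ≠ 0 ∧ a i₀ ≠ 0 := by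
  obtain ⟨a, ha⟩ : ∃ a : Fin (n + 1) → ℤ, eval a G ≠ 0 := by
    by_contra hcon
    push Not at hcon
    exact hG (MvPolynomial.funext fun x => by rw [hcon x, map_zero])
  by_cases h : ∃ i₀, a i₀ ≠ 0
  · obtain ⟨i₀, hi₀⟩ := h
    exact ⟨a, i₀, ha, hi₀⟩
  · push Not at h
    exfalso
    have ha0 : a = 0 := funext h
    apply ha
    rw [ha0]
    have h2 : eval (0 : Fin (n + 1) → ℤ) G = coeff 0 G := by
      rw [← constantCoeff_eq]
      simp
    rw [h2]
    by_contra h3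
    have := hk h3
    simp at this
    omega

/-- the constant of a direction -/
noncomputable def cdir {n : ℕ} (a : Fin (n + 1) → ℤ) (i₀ : Fin (n + 1)) : ℕ :=
  ∑ i, (a i).natAbs + (a i₀).natAbs + 1

lemma mem_ybox_of_box {n : ℕ} (a : Fin (n + 1) → ℤ) (i₀ : Fin (n + 1)) (B : ℕ)
    (x : Fin (n + 1) → ℤ) (hx : x ∈ box (n + 1) B) :
    (fun i => a i₀ * x i - a i * x i₀) ∈ ybox n i₀ (cdir a i₀ * B) := by
  classical
  rw [mem_box] at hx
  unfold ybox
  rw [Fintype.mem_piFinset]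
  intro i
  split_ifs with hi
  · rw [hi]; simp
  · rw [Finset.mem_Icc, ← abs_le]
    have h1 : |a i₀ * x i - a i * x i₀| ≤ |a i₀| * B + |a i| * B := by
      refine (abs_sub _ _).trans ?_
      rw [abs_mul, abs_mul]
      exact add_le_add (mul_le_mul_of_nonneg_left (hx i) (abs_nonneg _))
        (mul_le_mul_of_nonneg_left (hx i₀) (abs_nonneg _))
    refine h1.trans ?_
    have h2 : (a i).natAbs ≤ ∑ i, (a i).natAbs :=
      Finset.single_le_sum (f := fun i => (a i).natAbs) (fun _ _ => Nat.zero_le _)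
        (Finset.mem_univ i)
    have h3 : |a i₀| + |a i| ≤ (cdir a i₀ : ℤ) := by
      rw [Int.abs_eq_natAbs, Int.abs_eq_natAbs, cdir]
      push_cast
      have : ((a i).natAbs : ℤ) ≤ ∑ i, ((a i).natAbs : ℤ) := by exact_mod_cast h2
      push_cast at this
      linarith
    push_cast
    nlinarith [Int.natCast_nonneg B]

lemma card_le_fibres {n : ℕ} (a : Fin (n + 1) → ℤ) (i₀ : Fin (n + 1)) (ha : a i₀ ≠ 0) (B : ℕ)
    (hB : 1 ≤ B) (X : Finset (Fin (n + 1) → ℤ)) (hX : X ⊆ box (n + 1) B) (m : ℝ) (hm : 0 ≤ m)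
    (h : ∀ (y : Fin (n + 1) → ℤ) (T : Finset ℤ), (∀ t ∈ T, ∃ x ∈ X, x i₀ = t ∧
      (fun i => a i₀ * x i - a i * x i₀) = y) → (T.card : ℝ) ≤ m) :
    (X.card : ℝ) ≤ m * ((3 * cdir a i₀ : ℝ) ^ n * (B : ℝ) ^ n) := by
  classical
  set φ : (Fin (n + 1) → ℤ) → (Fin (n + 1) → ℤ) := fun x i => a i₀ * x i - a i * x i₀ with hφ
  have hmaps : ∀ x ∈ X, φ x ∈ ybox n i₀ (cdir a i₀ * B) := fun x hx =>
    mem_ybox_of_box a i₀ B x (hX hx)
  have h1 : (X.card : ℝ) = ∑ y ∈ ybox n i₀ (cdir a i₀ * B), ((X.filter fun x => φ x = y).card : ℝ) := by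
    exact_mod_cast Finset.card_eq_sum_card_fiberwise hmaps
  have h2 : ∀ y ∈ ybox n i₀ (cdir a i₀ * B), ((X.filter fun x => φ x = y).card : ℝ) ≤ m := by
    intro y _
    have h3 : ((X.filter fun x => φ x = y).image fun x => x i₀).card =
        (X.filter fun x => φ x = y).card := by
      refine Finset.card_image_of_injOn ?_
      intro x hx x' hx' hxx'
      rw [Finset.mem_coe, Finset.mem_filter] at hx hx'
      funext i
      have h4 := congrFun (hx.2.trans hx'.2.symm) i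
      simp only [hφ] at h4 hxx'
      rw [hxx'] at h4
      have h5 : a i₀ * x i = a i₀ * x' i := by linarith
      exact mul_left_cancel₀ ha h5
    rw [← h3]
    refine h y _ fun t ht => ?_
    obtain ⟨x, hx, hxt⟩ := Finset.mem_image.mp ht
    rw [Finset.mem_filter] at hx
    exact ⟨x, hx.1, hxt, hx.2⟩
  rw [h1]
  refine (Finset.sum_le_sum h2).trans ?_
  rw [Finset.sum_const, card_ybox, nsmul_eq_mul, mul_comm]
  refine mul_le_mul_of_nonneg_left ?_ hm
  rw [← mul_pow]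
  push_cast
  have h3 : 1 ≤ cdir a i₀ := by unfold cdir; omega
  have h4 : (1 : ℝ) ≤ cdir a i₀ := by exact_mod_cast h3
  have h5 : (1 : ℝ) ≤ B := by exact_mod_cast hB
  refine pow_le_pow_left₀ (by positivity) ?_ _
  nlinarith

lemma eval_fibre {n : ℕ} (G : MvPolynomial (Fin (n + 1)) ℤ) {k : ℕ} (hk : G.IsHomogeneous k)
    (a : Fin (n + 1) → ℤ) (i₀ : Fin (n + 1)) (x y : Fin (n + 1) → ℤ)
    (hxy : (fun i => a i₀ * x i - a i * x i₀) = y) :
    (onLine G y a).eval (x i₀) = a i₀ ^ k * eval x G := by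
  rw [eval_onLine]
  have h1 : (fun i => y i + x i₀ * a i) = fun i => a i₀ * x i := by
    funext i
    rw [← hxy]; ring
  rw [h1, aeval_scale G hk]
  rfl

theorem sparse_small_value {n : ℕ} (G : MvPolynomial (Fin (n + 1)) ℤ) {k : ℕ}
    (hk : G.IsHomogeneous k) (hG : G ≠ 0) {ε : ℝ} (hε : 0 < ε) (hε1 : ε ≤ 1) :
    Sparse (n + 1) (fun B x => eval x G ≠ 0 ∧
      ((eval x G).natAbs : ℝ) ≤ (B : ℝ) ^ ((k : ℝ) - ε)) := by
  classical
  rcases Nat.eq_zero_or_pos k with hk0 | hk1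
  · refine (Sparse.false (n + 1)).of_eventually 2 ?_
    rintro B x hB2 hB - ⟨h1, h2⟩
    have hB1 : (1 : ℝ) < B := by exact_mod_cast hB2
    have h3 : (B : ℝ) ^ ((k : ℝ) - ε) < 1 := by
      refine Real.rpow_lt_one_of_one_lt_of_neg hB1 ?_
      rw [hk0]; push_cast; linarith
    have h4 : (1 : ℝ) ≤ (eval x G).natAbs := by
      exact_mod_cast Int.natAbs_pos.mpr h1
    linarith
  obtain ⟨a, i₀, hGa, ha⟩ := exists_direction' G hk hk1 hG
  have hkR : (1 : ℝ) ≤ k := by exact_mod_cast hk1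
  have hkpos : (0 : ℝ) < k := by linarith
  refine ⟨ε / k, by positivity, (k * (2 * |(a i₀ : ℝ)| + 1)) * (3 * cdir a i₀ : ℝ) ^ n + 1,
    by positivity, fun B hB => ?_⟩
  have hB1 : (1 : ℝ) ≤ B := by exact_mod_cast hB
  have hBpos : (0 : ℝ) < B := by linarith
  set X := (box (n + 1) B).filter (fun x => eval x G ≠ 0 ∧
    ((eval x G).natAbs : ℝ) ≤ (B : ℝ) ^ ((k : ℝ) - ε)) with hX
  have hXcard : (Set.ncard {x | x ∈ box (n + 1) B ∧ (eval x G ≠ 0 ∧
      ((eval x G).natAbs : ℝ) ≤ (B : ℝ) ^ ((k : ℝ) - ε))} : ℝ) = X.card := by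
    rw [← Set.ncard_coe_finset]
    congr 2
    ext x; simp [hX]
  rw [hXcard]
  set β : ℝ := (B : ℝ) ^ (1 - ε / k) with hβ
  have hβ1 : 1 ≤ β := by
    refine Real.one_le_rpow hB1 ?_
    have : ε / k ≤ 1 := by rw [div_le_one hkpos]; linarith
    linarith
  have hfib := card_le_fibres a i₀ ha B hB X (Finset.filter_subset _ _)
    (k * (2 * (|(a i₀ : ℝ)| * β) + 1)) (by positivity) (by
      intro y T hT
      refine card_small_values (onLine G y a) hk1 (onLine_spec G hk y a).1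
        (by rw [(onLine_spec G hk y a).2]; exact hGa) (|(a i₀ : ℝ)| * β) (by positivity) T ?_
      intro t ht
      obtain ⟨x, hx, hxt, hxy⟩ := hT t ht
      rw [← hxt, eval_fibre G hk a i₀ x y hxy]
      rw [hX, Finset.mem_filter] at hx
      push_cast
      rw [abs_mul, abs_pow, mul_pow]
      refine mul_le_mul_of_nonneg_left ?_ (by positivity)
      have h1 : β ^ k = (B : ℝ) ^ ((k : ℝ) - ε) := by
        rw [hβ, ← Real.rpow_natCast, ← Real.rpow_mul hBpos.le]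
        congr 1
        field_simp
      rw [h1]
      have h2 := hx.2.2
      rwa [Nat.cast_natAbs, Int.cast_abs] at h2)
  refine hfib.trans ?_
  have h1 : (k * (2 * (|(a i₀ : ℝ)| * β) + 1) : ℝ) ≤ (k * (2 * |(a i₀ : ℝ)| + 1)) * β := by
    have : 0 ≤ |(a i₀ : ℝ)| := abs_nonneg _
    nlinarith
  have h2 : β * (B : ℝ) ^ n = (B : ℝ) ^ (((n + 1 : ℕ) : ℝ) - ε / k) := by
    rw [hβ, ← Real.rpow_natCast, ← Real.rpow_add hBpos]
    congr 1
    push_cast
    ring
  have h3 : 0 ≤ (B : ℝ) ^ (((n + 1 : ℕ) : ℝ) - ε / k) := by positivity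
  calc (k * (2 * (|(a i₀ : ℝ)| * β) + 1) : ℝ) * ((3 * cdir a i₀ : ℝ) ^ n * (B : ℝ) ^ n) ≤
        ((k * (2 * |(a i₀ : ℝ)| + 1)) * β) * ((3 * cdir a i₀ : ℝ) ^ n * (B : ℝ) ^ n) :=
        mul_le_mul_of_nonneg_right h1 (by positivity)
    _ = ((k * (2 * |(a i₀ : ℝ)| + 1)) * (3 * cdir a i₀ : ℝ) ^ n) * (β * (B : ℝ) ^ n) := by ring
    _ ≤ _ := by rw [h2, add_mul]; linarith

theorem sparse_padic {n : ℕ} (G : MvPolynomial (Fin (n + 1)) ℤ) {k : ℕ}
    (hk : G.IsHomogeneous k) (hG : G ≠ 0) (p : ℕ) (hp : p.Prime) {ε : ℝ} (hε : 0 < ε)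
    (hε1 : ε ≤ 1) :
    Sparse (n + 1) (fun B x => eval x G ≠ 0 ∧
      (B : ℝ) ^ ε < ((p ^ padicValInt p (eval x G) : ℕ) : ℝ)) := by
  classical
  rcases Nat.eq_zero_or_pos k with hk0 | hk1
  · -- constant
    have h0 : G.totalDegree = 0 := Nat.le_zero.mp (hk0 ▸ hk.totalDegree_le)
    obtain ⟨c, hc⟩ : ∃ c, G = C c := ⟨_, totalDegree_eq_zero_iff_eq_C.mp h0⟩
    obtain ⟨B₀, hB₀⟩ : ∃ B₀ : ℕ, ∀ B : ℕ, B₀ ≤ B →
        ((p ^ padicValInt p c : ℕ) : ℝ) ≤ (B : ℝ) ^ ε := by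
      have h1 : Filter.Tendsto (fun B : ℕ => (B : ℝ) ^ ε) Filter.atTop Filter.atTop :=
        (tendsto_rpow_atTop hε).comp tendsto_natCast_atTop_atTop
      exact Filter.eventually_atTop.mp (h1.eventually_ge_atTop _)
    refine (Sparse.false (n + 1)).of_eventually B₀ ?_
    rintro B x hBB - - ⟨h1, h2⟩
    rw [hc, eval_C] at h2
    exact absurd (hB₀ B hBB) (not_le.mpr h2)
  obtain ⟨a, i₀, hGa, ha⟩ := exists_direction' G hk hk1 hG
  set E : ℕ := (k + 1) * (k + 1) with hE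
  have hE0 : (0 : ℝ) < E := by rw [hE]; positivity
  have hE1 : (1 : ℝ) ≤ E := by
    have : 1 ≤ E := by rw [hE]; nlinarith
    exact_mod_cast this
  set e : ℝ := ε / (2 * E) with he
  have he0 : 0 < e := by positivity
  obtain ⟨B₀, hB₀⟩ : ∃ B₀ : ℕ, ∀ B : ℕ, B₀ ≤ B →
      ((eval a G).natAbs : ℝ) ≤ (B : ℝ) ^ (ε / 2) := by
    have h1 : Filter.Tendsto (fun B : ℕ => (B : ℝ) ^ (ε / 2)) Filter.atTop Filter.atTop :=
      (tendsto_rpow_atTop (by positivity)).comp tendsto_natCast_atTop_atTop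
    exact Filter.eventually_atTop.mp (h1.eventually_ge_atTop _)
  set Q : ℕ → (Fin (n + 1) → ℤ) → Prop := fun B x => B₀ ≤ B ∧ (eval x G ≠ 0 ∧
      (B : ℝ) ^ ε < ((p ^ padicValInt p (eval x G) : ℕ) : ℝ)) with hQ
  have hmain : Sparse (n + 1) Q := by
    refine ⟨e, he0, (5 * k + 1) * (3 * cdir a i₀ : ℝ) ^ n + 1, by positivity, fun B hB => ?_⟩
    have hB1 : (1 : ℝ) ≤ B := by exact_mod_cast hB
    have hBpos : (0 : ℝ) < B := by linarith
    by_cases hBB : B₀ ≤ B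
    swap
    · have h1 : {x | x ∈ box (n + 1) B ∧ Q B x} = ∅ := by
        ext x
        simp only [Set.mem_ofPred_eq, Set.mem_empty_iff_false, iff_false, not_and, hQ]
        intro _ h2
        exact absurd h2 hBB
      rw [h1, Set.ncard_empty, Nat.cast_zero]
      positivity
    set X := (box (n + 1) B).filter (fun x => Q B x) with hX
    have hXcard : (Set.ncard {x | x ∈ box (n + 1) B ∧ Q B x} : ℝ) = X.card := by
      rw [← Set.ncard_coe_finset]
      congr 2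
      ext x; simp [hX]
    rw [hXcard]
    set L : ℝ := (B : ℝ) ^ e with hL
    have hL1 : 1 ≤ L := Real.one_le_rpow hB1 (by positivity)
    obtain ⟨hℓ1, hℓ2, hℓ3⟩ := floor_bounds hL1
    set ℓ := ⌊L⌋₊ with hℓ
    -- the modulus
    have hex : ∃ f : ℕ, (B : ℝ) ^ ε < ((p ^ f : ℕ) : ℝ) := by
      obtain ⟨f, hf⟩ := pow_unbounded_of_one_lt ((B : ℝ) ^ ε)
        (show (1 : ℝ) < p by exact_mod_cast hp.one_lt)
      exact ⟨f, by push_cast; exact hf⟩
    set f := Nat.find hex with hf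
    have hfs := Nat.find_spec hex
    rw [← hf] at hfs
    have hlt : ∀ y, ((onLine G y a).coeff k).natAbs * ℓ ^ E < p ^ f := by
      intro y
      rw [(onLine_spec G hk y a).2]
      have h2 : aeval a G = eval a G := rfl
      rw [h2]
      have h3 : (((eval a G).natAbs * ℓ ^ E : ℕ) : ℝ) ≤ (B : ℝ) ^ ε := by
        push_cast
        have h4 : (ℓ : ℝ) ^ E ≤ (B : ℝ) ^ (ε / 2) := by
          calc (ℓ : ℝ) ^ E ≤ L ^ E := pow_le_pow_left₀ (by positivity) hℓ2 _
            _ = (B : ℝ) ^ (ε / 2) := by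
                rw [hL, ← Real.rpow_natCast, ← Real.rpow_mul hBpos.le]
                congr 1
                rw [he]
                field_simp
        have h5 : (B : ℝ) ^ ε = (B : ℝ) ^ (ε / 2) * (B : ℝ) ^ (ε / 2) := by
          rw [← Real.rpow_add hBpos]; congr 1; ring
        rw [h5]
        exact mul_le_mul (hB₀ B hBB) h4 (by positivity) (by positivity)
      exact_mod_cast lt_of_le_of_lt h3 hfs
    have hfib := card_le_fibres a i₀ ha B hB X (Finset.filter_subset _ _)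
      ((k * (2 * B / ℓ + 1) : ℕ) : ℝ) (by positivity) (by
        intro y T hT
        have h1 : T ⊆ (Finset.Icc (-(B : ℤ)) B).filter fun t =>
            ((p ^ f : ℕ) : ℤ) ∣ (onLine G y a).eval t := by
          intro t ht
          obtain ⟨x, hx, hxt, hxy⟩ := hT t ht
          rw [hX, Finset.mem_filter] at hx
          obtain ⟨hxb, -, hx0, hxp⟩ := hx
          rw [Finset.mem_filter, Finset.mem_Icc, ← abs_le, ← hxt]
          refine ⟨mem_box.mp hxb i₀, ?_⟩
          rw [eval_fibre G hk a i₀ x y hxy]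
          refine Dvd.dvd.mul_left ?_ _
          have h2 : f ≤ padicValInt p (eval x G) := Nat.find_min' hex hxp
          push_cast
          exact (pow_dvd_pow _ h2).trans (padicValInt_dvd _)
        have h2 := (Finset.card_le_card h1).trans (card_roots_mod_le (onLine G y a) k
          (onLine_spec G hk y a).1 (by rw [(onLine_spec G hk y a).2]; exact hGa) (p ^ f) ℓ hℓ1
          (hlt y) B)
        exact_mod_cast h2)
    refine hfib.trans ?_
    have hBe : (1 : ℝ) ≤ (B : ℝ) ^ (1 - e) := by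
      refine Real.one_le_rpow hB1 ?_
      rw [he]
      have : ε / (2 * E) ≤ 1 := by
        rw [div_le_one (by positivity)]
        nlinarith
      linarith
    have h2 : ((k * (2 * B / ℓ + 1) : ℕ) : ℝ) ≤ (5 * k + 1) * (B : ℝ) ^ (1 - e) := by
      push_cast
      have h3 : ((2 * B / ℓ : ℕ) : ℝ) ≤ 4 * (B : ℝ) ^ (1 - e) := by
        refine (Nat.cast_div_le).trans ?_
        push_cast
        have hℓ0 : (0 : ℝ) < ℓ := by exact_mod_cast hℓ1
        rw [div_le_iff₀ hℓ0]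
        have h4 : (B : ℝ) = (B : ℝ) ^ (1 - e) * L := by
          rw [hL, ← Real.rpow_add hBpos]
          have : 1 - e + e = 1 := by ring
          rw [this, Real.rpow_one]
        calc 2 * (B : ℝ) = 2 * ((B : ℝ) ^ (1 - e) * L) := by rw [← h4]
          _ ≤ 2 * ((B : ℝ) ^ (1 - e) * (2 * ℓ)) := by gcongr
          _ = _ := by ring
      push_cast at h3
      have hk0 : (0 : ℝ) ≤ k := Nat.cast_nonneg k
      nlinarith
    have h3 : (B : ℝ) ^ (1 - e) * (B : ℝ) ^ n = (B : ℝ) ^ (((n + 1 : ℕ) : ℝ) - e) := by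
      rw [← Real.rpow_natCast, ← Real.rpow_add hBpos]
      congr 1
      push_cast
      ring
    have h4 : 0 ≤ (B : ℝ) ^ (((n + 1 : ℕ) : ℝ) - e) := by positivity
    calc ((k * (2 * B / ℓ + 1) : ℕ) : ℝ) * ((3 * cdir a i₀ : ℝ) ^ n * (B : ℝ) ^ n) ≤
          ((5 * k + 1) * (B : ℝ) ^ (1 - e)) * ((3 * cdir a i₀ : ℝ) ^ n * (B : ℝ) ^ n) :=
          mul_le_mul_of_nonneg_right h2 (by positivity)
      _ = ((5 * k + 1) * (3 * cdir a i₀ : ℝ) ^ n) * ((B : ℝ) ^ (1 - e) * (B : ℝ) ^ n) := by ring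
      _ ≤ _ := by rw [h3, add_mul]; linarith
  refine hmain.of_eventually B₀ ?_
  intro B x hBB _ _ h
  exact ⟨hBB, h⟩

end Pool.Agent.TH910.Voj
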