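import Pool.Agent.TH910.Voj.Main
import Pool.Agent.TH910.Voj.DiscNorm
import Pool.Agent.TH910.Voj.NormModel
import Pool.Agent.TH910.Voj.Prox

set_option autoImplicit false

/-!
Points of degree `N` over almost all rational points, for an arbitrary normal cover of degree `N`.
-/

namespace Pool.Agent.TH910.Voj

open MvPolynomial NumberField Pool.Agent.H813R3.Voj

/-- the proximity function of the divisor `G = 0` (`G` a form of degree `d`) with respect to the
real place and the primes in `S` -/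
noncomputable def proximity {n : ℕ} (G : MvPolynomial (Fin n) ℤ) (d : ℕ) (S : Finset ℕ)
    (x : Fin n → ℤ) : ℝ :=
  d * Real.log (Finset.univ.sup fun i => (x i).natAbs : ℕ) - Real.log |(eval x G : ℝ)| +
    ∑ p ∈ S, padicValInt p (eval x G) * Real.log p

lemma sum_good_le_norm {K : Type} [Field K] [NumberField K] {q : ℕ} (a b : Fin q → ℤ)
    (s : Fin q → ℕ) (ha : ∀ j, a j ≠ 0) (hab : ∀ i j, i ≠ j → a i ∣ b j)
    (h : ∀ j, ∀ p ∈ good (a j) (b j), ∃ ζ : 𝓞 K,
      (∀ 𝔮 : Ideal (𝓞 K), 𝔮.IsPrime → (p : 𝓞 K) ∈ 𝔮 → ζ ∈ 𝔮) ∧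
        ¬ (p : ℤ) ^ (s j + 1) ∣ Algebra.norm ℤ ζ) :
    ∑ j, (1 - (s j : ℝ) / Module.finrank ℚ K) * ∑ p ∈ good (a j) (b j), Real.log p ≤
      Real.log |(NumberField.discr K : ℝ)| / Module.finrank ℚ K := by
  classical
  have hdisj : ∀ i j : Fin q, ∀ p, p ∈ good (a i) (b i) → p ∈ good (a j) (b j) → i = j := by
    intro i j p hi hj
    by_contra hne
    rw [mem_good (ha i)] at hi
    rw [mem_good (ha j)] at hj
    exact hj.2.2.2 (hi.2.1.trans (hab i j hne))
  set f : ℕ → ℕ := fun p => if h : ∃ j, p ∈ good (a j) (b j) then s h.choose else 1 with hf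
  have hfj : ∀ j, ∀ p ∈ good (a j) (b j), f p = s j := by
    intro j p hp
    have hex : ∃ j, p ∈ good (a j) (b j) := ⟨j, hp⟩
    rw [hf]
    simp only [hex, dif_pos]
    rw [hdisj _ _ p hex.choose_spec hp]
  set S := Finset.univ.biUnion fun j => good (a j) (b j) with hS
  have h1 := sum_log_le_norm (K := K) S ?_ f ?_
  · refine le_trans (le_of_eq ?_) h1
    rw [hS, Finset.sum_biUnion]
    · refine Finset.sum_congr rfl fun j _ => ?_
      rw [Finset.mul_sum]
      exact Finset.sum_congr rfl fun p hp => by rw [hfj j p hp]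
    · intro i _ j _ hij
      rw [Function.onFun, Finset.disjoint_left]
      intro p hpi hpj
      exact hij (hdisj i j p hpi hpj)
  · intro p hp
    rw [hS, Finset.mem_biUnion] at hp
    obtain ⟨j, -, hj⟩ := hp
    exact ((mem_good (ha j)).mp hj).1
  · intro p hp
    rw [hS, Finset.mem_biUnion] at hp
    obtain ⟨j, -, hj⟩ := hp
    rw [hfj j p hj]
    exact h j p hj

lemma proximity_le {n : ℕ} (G : MvPolynomial (Fin (n + 1)) ℤ) (d : ℕ) (S : Finset ℕ)
    (ε : ℝ) (B : ℕ) (hB : 1 ≤ B) (x : Fin (n + 1) → ℤ) (hx : x ∈ box (n + 1) B)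
    (h0 : eval x G ≠ 0)
    (h1 : ¬ ((eval x G).natAbs : ℝ) ≤ (B : ℝ) ^ ((d : ℝ) - ε))
    (h2 : ∀ p ∈ S, ¬ (B : ℝ) ^ ε < ((p ^ padicValInt p (eval x G) : ℕ) : ℝ)) (hS : ∀ p ∈ S, p.Prime) :
    proximity G d S x ≤ (S.card + 1) * ε * Real.log B := by
  have hB1 : (1 : ℝ) ≤ B := by exact_mod_cast hB
  have hBpos : (0 : ℝ) < B := by linarith
  have hlogB : 0 ≤ Real.log B := Real.log_nonneg hB1
  unfold proximity
  have e1 : (d : ℝ) * Real.log (Finset.univ.sup fun i => (x i).natAbs : ℕ) ≤ d * Real.log B := by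
    refine mul_le_mul_of_nonneg_left ?_ (Nat.cast_nonneg d)
    rcases Nat.eq_zero_or_pos (Finset.univ.sup fun i => (x i).natAbs) with h | h
    · rw [h, Nat.cast_zero, Real.log_zero]; exact hlogB
    · refine Real.log_le_log (by exact_mod_cast h) ?_
      have : (Finset.univ.sup fun i => (x i).natAbs) ≤ B := by
        refine Finset.sup_le fun i _ => ?_
        have h3 := mem_box.mp hx i
        rw [Int.abs_eq_natAbs] at h3
        exact_mod_cast h3
      exact_mod_cast this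
  have e2 : ((d : ℝ) - ε) * Real.log B ≤ Real.log |(eval x G : ℝ)| := by
    rw [← Real.log_rpow hBpos]
    refine Real.log_le_log (by positivity) ?_
    have := (not_le.mp h1).le
    rwa [Nat.cast_natAbs, Int.cast_abs] at this
  have e3 : ∑ p ∈ S, (padicValInt p (eval x G) : ℝ) * Real.log p ≤ S.card * (ε * Real.log B) := by
    rw [← nsmul_eq_mul, ← Finset.sum_const]
    refine Finset.sum_le_sum fun p hp => ?_
    have h3 := not_lt.mp (h2 p hp)
    have hpp : (0 : ℝ) < p := by exact_mod_cast (hS p hp).pos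
    push_cast at h3
    have h4 := Real.log_le_log (by positivity) h3
    rwa [Real.log_pow, Real.log_rpow hBpos] at h4
  linarith

theorem main_norm {n : ℕ} {A : Type} [CommRing A] [IsDomain A] [IsIntegrallyClosed A]
    [Algebra (MvPolynomial (Fin (n + 1)) ℚ) A] [Module.Finite (MvPolynomial (Fin (n + 1)) ℚ) A]
    [FaithfulSMul (MvPolynomial (Fin (n + 1)) ℚ) A] (N : ℕ)
    (hN : Module.finrank (MvPolynomial (Fin (n + 1)) ℚ) A = N) {q : ℕ}
    (F : Fin q → MvPolynomial (Fin (n + 1)) ℤ) (k s : Fin q → ℕ)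
    (hhom : ∀ j, (F j).IsHomogeneous (k j)) (hirr : ∀ j, Irreducible (toQ (F j)))
    (hdist : ∀ i j, i ≠ j → ¬ Associated (toQ (F i)) (toQ (F j)))
    (hfew : ∀ j, k j ≤ 2 ∨ FewCoincidences (F j) (k j))
    (hsN : ∀ j, s j ≤ N) (hs : ∀ j, DegreeLE (A := A) (toQ (F j)) (s j))
    (G : MvPolynomial (Fin (n + 1)) ℤ) (d : ℕ) (hG : G.IsHomogeneous d) (hG0 : G ≠ 0)
    (S : Finset ℕ) (hS : ∀ p ∈ S, p.Prime)
    (κ : ℝ) (hκ : κ < ∑ j, (k j : ℝ) * (1 - (s j : ℝ) / N)) :
    Sparse (n + 1) (fun B x => ∃ (K : Type) (_ : Field K) (_ : NumberField K) (φ : A →+* K),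
      Function.Surjective φ ∧ Module.finrank ℚ K = N ∧
      (∀ i, φ (algebraMap (MvPolynomial (Fin (n + 1)) ℚ) A (X i)) = x i) ∧
      Real.log |(NumberField.discr K : ℝ)| / N < κ * Real.log B + proximity G d S x) := by
  classical
  have hdata := fun j => exists_norm_data (A := A) (F j) (hirr j) (s j) N hN (hs j)
  choose g hg hspec using hdata
  set H : Fin q → MvPolynomial (Fin (n + 1)) ℤ := fun j => g j * ∏ i ∈ Finset.univ.erase j, F i
    with hH
  have hHdvd : ∀ j, ¬ toQ (F j) ∣ toQ (H j) := by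
    intro j hdvd
    rw [hH, RingHom.map_mul, map_prod] at hdvd
    rcases (hirr j).prime.dvd_or_dvd hdvd with h1 | h1
    · exact hg j h1
    · obtain ⟨i, hi, h2⟩ := ((hirr j).prime.dvd_finsetProd_iff _).mp h1
      exact hdist j i (Finset.ne_of_mem_erase hi).symm ((hirr j).associated_of_dvd (hirr i) h2)
  have hF0 : ∀ j, F j ≠ 0 := by
    intro j h0
    exact (hirr j).ne_zero (by rw [h0, map_zero])
  have hfew' : ∀ j, FewCoincidences (F j) (k j) := fun j => (hfew j).elim
    (fun h => few_of_le_two (F j) h (hhom j) (hirr j)) id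
  set Δ : ℝ := (∑ j, (k j : ℝ) * (1 - (s j : ℝ) / N)) - κ with hΔ
  have hΔ0 : 0 < Δ := by rw [hΔ]; linarith
  set θ : ℝ := Δ / (12 * (q + 1)) with hθ
  have hθ0 : 0 < θ := by positivity
  set ε : ℝ := min 1 (Δ / (4 * (S.card + 1))) with hε
  have hε0 : 0 < ε := lt_min one_pos (by positivity)
  have hε1 : ε ≤ 1 := min_le_left _ _
  have hεS : (S.card + 1) * ε ≤ Δ / 4 := by
    have h1 : ε ≤ Δ / (4 * (S.card + 1)) := min_le_right _ _
    have h2 : (0 : ℝ) < S.card + 1 := by positivity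
    calc (S.card + 1) * ε ≤ (S.card + 1) * (Δ / (4 * (S.card + 1))) :=
          mul_le_mul_of_nonneg_left h1 h2.le
      _ = Δ / 4 := by field_simp
  have hval := fun j => exists_eval_bound (F j) (hhom j).totalDegree_le
  choose c hc1 hc using hval
  obtain ⟨B₀, hB₀⟩ : ∃ B₀ : ℕ, ∀ B : ℕ, B₀ ≤ B → ∑ j, Real.log (c j) ≤ Δ / 2 * Real.log B := by
    have h1 : Filter.Tendsto (fun B : ℕ => Δ / 2 * Real.log B) Filter.atTop Filter.atTop :=
      (Real.tendsto_log_atTop.comp tendsto_natCast_atTop_atTop).const_mul_atTop (by positivity)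
    exact Filter.eventually_atTop.mp (h1.eventually_ge_atTop (∑ j, Real.log (c j)))
  have hsp : ∀ j, Sparse (n + 1) (fun B x => eval x (F j) = 0 ∨
      ((eval x (F j) ≠ 0 ∧ (rd (eval x (F j)).natAbs : ℝ) ≤ (B : ℝ) ^ ((k j : ℝ) - θ)) ∨
        (eval x (F j) ≠ 0 ∧ (B : ℝ) ^ θ < rd (Int.gcd (eval x (F j)) (eval x (H j)))))) :=
    fun j => (sparse_zeros (F j) (hF0 j)).or
      ((sparse_small_rad (F j) (hhom j).totalDegree_le (hfew' j) hθ0).or
        (sparse_gcd (F j) (H j) (hhom j) (hirr j) (hHdvd j) hθ0))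
  have hspG : Sparse (n + 1) (fun B x => eval x G = 0 ∨ ((eval x G ≠ 0 ∧
      ((eval x G).natAbs : ℝ) ≤ (B : ℝ) ^ ((d : ℝ) - ε)) ∨ (∃ l : Fin S.card, eval x G ≠ 0 ∧
        (B : ℝ) ^ ε < (((S.equivFin.symm l : ℕ) ^
          padicValInt (S.equivFin.symm l : ℕ) (eval x G) : ℕ) : ℝ)))) :=
    (sparse_zeros G hG0).or ((sparse_small_value G hG hG0 hε0 hε1).or
      (Sparse.exists_fin fun l => sparse_padic G hG hG0 _
        (hS _ (S.equivFin.symm l).2) hε0 hε1))
  refine ((Sparse.exists_fin hsp).or hspG).of_eventually B₀ ?_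
  rintro B x hBB hB hx ⟨K, _, _, φ, hφs, hK, hφ, hlt⟩
  by_contra hcon
  rw [not_or] at hcon
  obtain ⟨hcon, hconG⟩ := hcon
  push Not at hcon
  have hB1 : (1 : ℝ) ≤ B := by exact_mod_cast hB
  have hBpos : (0 : ℝ) < B := by linarith
  have hlogB : 0 ≤ Real.log B := Real.log_nonneg hB1
  have hprox : proximity G d S x ≤ (S.card + 1) * ε * Real.log B := by
    rw [not_or, not_or] at hconG
    obtain ⟨h0, h1, h2⟩ := hconG
    refine proximity_le G d S ε B hB x hx h0 (fun h => h1 ⟨h0, h⟩) ?_ hS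
    intro p hp hlt'
    refine h2 ⟨S.equivFin ⟨p, hp⟩, h0, ?_⟩
    rw [Equiv.symm_apply_apply]
    exact hlt'
  have ha : ∀ j, eval x (F j) ≠ 0 := fun j => (hcon j).1
  have hab : ∀ i j, i ≠ j → eval x (F i) ∣ eval x (H j) := by
    intro i j hij
    rw [hH]
    simp only [map_mul, map_prod]
    refine Dvd.dvd.mul_left ?_ _
    exact Finset.dvd_prod_of_mem (fun i => eval x (F i))
      (Finset.mem_erase.mpr ⟨hij, Finset.mem_univ i⟩)
  have hsum := sum_good_le_norm (K := K) (fun j => eval x (F j)) (fun j => eval x (H j)) s ha hab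
    (by
      intro j p hp
      rw [mem_good (ha j)] at hp
      refine hspec j K φ x hφs hK hφ p hp.1 hp.2.1 hp.2.2.1 ?_
      intro hdvd
      apply hp.2.2.2
      rw [hH]
      simp only [map_mul]
      exact hdvd.mul_right _)
  rw [hK] at hsum
  have hN0 : (0 : ℝ) < N := by
    rw [← hK]
    exact_mod_cast Module.finrank_pos
  have hs' : ∀ j, 0 ≤ 1 - (s j : ℝ) / N ∧ 1 - (s j : ℝ) / N ≤ 1 := by
    intro j
    have h1 : (s j : ℝ) ≤ N := by exact_mod_cast hsN j
    have h2 : (s j : ℝ) / N ≤ 1 := by rw [div_le_one hN0]; exact h1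
    have h3 : 0 ≤ (s j : ℝ) / N := by positivity
    constructor <;> linarith
  have hj : ∀ j, ((k j : ℝ) - 3 * θ) * Real.log B - Real.log (c j) ≤
      ∑ p ∈ good (eval x (F j)) (eval x (H j)), Real.log p := by
    intro j
    refine le_trans ?_ (log_good (ha j))
    obtain ⟨-, h1, h2⟩ := hcon j
    have h3 := h1 (ha j)
    have h4 := h2 (ha j)
    have hrd : (0 : ℝ) < rd (eval x (F j)).natAbs := by exact_mod_cast rd_pos _
    have e1 : ((k j : ℝ) - θ) * Real.log B ≤ Real.log (rd (eval x (F j)).natAbs) := by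
      rw [← Real.log_rpow hBpos]
      exact Real.log_le_log (by positivity) h3.le
    have e2 : Real.log (rd (Int.gcd (eval x (F j)) (eval x (H j)))) ≤ θ * Real.log B := by
      rw [← Real.log_rpow hBpos]
      exact Real.log_le_log (by exact_mod_cast rd_pos _) h4
    have e3 : Real.log ((eval x (F j)).natAbs : ℝ) ≤ Real.log (c j) + k j * Real.log B := by
      have h5 : ((eval x (F j)).natAbs : ℝ) ≤ c j * (B : ℝ) ^ (k j) := by
        exact_mod_cast hc j B hB x hx
      have h6 : (0 : ℝ) < c j := by exact_mod_cast hc1 j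
      have h7 : (0 : ℝ) < ((eval x (F j)).natAbs : ℝ) := by
        exact_mod_cast Int.natAbs_pos.mpr (ha j)
      refine (Real.log_le_log h7 h5).trans (le_of_eq ?_)
      rw [Real.log_mul h6.ne' (by positivity), Real.log_pow]
    linarith
  have htot : (∑ j, (k j : ℝ) * (1 - (s j : ℝ) / N)) * Real.log B - 3 * θ * q * Real.log B -
      ∑ j, Real.log (c j) ≤ ∑ j, (1 - (s j : ℝ) / N) *
        ∑ p ∈ good (eval x (F j)) (eval x (H j)), Real.log p := by
    have h1 : ∀ j, (k j : ℝ) * (1 - (s j : ℝ) / N) * Real.log B - 3 * θ * Real.log B -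
        Real.log (c j) ≤ (1 - (s j : ℝ) / N) *
          ∑ p ∈ good (eval x (F j)) (eval x (H j)), Real.log p := by
      intro j
      have h2 := mul_le_mul_of_nonneg_left (hj j) (hs' j).1
      refine le_trans ?_ h2
      have h3 : 0 ≤ Real.log (c j) := Real.log_natCast_nonneg _
      have h4 : 0 ≤ 3 * θ * Real.log B := by positivity
      have h5 := (hs' j).2
      nlinarith
    refine le_trans (le_of_eq ?_) (Finset.sum_le_sum fun j _ => h1 j)
    rw [Finset.sum_sub_distrib, Finset.sum_sub_distrib, Finset.sum_mul, Finset.sum_const,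
      Finset.card_univ, Fintype.card_fin, nsmul_eq_mul]
    ring
  have h8 : 3 * θ * q ≤ Δ / 4 := by
    rw [hθ]
    have hq : (0 : ℝ) ≤ q := Nat.cast_nonneg q
    rw [← mul_div_assoc, div_mul_eq_mul_div, div_le_div_iff₀ (by positivity) (by norm_num)]
    nlinarith
  have h9 := hB₀ B hBB
  have h10 : 3 * θ * q * Real.log B ≤ Δ / 4 * Real.log B := mul_le_mul_of_nonneg_right h8 hlogB
  have h12 : (S.card + 1) * ε * Real.log B ≤ Δ / 4 * Real.log B :=
    mul_le_mul_of_nonneg_right hεS hlogB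
  have h11 : (∑ j, (k j : ℝ) * (1 - (s j : ℝ) / N)) = κ + Δ := by rw [hΔ]; ring
  rw [h11] at htot
  linarith

end Pool.Agent.TH910.Voj
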