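import Pool.Agent.TH910.Voj.Model
import Pool.Agent.TH910.Voj.Count
import Pool.Agent.TH910.Voj.RadCount
import Pool.Agent.H510R2.Div

set_option autoImplicit false

/-!
Irreducible forms of degree one and two have few coincidences.
-/

namespace Pool.Agent.TH910.Voj

open MvPolynomial

/-! ### counting with linear equations -/

/-- vectors whose coordinates in `A` vanish -/
noncomputable def zbox (n : ℕ) (A : Finset (Fin n)) (B : ℕ) : Finset (Fin n → ℤ) :=
  Fintype.piFinset fun i => if i ∈ A then {0} else Finset.Icc (-(B : ℤ)) B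

lemma card_zbox (n : ℕ) (A : Finset (Fin n)) (B : ℕ) :
    (zbox n A B).card = (2 * B + 1) ^ (n - A.card) := by
  classical
  unfold zbox
  rw [Fintype.card_piFinset]
  have h1 : ∀ i : Fin n, (if i ∈ A then ({0} : Finset ℤ) else Finset.Icc (-(B : ℤ)) B).card =
      if i ∈ A then 1 else 2 * B + 1 := by
    intro i
    split_ifs
    · simp
    · exact card_Icc_int B
  rw [Finset.prod_congr rfl fun i _ => h1 i, Finset.prod_ite, Finset.prod_const_one, one_mul,
    Finset.prod_const]
  congr 1
  have h2 : (Finset.univ.filter fun i => i ∉ A) = Aᶜ := by ext; simp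
  rw [h2, Finset.card_compl, Fintype.card_fin]

lemma card_le_of_agree {n B : ℕ} (A : Finset (Fin n)) (S : Finset (Fin n → ℤ))
    (hS : S ⊆ box n B)
    (h : ∀ u ∈ S, ∀ u' ∈ S, (∀ i, i ∉ A → u i = u' i) → u = u') :
    S.card ≤ (2 * B + 1) ^ (n - A.card) := by
  classical
  rw [← card_zbox n A B]
  refine Finset.card_le_card_of_injOn (fun u i => if i ∈ A then 0 else u i) ?_ ?_
  · intro u hu
    have hub := mem_box.mp (hS hu)
    unfold zbox
    rw [Finset.mem_coe, Fintype.mem_piFinset]
    intro i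
    by_cases hi : i ∈ A
    · simp [hi]
    · simp only [hi, if_false, Finset.mem_Icc]
      exact abs_le.mp (hub i)
  · intro u hu u' hu' huu'
    refine h u hu u' hu' fun i hi => ?_
    have := congrFun huu' i
    simpa [hi] using this

lemma card_one_eq {n B : ℕ} (c : Fin n → ℤ) (a : Fin n) (ha : c a ≠ 0) :
    ((box n B).filter fun u => ∑ i, c i * u i = 0).card ≤ (2 * B + 1) ^ (n - 1) := by
  classical
  refine (card_le_of_agree {a} _ (Finset.filter_subset _ _) ?_).trans (by simp)
  intro u hu u' hu' h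
  rw [Finset.mem_filter] at hu hu'
  have h1 : ∑ i, c i * (u i - u' i) = 0 := by
    simp only [mul_sub, Finset.sum_sub_distrib, hu.2, hu'.2, sub_zero]
  have h2 : ∀ i, i ≠ a → c i * (u i - u' i) = 0 := fun i hi => by
    rw [h i (by simpa using hi)]; ring
  rw [Fintype.sum_eq_single a h2] at h1
  funext i
  by_cases hi : i = a
  · rw [hi]
    rcases mul_eq_zero.mp h1 with h3 | h3
    · exact absurd h3 ha
    · linarith
  · exact h i (by simpa using hi)

lemma card_two_eq {n B : ℕ} (c e : Fin n → ℤ) (a p : Fin n) (hap : a ≠ p) (ha : c a ≠ 0)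
    (hea : e a = 0) (hep : e p ≠ 0) :
    ((box n B).filter fun u => ∑ i, c i * u i = 0 ∧ ∑ i, e i * u i = 0).card ≤
      (2 * B + 1) ^ (n - 2) := by
  classical
  refine (card_le_of_agree {a, p} _ (Finset.filter_subset _ _) ?_).trans
    (by rw [Finset.card_pair hap])
  intro u hu u' hu' h
  rw [Finset.mem_filter] at hu hu'
  have h1 : ∑ i, e i * (u i - u' i) = 0 := by
    simp only [mul_sub, Finset.sum_sub_distrib, hu.2.2, hu'.2.2, sub_zero]
  have h2 : ∀ i, i ≠ p → e i * (u i - u' i) = 0 := fun i hi => by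
    by_cases hia : i = a
    · rw [hia, hea, zero_mul]
    · rw [h i (by simp [hi, hia])]; ring
  rw [Fintype.sum_eq_single p h2] at h1
  have hp : u p = u' p := by
    rcases mul_eq_zero.mp h1 with h3 | h3
    · exact absurd h3 hep
    · linarith
  have h3 : ∑ i, c i * (u i - u' i) = 0 := by
    simp only [mul_sub, Finset.sum_sub_distrib, hu.2.1, hu'.2.1, sub_zero]
  have h4 : ∀ i, i ≠ a → c i * (u i - u' i) = 0 := fun i hi => by
    by_cases hip : i = p
    · rw [hip, hp]; ring
    · rw [h i (by simp [hi, hip])]; ring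
  rw [Fintype.sum_eq_single a h4] at h3
  funext i
  by_cases hi : i = a
  · rw [hi]
    rcases mul_eq_zero.mp h3 with h5 | h5
    · exact absurd h5 ha
    · linarith
  · by_cases hip : i = p
    · rw [hip, hp]
    · exact h i (by simp [hi, hip])

/-- `u` on a hyperplane, and `u`, `w` orthogonal for a non-zero matrix whose row `a` vanishes -/
lemma card_degenerate {n B : ℕ} (c : Fin n → ℤ) (M : Fin n → Fin n → ℤ) (a p q : Fin n)
    (ha : c a ≠ 0) (hMa : ∀ j, M a j = 0) (hM : M p q ≠ 0) :
    (((box n B) ×ˢ (box n B)).filter fun z => ∑ i, c i * z.1 i = 0 ∧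
      ∑ i, ∑ j, M i j * z.1 i * z.2 j = 0).card ≤ 2 * (2 * B + 1) ^ (2 * (n - 1)) := by
  classical
  have hap : a ≠ p := by
    rintro rfl
    exact hM (hMa q)
  have hn2 : 2 ≤ n := by
    have h1 := a.2
    have h2 := p.2
    have h3 : (a : ℕ) ≠ p := fun h => hap (Fin.ext h)
    omega
  set S := ((box n B) ×ˢ (box n B)).filter fun z => ∑ i, c i * z.1 i = 0 ∧
      ∑ i, ∑ j, M i j * z.1 i * z.2 j = 0 with hS
  set U := (box n B).filter fun u => ∑ i, c i * u i = 0 with hU
  set W := (box n B).filter fun w => ∑ j, M p j * w j = 0 with hW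
  have hUc : U.card ≤ (2 * B + 1) ^ (n - 1) := card_one_eq c a ha
  have hWc : W.card ≤ (2 * B + 1) ^ (n - 1) := card_one_eq (M p) q hM
  have h1 : S ⊆ (U ×ˢ W) ∪ (S.filter fun z => z.2 ∉ W) := by
    intro z hz
    rw [Finset.mem_union]
    by_cases hzW : z.2 ∈ W
    · left
      rw [Finset.mem_product]
      refine ⟨?_, hzW⟩
      rw [hS, Finset.mem_filter, Finset.mem_product] at hz
      rw [hU, Finset.mem_filter]
      exact ⟨hz.1.1, hz.2.1⟩
    · right
      rw [Finset.mem_filter]
      exact ⟨hz, hzW⟩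
  have h2 : (S.filter fun z => z.2 ∉ W).card ≤ (2 * B + 1) ^ (n - 2) * (box n B).card := by
    refine Finset.card_le_mul_card_image_of_maps_to (f := fun z => z.2) ?_ _ ?_
    · intro z hz
      rw [Finset.mem_filter, hS, Finset.mem_filter, Finset.mem_product] at hz
      exact hz.1.1.2
    · intro w hw
      by_cases hwW : w ∈ W
      · rw [Finset.card_eq_zero.mpr]
        · exact Nat.zero_le _
        · rw [Finset.filter_eq_empty_iff]
          rintro z hz rfl
          rw [Finset.mem_filter] at hz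
          exact hz.2 hwW
      · have hne : ∑ j, M p j * w j ≠ 0 := by
          intro h
          exact hwW (by rw [hW, Finset.mem_filter]; exact ⟨hw, h⟩)
        refine le_trans ?_ (card_two_eq c (fun i => ∑ j, M i j * w j) a p hap ha (B := B) ?_ hne)
        · refine Finset.card_le_card_of_injOn (fun z => z.1) ?_ ?_
          · intro z hz
            rw [Finset.mem_coe, Finset.mem_filter, Finset.mem_filter, hS, Finset.mem_filter,
              Finset.mem_product] at hz
            obtain ⟨⟨⟨hzb, hz1, hz2⟩, -⟩, rfl⟩ := hz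
            rw [Finset.mem_coe, Finset.mem_filter]
            refine ⟨hzb.1, hz1, ?_⟩
            rw [← hz2]
            refine Finset.sum_congr rfl fun i _ => ?_
            rw [Finset.sum_mul]
            exact Finset.sum_congr rfl fun j _ => by ring
          · intro z hz z' hz' hzz'
            rw [Finset.mem_coe, Finset.mem_filter] at hz hz'
            exact Prod.ext hzz' (hz.2.trans hz'.2.symm)
        · exact Finset.sum_eq_zero fun j _ => by rw [hMa j, zero_mul]
  have h3 : S.card ≤ (U ×ˢ W).card + (S.filter fun z => z.2 ∉ W).card :=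
    (Finset.card_le_card h1).trans (Finset.card_union_le _ _)
  rw [Finset.card_product] at h3
  rw [card_box] at h2
  have h4 : (2 * B + 1) ^ (n - 2) * (2 * B + 1) ^ n = (2 * B + 1) ^ (2 * (n - 1)) := by
    rw [← pow_add]; congr 1; omega
  have h5 : U.card * W.card ≤ (2 * B + 1) ^ (2 * (n - 1)) := by
    calc U.card * W.card ≤ (2 * B + 1) ^ (n - 1) * (2 * B + 1) ^ (n - 1) :=
          Nat.mul_le_mul hUc hWc
      _ = _ := by rw [← pow_add]; congr 1; omega
  rw [h4] at h2
  omega

/-- the number of zeros of a bilinear form of rank at least two -/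
theorem card_bilinear {n : ℕ} (M : Fin n → Fin n → ℤ) (a b p q : Fin n) (hab : M a b ≠ 0)
    (hpq : M a b * M p q - M p b * M a q ≠ 0) {δ : ℝ} (hδ : 0 < δ) :
    ∃ C : ℝ, 0 < C ∧ ∀ B : ℕ, 1 ≤ B →
      ((((box n B) ×ˢ (box n B)).filter fun z => ∑ i, ∑ j, M i j * z.1 i * z.2 j = 0).card : ℝ) ≤
        C * (B : ℝ) ^ (2 * (n : ℝ) - 2 + δ) := by
  classical
  set N : Fin n → Fin n → ℤ := fun i j => M a b * M i j - M i b * M a j with hN
  have hNa : ∀ j, N a j = 0 := fun j => by rw [hN]; ring
  have hNb : ∀ i, N i b = 0 := fun i => by rw [hN]; ring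
  have hident : ∀ u w : Fin n → ℤ, M a b * ∑ i, ∑ j, M i j * u i * w j =
      (∑ i, M i b * u i) * (∑ j, M a j * w j) + ∑ i, ∑ j, N i j * u i * w j := by
    intro u w
    rw [Finset.mul_sum, Finset.sum_mul, ← Finset.sum_add_distrib]
    refine Finset.sum_congr rfl fun i _ => ?_
    rw [Finset.mul_sum, Finset.mul_sum, ← Finset.sum_add_distrib]
    refine Finset.sum_congr rfl fun j _ => ?_
    rw [hN]; ring
  have hn1 : 1 ≤ n := by have := a.2; omega
  set c : ℕ := ∑ i, ∑ j, (N i j).natAbs + 1 with hc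
  have hsb : ∀ B : ℕ, ∀ u ∈ box n B, ∀ w ∈ box n B,
      (∑ i, ∑ j, N i j * u i * w j).natAbs ≤ c * B ^ 2 := by
    intro B u hu w hw
    rw [mem_box] at hu hw
    refine (Int.natAbs_sum_le _ _).trans ?_
    rw [hc, add_mul, Finset.sum_mul]
    refine (Finset.sum_le_sum fun i _ => ?_).trans (Nat.le_add_right _ _)
    refine (Int.natAbs_sum_le _ _).trans ?_
    rw [Finset.sum_mul]
    refine Finset.sum_le_sum fun j _ => ?_
    rw [Int.natAbs_mul, Int.natAbs_mul, mul_assoc, sq]
    have h1 := hu i
    have h2 := hw j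
    rw [Int.abs_eq_natAbs] at h1 h2
    exact Nat.mul_le_mul_left _ (Nat.mul_le_mul (by exact_mod_cast h1) (by exact_mod_cast h2))
  obtain ⟨Cd, hCd0, hCd⟩ := H510R2.divisor_bound (δ / 2) (by positivity)
  refine ⟨3 ^ (2 * (n - 1)) * (2 * (Cd * (c : ℝ) ^ (δ / 2)) + 4), by positivity, fun B hB => ?_⟩
  have hB1 : (1 : ℝ) ≤ B := by exact_mod_cast hB
  have hBpos : (0 : ℝ) < B := by linarith
  set Z := ((box n B) ×ˢ (box n B)).filter fun z => ∑ i, ∑ j, M i j * z.1 i * z.2 j = 0 with hZ
  set Z1 := Z.filter fun z => ∑ i, ∑ j, N i j * z.1 i * z.2 j ≠ 0 with hZ1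
  set Z2 := ((box n B) ×ˢ (box n B)).filter fun z => ∑ i, M i b * z.1 i = 0 ∧
      ∑ i, ∑ j, N i j * z.1 i * z.2 j = 0 with hZ2
  set Z3 := ((box n B) ×ˢ (box n B)).filter fun z => ∑ j, M a j * z.1 j = 0 ∧
      ∑ j, ∑ i, N i j * z.1 j * z.2 i = 0 with hZ3
  have hZ2c : Z2.card ≤ 2 * (2 * B + 1) ^ (2 * (n - 1)) :=
    card_degenerate (fun i => M i b) N a p q hab hNa hpq
  have hZ3c : Z3.card ≤ 2 * (2 * B + 1) ^ (2 * (n - 1)) :=
    card_degenerate (fun j => M a j) (fun j i => N i j) b q p hab hNb hpq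
  have hcover : Z ⊆ Z1 ∪ (Z2 ∪ Z3.image Prod.swap) := by
    intro z hz
    have hz' := hz
    rw [hZ, Finset.mem_filter, Finset.mem_product] at hz'
    obtain ⟨⟨hz1, hz2⟩, hz3⟩ := hz'
    by_cases hs : ∑ i, ∑ j, N i j * z.1 i * z.2 j = 0
    · have h1 := hident z.1 z.2
      rw [hz3, hs, mul_zero, add_zero] at h1
      rcases mul_eq_zero.mp h1.symm with h2 | h2
      · refine Finset.mem_union_right _ (Finset.mem_union_left _ ?_)
        rw [hZ2, Finset.mem_filter, Finset.mem_product]
        exact ⟨⟨hz1, hz2⟩, h2, hs⟩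
      · refine Finset.mem_union_right _ (Finset.mem_union_right _ ?_)
        rw [Finset.mem_image]
        refine ⟨(z.2, z.1), ?_, rfl⟩
        rw [hZ3, Finset.mem_filter, Finset.mem_product]
        refine ⟨⟨hz2, hz1⟩, h2, ?_⟩
        rw [Finset.sum_comm, ← hs]
        exact Finset.sum_congr rfl fun i _ => Finset.sum_congr rfl fun j _ => by ring
    · refine Finset.mem_union_left _ ?_
      rw [hZ1, Finset.mem_filter]
      exact ⟨hz, hs⟩
  -- the main part
  set T : Finset ((_ : (Fin n → ℤ) × (Fin n → ℤ)) × ℕ) :=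
    (zbox n {a} B ×ˢ zbox n {b} B).sigma
      (fun z => (∑ i, ∑ j, N i j * z.1 i * z.2 j).natAbs.divisors) with hT
  have hkill : ∀ z : (Fin n → ℤ) × (Fin n → ℤ),
      ∑ i, ∑ j, N i j * (if i = a then 0 else z.1 i) * (if j = b then 0 else z.2 j) =
      ∑ i, ∑ j, N i j * z.1 i * z.2 j := by
    intro z
    refine Finset.sum_congr rfl fun i _ => Finset.sum_congr rfl fun j _ => ?_
    by_cases hi : i = a
    · rw [hi, hNa j]; ring
    · by_cases hj : j = b
      · rw [hj, hNb i]; ring
      · simp [hi, hj]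
  have hzb : ∀ (a : Fin n) (u : Fin n → ℤ), u ∈ box n B →
      (fun i => if i = a then 0 else u i) ∈ zbox n {a} B := by
    intro a u hu
    have hub := mem_box.mp hu
    unfold zbox
    rw [Fintype.mem_piFinset]
    intro i
    by_cases hi : i = a
    · simp [hi]
    · simp only [hi, if_false, Finset.mem_singleton, Finset.mem_Icc]
      exact abs_le.mp (hub i)
  have hZ1c : Z1.card ≤ 2 * T.card := by
    refine Finset.card_le_mul_card_image_of_maps_to (f := fun z =>
      (⟨(fun i => if i = a then 0 else z.1 i, fun j => if j = b then 0 else z.2 j),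
        (∑ i, M i b * z.1 i).natAbs⟩ : (_ : (Fin n → ℤ) × (Fin n → ℤ)) × ℕ)) ?_ 2 ?_
    · intro z hz
      rw [hZ1, Finset.mem_filter, hZ, Finset.mem_filter, Finset.mem_product] at hz
      obtain ⟨⟨⟨hz1, hz2⟩, hz3⟩, hz4⟩ := hz
      rw [hT, Finset.mem_sigma, Finset.mem_product]
      refine ⟨⟨hzb a _ hz1, hzb b _ hz2⟩, ?_⟩
      simp only [hkill]
      rw [Nat.mem_divisors]
      refine ⟨?_, Int.natAbs_ne_zero.mpr hz4⟩
      rw [Int.natAbs_dvd_natAbs]
      have h1 := hident z.1 z.2
      rw [hz3, mul_zero] at h1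
      refine ⟨-(∑ j, M a j * z.2 j), ?_⟩
      linarith
    · rintro ⟨⟨u₀, w₀⟩, d⟩ -
      have h6 : (Z1.filter fun z => (⟨(fun i => if i = a then 0 else z.1 i,
          fun j => if j = b then 0 else z.2 j), (∑ i, M i b * z.1 i).natAbs⟩ :
            (_ : (Fin n → ℤ) × (Fin n → ℤ)) × ℕ) = ⟨(u₀, w₀), d⟩).card ≤
          ({(d : ℤ), -(d : ℤ)} : Finset ℤ).card := by
        refine Finset.card_le_card_of_injOn (fun z => ∑ i, M i b * z.1 i) ?_ ?_
        · intro z hz
          rw [Finset.mem_coe, Finset.mem_filter] at hz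
          have h7 : (∑ i, M i b * z.1 i).natAbs = d := congrArg Sigma.snd hz.2
          rw [Finset.mem_coe, Finset.mem_insert, Finset.mem_singleton]
          simp only
          omega
        · intro z hz z' hz' hzz'
          rw [Finset.mem_coe, Finset.mem_filter] at hz hz'
          have h7 : ((fun i => if i = a then 0 else z.1 i : Fin n → ℤ),
            (fun j => if j = b then 0 else z.2 j : Fin n → ℤ)) = (u₀, w₀) :=
            congrArg Sigma.fst hz.2
          have h7' : ((fun i => if i = a then 0 else z'.1 i : Fin n → ℤ),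
            (fun j => if j = b then 0 else z'.2 j : Fin n → ℤ)) = (u₀, w₀) :=
            congrArg Sigma.fst hz'.2
          have h8 := h7.trans h7'.symm
          have h9 : ∀ i, i ≠ a → z.1 i = z'.1 i := fun i hi => by
            have := congrFun (congrArg Prod.fst h8) i
            simpa [hi] using this
          have h10 : ∀ j, j ≠ b → z.2 j = z'.2 j := fun j hj => by
            have := congrFun (congrArg Prod.snd h8) j
            simpa [hj] using this
          simp only at hzz'
          have h11 : z.1 = z'.1 := by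
            have h12 : ∑ i, M i b * (z.1 i - z'.1 i) = 0 := by
              simp only [mul_sub, Finset.sum_sub_distrib, hzz', sub_self]
            rw [Fintype.sum_eq_single a (fun i hi => by rw [h9 i hi]; ring)] at h12
            funext i
            by_cases hi : i = a
            · rw [hi]
              rcases mul_eq_zero.mp h12 with h13 | h13
              · exact absurd h13 hab
              · linarith
            · exact h9 i hi
          have hzz := hz.1
          have hzz2 := hz'.1
          rw [hZ1, Finset.mem_filter, hZ, Finset.mem_filter] at hzz hzz2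
          have hk := hkill z
          have hk' := hkill z'
          have h14 : ∑ i, ∑ j, N i j * z.1 i * z.2 j = ∑ i, ∑ j, N i j * z'.1 i * z'.2 j := by
            rw [← hk, ← hk']
            refine Finset.sum_congr rfl fun i _ => Finset.sum_congr rfl fun j _ => ?_
            have h15 : (if i = a then (0 : ℤ) else z.1 i) = if i = a then 0 else z'.1 i :=
              congrFun (congrArg Prod.fst h8) i
            have h16 : (if j = b then (0 : ℤ) else z.2 j) = if j = b then 0 else z'.2 j :=
              congrFun (congrArg Prod.snd h8) j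
            rw [h15, h16]
          have h17 := hident z.1 z.2
          have h18 := hident z'.1 z'.2
          rw [hzz.1.2, mul_zero] at h17
          rw [hzz2.1.2, mul_zero] at h18
          have hlam : ∑ i, M i b * z.1 i ≠ 0 := by
            intro h0
            rw [h0, zero_mul, zero_add] at h17
            exact hzz.2 h17.symm
          have h19 : (∑ i, M i b * z.1 i) * (∑ j, M a j * z.2 j) =
              (∑ i, M i b * z.1 i) * (∑ j, M a j * z'.2 j) := by
            have h20 : (∑ i, M i b * z'.1 i) = ∑ i, M i b * z.1 i := hzz'.symm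
            rw [h20] at h18
            linarith
          have h21 := mul_left_cancel₀ hlam h19
          have h22 : z.2 = z'.2 := by
            have h12 : ∑ j, M a j * (z.2 j - z'.2 j) = 0 := by
              simp only [mul_sub, Finset.sum_sub_distrib, h21, sub_self]
            rw [Fintype.sum_eq_single b (fun j hj => by rw [h10 j hj]; ring)] at h12
            funext j
            by_cases hj : j = b
            · rw [hj]
              rcases mul_eq_zero.mp h12 with h13 | h13
              · exact absurd h13 hab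
              · linarith
            · exact h10 j hj
          exact Prod.ext h11 h22
      exact h6.trans Finset.card_le_two
  have hTc : (T.card : ℝ) ≤ ((2 * B + 1 : ℕ) : ℝ) ^ (2 * (n - 1)) *
      (Cd * (c : ℝ) ^ (δ / 2) * (B : ℝ) ^ δ) := by
    rw [hT, Finset.card_sigma]
    push_cast
    have h1 : ∀ z ∈ zbox n {a} B ×ˢ zbox n {b} B,
        ((∑ i, ∑ j, N i j * z.1 i * z.2 j).natAbs.divisors.card : ℝ) ≤
          Cd * (c : ℝ) ^ (δ / 2) * (B : ℝ) ^ δ := by
      intro z hz
      by_cases h0 : (∑ i, ∑ j, N i j * z.1 i * z.2 j).natAbs = 0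
      · rw [h0]; simp only [Nat.divisors_zero, Finset.card_empty, Nat.cast_zero]; positivity
      · refine (hCd _ (Nat.one_le_iff_ne_zero.mpr h0)).trans ?_
        rw [mul_assoc]
        refine mul_le_mul_of_nonneg_left ?_ hCd0.le
        have hsub : ∀ (a : Fin n) (u : Fin n → ℤ), u ∈ zbox n {a} B → u ∈ box n B := by
          intro a u hu
          rw [mem_box]
          intro i
          unfold zbox at hu
          rw [Fintype.mem_piFinset] at hu
          have h7 := hu i
          split_ifs at h7 with hi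
          · rw [Finset.mem_singleton] at h7
            rw [h7, abs_zero]
            exact Int.natCast_nonneg _
          · rw [Finset.mem_Icc, ← abs_le] at h7
            exact h7
        rw [Finset.mem_product] at hz
        have h2 := hsb B z.1 (hsub a _ hz.1) z.2 (hsub b _ hz.2)
        have h3 : ((∑ i, ∑ j, N i j * z.1 i * z.2 j).natAbs : ℝ) ≤ c * (B : ℝ) ^ 2 := by
          exact_mod_cast h2
        calc ((∑ i, ∑ j, N i j * z.1 i * z.2 j).natAbs : ℝ) ^ (δ / 2) ≤
              (c * (B : ℝ) ^ 2) ^ (δ / 2) :=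
              Real.rpow_le_rpow (Nat.cast_nonneg _) h3 (by positivity)
          _ = (c : ℝ) ^ (δ / 2) * ((B : ℝ) ^ 2) ^ (δ / 2) :=
              Real.mul_rpow (by positivity) (by positivity)
          _ = _ := by
              rw [← Real.rpow_natCast, ← Real.rpow_mul hBpos.le]
              congr 2
              push_cast
              ring
    refine (Finset.sum_le_sum h1).trans ?_
    rw [Finset.sum_const, nsmul_eq_mul, Finset.card_product, card_zbox, card_zbox]
    refine mul_le_mul_of_nonneg_right (le_of_eq ?_) (by positivity)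
    push_cast
    rw [Finset.card_singleton, Finset.card_singleton, ← pow_add]
    congr 1
    omega
  have hcard : Z.card ≤ Z1.card + (Z2.card + Z3.card) := by
    refine (Finset.card_le_card hcover).trans ((Finset.card_union_le _ _).trans ?_)
    refine Nat.add_le_add_left ((Finset.card_union_le _ _).trans ?_) _
    exact Nat.add_le_add_left Finset.card_image_le _
  have hpow : ((2 * B + 1 : ℕ) : ℝ) ^ (2 * (n - 1)) ≤
      3 ^ (2 * (n - 1)) * (B : ℝ) ^ (2 * (n : ℝ) - 2) := by
    have h1 : (2 * (n : ℝ) - 2) = ((2 * (n - 1) : ℕ) : ℝ) := by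
      push_cast [Nat.cast_sub hn1]; ring
    rw [h1, Real.rpow_natCast, ← mul_pow]
    refine pow_le_pow_left₀ (by positivity) ?_ _
    push_cast
    linarith
  have hBδ : (1 : ℝ) ≤ (B : ℝ) ^ δ := Real.one_le_rpow hB1 hδ.le
  calc (Z.card : ℝ) ≤ Z1.card + (Z2.card + Z3.card) := by exact_mod_cast hcard
    _ ≤ 2 * T.card + (2 * ((2 * B + 1 : ℕ) : ℝ) ^ (2 * (n - 1)) +
        2 * ((2 * B + 1 : ℕ) : ℝ) ^ (2 * (n - 1))) := by
        have e1 : (Z1.card : ℝ) ≤ 2 * T.card := by exact_mod_cast hZ1c
        have e2 : (Z2.card : ℝ) ≤ 2 * ((2 * B + 1 : ℕ) : ℝ) ^ (2 * (n - 1)) := by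
          exact_mod_cast hZ2c
        have e3 : (Z3.card : ℝ) ≤ 2 * ((2 * B + 1 : ℕ) : ℝ) ^ (2 * (n - 1)) := by
          exact_mod_cast hZ3c
        linarith
    _ ≤ 2 * (((2 * B + 1 : ℕ) : ℝ) ^ (2 * (n - 1)) * (Cd * (c : ℝ) ^ (δ / 2) * (B : ℝ) ^ δ)) +
        4 * (((2 * B + 1 : ℕ) : ℝ) ^ (2 * (n - 1)) * (B : ℝ) ^ δ) := by
        have e4 : ((2 * B + 1 : ℕ) : ℝ) ^ (2 * (n - 1)) ≤
            ((2 * B + 1 : ℕ) : ℝ) ^ (2 * (n - 1)) * (B : ℝ) ^ δ :=
          le_mul_of_one_le_right (by positivity) hBδ
        linarith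
    _ = ((2 * B + 1 : ℕ) : ℝ) ^ (2 * (n - 1)) * ((2 * (Cd * (c : ℝ) ^ (δ / 2)) + 4) *
        (B : ℝ) ^ δ) := by ring
    _ ≤ (3 ^ (2 * (n - 1)) * (B : ℝ) ^ (2 * (n : ℝ) - 2)) *
        ((2 * (Cd * (c : ℝ) ^ (δ / 2)) + 4) * (B : ℝ) ^ δ) :=
        mul_le_mul_of_nonneg_right hpow (by positivity)
    _ = 3 ^ (2 * (n - 1)) * (2 * (Cd * (c : ℝ) ^ (δ / 2)) + 4) *
        ((B : ℝ) ^ (2 * (n : ℝ) - 2) * (B : ℝ) ^ δ) := by ring
    _ = _ := by rw [← Real.rpow_add hBpos]

end Pool.Agent.TH910.Voj
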