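import Mathlib

set_option autoImplicit false

/-!
Specialisation of the ramification data at an integral point.
-/

namespace Pool.Agent.TH910.Voj

open NumberField

theorem mem_pow_of_data {K : Type*} [Field K] [NumberField K] {A : Type*} [CommRing A]
    (ψ : A →+* 𝓞 K) (T : Set A) (u f : A) (ν E : ℕ)
    (h1 : u * f ∈ (Ideal.span T) ^ ν) (h2 : ∀ z ∈ T, ∃ b, u * z ^ E = f * b)
    (a b : ℤ) (hu : ψ u = (a : 𝓞 K)) (hf : ψ f = (b : 𝓞 K)) {p : ℕ} (hp : p.Prime)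
    (hpb : (p : ℤ) ∣ b) (hpb2 : ¬ (p : ℤ) ^ 2 ∣ b) (hpa : ¬ (p : ℤ) ∣ a)
    (𝔮 : Ideal (𝓞 K)) (h𝔮 : 𝔮.IsPrime) (hmem : (p : 𝓞 K) ∈ 𝔮) : (p : 𝓞 K) ∈ 𝔮 ^ ν := by
  have hpZ : _root_.Prime (p : ℤ) := Nat.prime_iff_prime_int.mp hp
  have hcomap : ∀ c : ℤ, (c : 𝓞 K) ∈ 𝔮 → (p : ℤ) ∣ c := by
    intro c hc
    by_contra hpc
    obtain ⟨r, t, hrt⟩ : IsCoprime (p : ℤ) c := (hpZ.coprime_iff_not_dvd).mpr hpc
    have h3 : (1 : 𝓞 K) ∈ 𝔮 := by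
      have h4 : (1 : 𝓞 K) = (r : 𝓞 K) * (p : 𝓞 K) + (t : 𝓞 K) * (c : 𝓞 K) := by
        have := congrArg (fun i : ℤ => (i : 𝓞 K)) hrt
        push_cast at this
        exact this.symm
      rw [h4]
      exact Ideal.add_mem _ (Ideal.mul_mem_left _ _ hmem) (Ideal.mul_mem_left _ _ hc)
    exact h𝔮.ne_top ((Ideal.eq_top_iff_one _).mpr h3)
  obtain ⟨b', hb'⟩ := hpb
  have hpb' : ¬ (p : ℤ) ∣ b' := by
    rintro ⟨c, hc⟩
    exact hpb2 ⟨c, by rw [hb', hc]; ring⟩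
  have hfq : ψ f ∈ 𝔮 := by
    rw [hf, hb']
    push_cast
    exact Ideal.mul_mem_right _ _ hmem
  have hz : ∀ z ∈ T, ψ z ∈ 𝔮 := by
    intro z hzT
    obtain ⟨c, hc⟩ := h2 z hzT
    have h3 : ψ u * ψ z ^ E ∈ 𝔮 := by
      rw [← map_pow, ← map_mul, hc, map_mul]
      exact Ideal.mul_mem_right _ _ hfq
    rcases h𝔮.mem_or_mem h3 with h4 | h4
    · rw [hu] at h4
      exact absurd (hcomap a h4) hpa
    · exact h𝔮.mem_of_pow_mem _ h4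
  have hspan : Ideal.span T ≤ Ideal.comap ψ 𝔮 := by
    rw [Ideal.span_le]
    intro z hzT
    exact hz z hzT
  have h5 : ψ (u * f) ∈ 𝔮 ^ ν := by
    have h6 : (Ideal.span T) ^ ν ≤ Ideal.comap ψ (𝔮 ^ ν) :=
      (Ideal.pow_right_mono hspan ν).trans (Ideal.le_comap_pow ψ ν)
    exact h6 h1
  rw [map_mul, hu, hf, hb'] at h5
  have hw : ¬ (p : ℤ) ∣ a * b' := fun h => (hpZ.dvd_or_dvd h).elim hpa hpb'
  obtain ⟨r, t, hrt⟩ : IsCoprime (p : ℤ) (a * b') := (hpZ.coprime_iff_not_dvd).mpr hw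
  have hpk : ∀ k : ℕ, k ≤ ν → (p : 𝓞 K) ∈ 𝔮 ^ k := by
    intro k
    induction k with
    | zero => intro _; simp
    | succ k ih =>
      intro hk
      have h7 : (p : 𝓞 K) = (r : 𝓞 K) * ((p : 𝓞 K) * (p : 𝓞 K)) +
          (t : 𝓞 K) * ((a : 𝓞 K) * (((p : ℤ) * b' : ℤ) : 𝓞 K)) := by
        have h8 : (p : ℤ) = r * ((p : ℤ) * (p : ℤ)) + t * (a * ((p : ℤ) * b')) := by
          have : (p : ℤ) = (r * p + t * (a * b')) * p := by rw [hrt, one_mul]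
          linarith
        have h9 := congrArg (fun i : ℤ => (i : 𝓞 K)) h8
        push_cast at h9 ⊢
        exact h9
      rw [h7]
      refine Ideal.add_mem _ (Ideal.mul_mem_left _ _ ?_) (Ideal.mul_mem_left _ _ ?_)
      · rw [pow_succ]
        exact Ideal.mul_mem_mul (ih (by omega)) hmem
      · exact Ideal.pow_le_pow_right hk h5
  exact hpk ν le_rfl

end Pool.Agent.TH910.Voj
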