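import Pool.Agent.TH910.Voj.Main

set_option autoImplicit false

/-!
The truncated counting function of an arbitrary reduced divisor of projective space.
-/

namespace Pool.Agent.TH910.Voj

open MvPolynomial Pool.Agent.H813R3.Voj

/-- **Large radical**, for forms of degree `k` with at most `C B ^ (2 n - m + δ)` coincidences. -/
theorem sparse_small_rad' {n : ℕ} (F : MvPolynomial (Fin n) ℤ) (k : ℕ) {m : ℕ}
    (hk : F.totalDegree ≤ k) (hF : FewCoincidences F m) {θ : ℝ} (hθ : 0 < θ) :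
    Sparse n (fun B x => eval x F ≠ 0 ∧ (rd (eval x F).natAbs : ℝ) ≤ (B : ℝ) ^ ((m : ℝ) - θ)) := by
  classical
  obtain ⟨c, hc, hval⟩ := exists_eval_bound F hk
  obtain ⟨C₁, hC₁⟩ := hF (θ / 4) (by positivity)
  have hδ : 0 < θ / (4 * (k + 1 : ℝ)) := by positivity
  obtain ⟨C₂, hC₂0, hC₂⟩ := card_small_rad hδ
  set δ := θ / (4 * (k + 1 : ℝ)) with hδdef
  set C₃ : ℝ := C₂ * (c : ℝ) ^ δ * |C₁| + 1 with hC₃
  have hC₃0 : 0 < C₃ := by positivity
  refine ⟨θ / 4, by positivity, Real.sqrt C₃, Real.sqrt_pos.mpr hC₃0, fun B hB => ?_⟩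
  have hB1 : (1 : ℝ) ≤ B := by exact_mod_cast hB
  have hB0 : (0 : ℝ) < B := by linarith
  set X := (box n B).filter fun x => eval x F ≠ 0 ∧
    (rd (eval x F).natAbs : ℝ) ≤ (B : ℝ) ^ ((m : ℝ) - θ) with hX
  set N := c * B ^ k with hN
  have hN1 : 1 ≤ N := Nat.one_le_iff_ne_zero.mpr (Nat.mul_ne_zero (by omega)
    (pow_ne_zero _ (by omega)))
  set V := (Finset.Icc (-(N : ℤ)) N).filter fun v => v ≠ 0 ∧
    (rd v.natAbs : ℝ) ≤ (B : ℝ) ^ ((m : ℝ) - θ) with hV
  have hXV : ∀ x ∈ X, eval x F ∈ V := by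
    intro x hx
    rw [hX, Finset.mem_filter] at hx
    rw [hV, Finset.mem_filter, Finset.mem_Icc]
    have := hval B hB x hx.1
    exact ⟨by omega, hx.2⟩
  have h1 := card_sq_le X (fun x => eval x F) V hXV
  have h2 : (((X ×ˢ X).filter fun z => eval z.1 F = eval z.2 F).card : ℝ) ≤
      |C₁| * (B : ℝ) ^ (2 * (n : ℝ) - m + θ / 4) := by
    have h3 := hC₁ B hB
    have h4 : (((X ×ˢ X).filter fun z => eval z.1 F = eval z.2 F).card : ℝ) ≤
        (Set.ncard {z : (Fin n → ℤ) × (Fin n → ℤ) | (∀ i, |z.1 i| ≤ B) ∧ (∀ i, |z.2 i| ≤ B) ∧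
          eval z.1 F = eval z.2 F} : ℝ) := by
      rw [← Set.ncard_coe_finset]
      have hfin : {z : (Fin n → ℤ) × (Fin n → ℤ) | (∀ i, |z.1 i| ≤ B) ∧ (∀ i, |z.2 i| ≤ B) ∧
          eval z.1 F = eval z.2 F}.Finite := by
        refine ((box n B ×ˢ box n B).finite_toSet).subset ?_
        rintro z ⟨hz1, hz2, -⟩
        rw [Finset.coe_product]
        exact ⟨mem_box.mpr hz1, mem_box.mpr hz2⟩
      have hsub : (((X ×ˢ X).filter fun z => eval z.1 F = eval z.2 F : Finset _) : Set _) ⊆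
          {z : (Fin n → ℤ) × (Fin n → ℤ) | (∀ i, |z.1 i| ≤ B) ∧ (∀ i, |z.2 i| ≤ B) ∧
            eval z.1 F = eval z.2 F} := by
        intro z hz
        rw [Finset.mem_coe, Finset.mem_filter, Finset.mem_product, hX, Finset.mem_filter,
          Finset.mem_filter] at hz
        exact ⟨mem_box.mp hz.1.1.1, mem_box.mp hz.1.2.1, hz.2⟩
      exact_mod_cast Set.ncard_le_ncard hsub hfin
    refine h4.trans (h3.trans ?_)
    exact mul_le_mul_of_nonneg_right (le_abs_self _) (by positivity)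
  have h5 : (V.card : ℝ) ≤ C₂ * (B : ℝ) ^ ((m : ℝ) - θ) * (N : ℝ) ^ δ :=
    hC₂ N hN1 _ (by positivity)
  have h6 : (N : ℝ) ^ δ ≤ (c : ℝ) ^ δ * (B : ℝ) ^ (θ / 4) := by
    rw [hN]
    push_cast
    rw [Real.mul_rpow (by positivity) (by positivity)]
    refine mul_le_mul_of_nonneg_left ?_ (by positivity)
    rw [← Real.rpow_natCast, ← Real.rpow_mul hB0.le]
    refine Real.rpow_le_rpow_of_exponent_le hB1 ?_
    rw [hδdef]
    have hk1 : (0 : ℝ) < k + 1 := by positivity
    rw [mul_div_assoc', div_le_div_iff₀ (by positivity) (by norm_num)]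
    have : (0 : ℝ) ≤ θ * 4 := by positivity
    nlinarith
  have h7 : (X.card : ℝ) ^ 2 ≤ C₃ * ((B : ℝ) ^ ((n : ℝ) - θ / 4)) ^ 2 := by
    calc (X.card : ℝ) ^ 2 ≤ V.card * (((X ×ˢ X).filter fun z => eval z.1 F = eval z.2 F).card : ℝ) :=
          h1
      _ ≤ (C₂ * (B : ℝ) ^ ((m : ℝ) - θ) * ((c : ℝ) ^ δ * (B : ℝ) ^ (θ / 4))) *
          (|C₁| * (B : ℝ) ^ (2 * (n : ℝ) - m + θ / 4)) := by
          refine mul_le_mul (h5.trans (mul_le_mul_of_nonneg_left h6 (by positivity))) h2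
            (by positivity) (by positivity)
      _ = (C₂ * (c : ℝ) ^ δ * |C₁|) * ((B : ℝ) ^ ((m : ℝ) - θ) * (B : ℝ) ^ (θ / 4) *
          (B : ℝ) ^ (2 * (n : ℝ) - m + θ / 4)) := by ring
      _ = (C₂ * (c : ℝ) ^ δ * |C₁|) * ((B : ℝ) ^ ((n : ℝ) - θ / 4)) ^ 2 := by
          congr 1
          rw [← Real.rpow_add hB0, ← Real.rpow_add hB0, ← Real.rpow_natCast,
            ← Real.rpow_mul hB0.le]
          congr 1
          push_cast
          ring
      _ ≤ _ := by
          refine mul_le_mul_of_nonneg_right ?_ (by positivity)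
          rw [hC₃]; linarith
  have h8 : Set.ncard {x | x ∈ box n B ∧ (eval x F ≠ 0 ∧
      (rd (eval x F).natAbs : ℝ) ≤ (B : ℝ) ^ ((m : ℝ) - θ))} = X.card := by
    rw [← Set.ncard_coe_finset]
    congr 1
    ext x; simp [hX]
  rw [h8]
  have h9 := Real.sqrt_le_sqrt h7
  rwa [Real.sqrt_sq (by positivity), Real.sqrt_mul hC₃0.le, Real.sqrt_sq (by positivity)] at h9

/-- every non-constant polynomial has few coincidences with `m = 1` -/
lemma few_any {n : ℕ} (F : MvPolynomial (Fin (n + 1)) ℤ) (hirr : Irreducible (toQ F)) :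
    FewCoincidences F 1 := by
  classical
  intro δ hδ
  refine ⟨F.totalDegree * 3 ^ (n + 1) * 3 ^ n, fun B hB => ?_⟩
  have hB1 : (1 : ℝ) ≤ B := by exact_mod_cast hB
  have hBpos : (0 : ℝ) < B := by linarith
  have hne : ∀ v : ℤ, F - C v ≠ 0 := by
    intro v hv
    have h1 : F = C v := sub_eq_zero.mp hv
    have h2 : toQ F = (C (v : ℚ) : MvPolynomial (Fin (n + 1)) ℚ) := by
      rw [h1]; exact (map_C _ _).trans rfl
    by_cases hv0 : v = 0
    · apply hirr.ne_zero
      rw [h2, hv0]; simp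
    · apply hirr.not_isUnit
      rw [h2]
      exact IsUnit.map C (isUnit_iff_ne_zero.mpr (by exact_mod_cast hv0))
  have hdeg : ∀ v : ℤ, (F - C v).totalDegree ≤ F.totalDegree := by
    intro v
    refine (totalDegree_sub _ _).trans ?_
    rw [totalDegree_C]
    exact max_le le_rfl (Nat.zero_le _)
  set Z := ((box (n + 1) B) ×ˢ (box (n + 1) B)).filter fun z => eval z.1 F = eval z.2 F with hZ
  have hcard : Z.card ≤ F.totalDegree * (2 * B + 1) ^ n * (box (n + 1) B).card := by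
    refine Finset.card_le_mul_card_image_of_maps_to (f := fun z => z.2) ?_ _ ?_
    · intro z hz
      rw [hZ, Finset.mem_filter, Finset.mem_product] at hz
      exact hz.1.2
    · intro y hy
      have h3 := zeros_card_le (F - C (eval y F)) (hne _) B
      have h4 : (F - C (eval y F)).totalDegree * (2 * B + 1) ^ n ≤
        F.totalDegree * (2 * B + 1) ^ n := Nat.mul_le_mul_right _ (hdeg _)
      refine le_trans ?_ (h3.trans h4)
      refine Finset.card_le_card_of_injOn (fun z => z.1) ?_ ?_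
      · intro z hz
        rw [Finset.mem_coe, Finset.mem_filter, hZ, Finset.mem_filter, Finset.mem_product] at hz
        obtain ⟨⟨⟨hz1, hz2⟩, hz3⟩, rfl⟩ := hz
        rw [Finset.mem_coe, Finset.mem_filter]
        refine ⟨hz1, ?_⟩
        rw [map_sub, eval_C, hz3, sub_self]
      · intro z hz z' hz' hzz'
        rw [Finset.mem_coe, Finset.mem_filter] at hz hz'
        exact Prod.ext hzz' (hz.2.trans hz'.2.symm)
  have h2 : Set.ncard {z : (Fin (n + 1) → ℤ) × (Fin (n + 1) → ℤ) | (∀ i, |z.1 i| ≤ B) ∧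
      (∀ i, |z.2 i| ≤ B) ∧ eval z.1 F = eval z.2 F} = Z.card := by
    rw [← Set.ncard_coe_finset]
    congr 1
    ext z
    simp only [Set.mem_ofPred_eq, hZ, Finset.coe_filter, Finset.mem_product, mem_box]
    tauto
  rw [h2]
  have h5 : (Z.card : ℝ) ≤ F.totalDegree * (2 * B + 1 : ℝ) ^ n * (box (n + 1) B).card := by
    exact_mod_cast hcard
  have h6 := card_box_le (n + 1) B hB
  have h7 : (2 * B + 1 : ℝ) ^ n ≤ 3 ^ n * (B : ℝ) ^ (n : ℝ) := by
    rw [Real.rpow_natCast, ← mul_pow]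
    exact pow_le_pow_left₀ (by positivity) (by linarith) _
  calc (Z.card : ℝ) ≤ (F.totalDegree * (3 ^ n * (B : ℝ) ^ (n : ℝ))) *
        (3 ^ (n + 1) * (B : ℝ) ^ ((n + 1 : ℕ) : ℝ)) :=
        h5.trans (mul_le_mul (mul_le_mul_of_nonneg_left h7 (by positivity)) h6 (by positivity)
          (by positivity))
    _ = F.totalDegree * 3 ^ (n + 1) * 3 ^ n *
        ((B : ℝ) ^ (n : ℝ) * (B : ℝ) ^ ((n + 1 : ℕ) : ℝ)) := by ring
    _ ≤ _ := by
        rw [← Real.rpow_add hBpos]
        refine mul_le_mul_of_nonneg_left ?_ (by positivity)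
        refine Real.rpow_le_rpow_of_exponent_le hB1 ?_
        push_cast
        linarith

lemma FewCoincidences.mono {n : ℕ} {F : MvPolynomial (Fin n) ℤ} {m m' : ℕ}
    (h : FewCoincidences F m) (hm : m' ≤ m) : FewCoincidences F m' := by
  intro δ hδ
  obtain ⟨C, hC⟩ := h δ hδ
  refine ⟨|C|, fun B hB => (hC B hB).trans ?_⟩
  have hB1 : (1 : ℝ) ≤ B := by exact_mod_cast hB
  refine mul_le_mul (le_abs_self C) (Real.rpow_le_rpow_of_exponent_le hB1 ?_) (by positivity)
    (abs_nonneg C)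
  have : (m' : ℝ) ≤ m := by exact_mod_cast hm
  linarith

/-- the logarithm of the product of the primes outside `S` dividing `a` -/
noncomputable def logRad (S : Finset ℕ) (a : ℤ) : ℝ :=
  ∑ p ∈ a.natAbs.primeFactors \ S, Real.log p

lemma logRad_prod_ge {r : ℕ} (S : Finset ℕ) (a : Fin r → ℤ) (ha : ∀ j, a j ≠ 0)
    (b : Fin r → ℤ) (hab : ∀ i j, i ≠ j → a i ∣ b j) :
    ∑ j, (Real.log (rd (a j).natAbs) - Real.log (rd (Int.gcd (a j) (b j)))) -
      ∑ p ∈ S, Real.log p ≤ logRad S (∏ j, a j) := by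
  classical
  set N := (∏ j, a j).natAbs with hN
  have hN0 : N ≠ 0 := Int.natAbs_ne_zero.mpr (Finset.prod_ne_zero_iff.mpr fun j _ => ha j)
  set Q : Fin r → Finset ℕ := fun j => (a j).natAbs.primeFactors.filter
    fun p : ℕ => ¬ (p : ℤ) ∣ b j with hQ
  have hnn : ∀ p : ℕ, 0 ≤ Real.log p := Real.log_natCast_nonneg
  have hlog : ∀ m : ℕ, Real.log (rd m) = ∑ p ∈ m.primeFactors, Real.log p := by
    intro m
    unfold rd
    push_cast
    rw [Real.log_prod fun p hp => by exact_mod_cast (Nat.prime_of_mem_primeFactors hp).ne_zero]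
  have h1 : ∀ j, Real.log (rd (a j).natAbs) - Real.log (rd (Int.gcd (a j) (b j))) ≤
      ∑ p ∈ Q j, Real.log p := by
    intro j
    rw [hlog, hlog]
    have h2 : (a j).natAbs.primeFactors ⊆ Q j ∪ (Int.gcd (a j) (b j)).primeFactors := by
      intro p hp
      by_cases h12 : (p : ℤ) ∣ b j
      · refine Finset.mem_union_right _ ?_
        rw [Nat.mem_primeFactors] at hp ⊢
        refine ⟨hp.1, ?_, fun h => ha j (Int.gcd_eq_zero_iff.mp h).1⟩
        exact Nat.dvd_gcd hp.2.1 (Int.natCast_dvd.mp h12)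
      · exact Finset.mem_union_left _ (Finset.mem_filter.mpr ⟨hp, h12⟩)
    have h3 := Finset.sum_le_sum_of_subset_of_nonneg h2 (f := fun p : ℕ => Real.log p)
      fun p _ _ => hnn p
    have h4 : ∑ p ∈ Q j ∪ (Int.gcd (a j) (b j)).primeFactors, Real.log (p : ℝ) ≤
        ∑ p ∈ Q j, Real.log (p : ℝ) +
          ∑ p ∈ (Int.gcd (a j) (b j)).primeFactors, Real.log (p : ℝ) := by
      rw [← Finset.sum_union_inter]
      have : 0 ≤ ∑ p ∈ Q j ∩ (Int.gcd (a j) (b j)).primeFactors, Real.log (p : ℝ) :=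
        Finset.sum_nonneg fun p _ => hnn p
      linarith
    linarith
  have hdisj : ∀ i j, i ≠ j → Disjoint (Q i) (Q j) := by
    intro i j hij
    rw [Finset.disjoint_left]
    intro p hi hj
    rw [hQ, Finset.mem_filter, Nat.mem_primeFactors] at hi hj
    exact hj.2 ((Int.natCast_dvd.mpr hi.1.2.1).trans (hab i j hij))
  have h5 : ∑ j, ∑ p ∈ Q j, Real.log p ≤ ∑ p ∈ N.primeFactors, Real.log p := by
    rw [← Finset.sum_biUnion fun i _ j _ hij => hdisj i j hij]
    refine Finset.sum_le_sum_of_subset_of_nonneg ?_ fun p _ _ => hnn p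
    intro p hp
    rw [Finset.mem_biUnion] at hp
    obtain ⟨j, -, hj⟩ := hp
    rw [hQ, Finset.mem_filter, Nat.mem_primeFactors] at hj
    rw [Nat.mem_primeFactors]
    refine ⟨hj.1.1, ?_, hN0⟩
    rw [hN, ← Int.natCast_dvd]
    exact (Int.natCast_dvd.mpr hj.1.2.1).trans (Finset.dvd_prod_of_mem a (Finset.mem_univ j))
  have h6 : ∑ p ∈ N.primeFactors, Real.log (p : ℝ) ≤
      logRad S (∏ j, a j) + ∑ p ∈ S, Real.log (p : ℝ) := by
    unfold logRad
    rw [← hN]
    have h7 : N.primeFactors ⊆ (N.primeFactors \ S) ∪ S := by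
      intro p hp
      by_cases hpS : p ∈ S
      · exact Finset.mem_union_right _ hpS
      · exact Finset.mem_union_left _ (Finset.mem_sdiff.mpr ⟨hp, hpS⟩)
    have h8 := Finset.sum_le_sum_of_subset_of_nonneg h7 (f := fun p : ℕ => Real.log p)
      fun p _ _ => hnn p
    have h9 : ∑ p ∈ (N.primeFactors \ S) ∪ S, Real.log (p : ℝ) ≤
        ∑ p ∈ (N.primeFactors \ S), Real.log (p : ℝ) + ∑ p ∈ S, Real.log (p : ℝ) := by
      rw [← Finset.sum_union_inter]
      have : 0 ≤ ∑ p ∈ (N.primeFactors \ S) ∩ S, Real.log (p : ℝ) :=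
        Finset.sum_nonneg fun p _ => hnn p
      linarith
    linarith
  have h10 := Finset.sum_le_sum fun j (_ : j ∈ Finset.univ) => h1 j
  linarith

theorem main_trunc {n r : ℕ} (S : Finset ℕ) (F : Fin r → MvPolynomial (Fin (n + 1)) ℤ)
    (k m : Fin r → ℕ) (hhom : ∀ j, (F j).IsHomogeneous (k j))
    (hirr : ∀ j, Irreducible (toQ (F j)))
    (hdist : ∀ i j, i ≠ j → ¬ Associated (toQ (F i)) (toQ (F j)))
    (hm : ∀ j, m j ≤ 1 ∨ (m j ≤ k j ∧ k j ≤ 2) ∨ FewCoincidences (F j) (m j))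
    (θ : ℝ) (hθ : θ < ∑ j, (m j : ℝ)) :
    Sparse (n + 1) (fun B x => (∃ j, eval x (F j) = 0) ∨
      logRad S (∏ j, eval x (F j)) < θ * Real.log B) := by
  classical
  set G : Fin r → MvPolynomial (Fin (n + 1)) ℤ := fun j => ∏ i ∈ Finset.univ.erase j, F i with hG
  have hGdvd : ∀ j, ¬ toQ (F j) ∣ toQ (G j) := by
    intro j hdvd
    rw [hG, map_prod] at hdvd
    obtain ⟨i, hi, h2⟩ := ((hirr j).prime.dvd_finsetProd_iff _).mp hdvd
    exact hdist j i (Finset.ne_of_mem_erase hi).symm ((hirr j).associated_of_dvd (hirr i) h2)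
  have hF0 : ∀ j, F j ≠ 0 := by
    intro j h0
    exact (hirr j).ne_zero (by rw [h0, map_zero])
  have hfew' : ∀ j, FewCoincidences (F j) (m j) := by
    intro j
    rcases hm j with h | h | h
    · exact (few_any (F j) (hirr j)).mono h
    · exact (few_of_le_two (F j) h.2 (hhom j) (hirr j)).mono h.1
    · exact h
  set Δ : ℝ := (∑ j, (m j : ℝ)) - θ with hΔ
  have hΔ0 : 0 < Δ := by rw [hΔ]; linarith
  set η : ℝ := Δ / (4 * (r + 1)) with hη
  have hη0 : 0 < η := by positivity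
  obtain ⟨B₀, hB₀⟩ : ∃ B₀ : ℕ, ∀ B : ℕ, B₀ ≤ B →
      ∑ p ∈ S, Real.log (p : ℝ) ≤ Δ / 2 * Real.log B := by
    have h1 : Filter.Tendsto (fun B : ℕ => Δ / 2 * Real.log B) Filter.atTop Filter.atTop :=
      (Real.tendsto_log_atTop.comp tendsto_natCast_atTop_atTop).const_mul_atTop (by positivity)
    exact Filter.eventually_atTop.mp (h1.eventually_ge_atTop (∑ p ∈ S, Real.log (p : ℝ)))
  have hsp : ∀ j, Sparse (n + 1) (fun B x => eval x (F j) = 0 ∨
      ((eval x (F j) ≠ 0 ∧ (rd (eval x (F j)).natAbs : ℝ) ≤ (B : ℝ) ^ ((m j : ℝ) - η)) ∨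
        (eval x (F j) ≠ 0 ∧ (B : ℝ) ^ η < rd (Int.gcd (eval x (F j)) (eval x (G j)))))) :=
    fun j => (sparse_zeros (F j) (hF0 j)).or
      ((sparse_small_rad' (F j) (k j) (hhom j).totalDegree_le (hfew' j) hη0).or
        (sparse_gcd (F j) (G j) (hhom j) (hirr j) (hGdvd j) hη0))
  refine (Sparse.exists_fin hsp).of_eventually B₀ ?_
  rintro B x hBB hB hx hbad
  by_contra hcon
  push Not at hcon
  have hB1 : (1 : ℝ) ≤ B := by exact_mod_cast hB
  have hBpos : (0 : ℝ) < B := by linarith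
  have hlogB : 0 ≤ Real.log B := Real.log_nonneg hB1
  have ha : ∀ j, eval x (F j) ≠ 0 := fun j => (hcon j).1
  have hlt : logRad S (∏ j, eval x (F j)) < θ * Real.log B := by
    rcases hbad with ⟨j, hj⟩ | h
    · exact absurd hj (ha j)
    · exact h
  have hab : ∀ i j, i ≠ j → eval x (F i) ∣ eval x (G j) := by
    intro i j hij
    rw [hG]
    simp only [map_prod]
    exact Finset.dvd_prod_of_mem (fun i => eval x (F i))
      (Finset.mem_erase.mpr ⟨hij, Finset.mem_univ i⟩)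
  have h1 := logRad_prod_ge S (fun j => eval x (F j)) ha (fun j => eval x (G j)) hab
  have hj : ∀ j, ((m j : ℝ) - 2 * η) * Real.log B ≤
      Real.log (rd (eval x (F j)).natAbs) -
        Real.log (rd (Int.gcd (eval x (F j)) (eval x (G j)))) := by
    intro j
    obtain ⟨-, h1, h2⟩ := hcon j
    have h3 := h1 (ha j)
    have h4 := h2 (ha j)
    have e1 : ((m j : ℝ) - η) * Real.log B ≤ Real.log (rd (eval x (F j)).natAbs) := by
      rw [← Real.log_rpow hBpos]
      exact Real.log_le_log (by positivity) h3.le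
    have e2 : Real.log (rd (Int.gcd (eval x (F j)) (eval x (G j)))) ≤ η * Real.log B := by
      rw [← Real.log_rpow hBpos]
      exact Real.log_le_log (by exact_mod_cast rd_pos _) h4
    linarith
  have h2 := Finset.sum_le_sum fun j (_ : j ∈ Finset.univ) => hj j
  rw [← Finset.sum_mul, Finset.sum_sub_distrib, Finset.sum_const, Finset.card_univ,
    Fintype.card_fin, nsmul_eq_mul] at h2
  have h8 : (r : ℝ) * (2 * η) ≤ Δ / 2 := by
    rw [hη]
    have hq : (0 : ℝ) ≤ r := Nat.cast_nonneg r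
    rw [← mul_div_assoc, ← mul_div_assoc, div_le_div_iff₀ (by positivity) (by norm_num)]
    nlinarith
  have h9 := hB₀ B hBB
  have h10 : (r : ℝ) * (2 * η) * Real.log B ≤ Δ / 2 * Real.log B :=
    mul_le_mul_of_nonneg_right h8 hlogB
  have h11 : (∑ j, (m j : ℝ)) = θ + Δ := by rw [hΔ]; ring
  rw [h11] at h2
  have h12 : (θ + Δ - r * (2 * η)) * Real.log B = θ * Real.log B + Δ * Real.log B -
    r * (2 * η) * Real.log B := by ring
  linarith

end Pool.Agent.TH910.Voj
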